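import Pool.Agent.Lib.MP_391708_nt.SR.Spec
import Pool.Agent.Lib.MP_391708_nt.SG.ALP

/-!
# Module ALP, indefinite forms: the matrix of `x + y √(-a)` changes the sign
-/

set_option autoImplicit false

namespace Pool.Agent.Lib.MP391708.SR

open Finset Filter Topology
open Pool.Agent.Lib.MP391708.Eqd (V cross)
open Pool.Agent.Lib.MP391708.SG (Fm lam prim)
open Pool.Agent.Lib.MP391708.SG.ALPM (lam_mul lam_sq)
open scoped Classical

namespace ALPM

/-- multiplication by `x + y √(-a)` -/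
def mv (F : Fm) (x y : ℤ) (v : V) : V :=
  (x * v.1 - y * (F.B * v.1 + F.C * v.2), x * v.2 + y * (F.A * v.1 + F.B * v.2))

lemma q_mv (F : Fm) (x y : ℤ) (v : V) : F.q (mv F x y v) = (x ^ 2 + F.a * y ^ 2) * F.q v := by
  simp only [mv, Fm.q, Fm.a]; ring

lemma b_mv (F : Fm) (x y : ℤ) (v : V) : F.b v (mv F x y v) = x * F.q v := by
  simp only [mv, Fm.q, Fm.b]; ring

lemma adj1 (F : Fm) (x y : ℤ) (v : V) :
    (x + y * F.B) * (mv F x y v).1 + y * F.C * (mv F x y v).2 = (x ^ 2 + F.a * y ^ 2) * v.1 := by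
  simp only [mv, Fm.a]; ring

lemma adj2 (F : Fm) (x y : ℤ) (v : V) :
    (x - y * F.B) * (mv F x y v).2 - y * F.A * (mv F x y v).1 = (x ^ 2 + F.a * y ^ 2) * v.2 := by
  simp only [mv, Fm.a]; ring

/-- the content -/
def g (F : Fm) (x y : ℤ) (v : V) : ℕ := Int.gcd (mv F x y v).1 (mv F x y v).2

/-- the primitive vector -/
def w (F : Fm) (x y : ℤ) (v : V) : V :=
  ((mv F x y v).1 / (g F x y v : ℤ), (mv F x y v).2 / (g F x y v : ℤ))

variable {F : Fm} (x y : ℤ)

lemma g_dvd1 (v : V) : (g F x y v : ℤ) ∣ (mv F x y v).1 := Int.gcd_dvd_left _ _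
lemma g_dvd2 (v : V) : (g F x y v : ℤ) ∣ (mv F x y v).2 := Int.gcd_dvd_right _ _

lemma g_dvd {v : V} (hv : prim v) : (g F x y v : ℤ) ∣ x ^ 2 + F.a * y ^ 2 := by
  obtain ⟨a, b, hab⟩ := hv
  have h1 : (g F x y v : ℤ) ∣ (x ^ 2 + F.a * y ^ 2) * v.1 := by
    rw [← adj1]
    exact dvd_add (Dvd.dvd.mul_left (g_dvd1 x y v) _) (Dvd.dvd.mul_left (g_dvd2 x y v) _)
  have h2 : (g F x y v : ℤ) ∣ (x ^ 2 + F.a * y ^ 2) * v.2 := by
    rw [← adj2]
    exact dvd_sub (Dvd.dvd.mul_left (g_dvd2 x y v) _) (Dvd.dvd.mul_left (g_dvd1 x y v) _)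
  have h3 : x ^ 2 + F.a * y ^ 2 =
      a * ((x ^ 2 + F.a * y ^ 2) * v.1) + b * ((x ^ 2 + F.a * y ^ 2) * v.2) := by
    linear_combination (-(x ^ 2 + F.a * y ^ 2)) * hab
  rw [h3]
  exact dvd_add (Dvd.dvd.mul_left h1 _) (Dvd.dvd.mul_left h2 _)

variable (hN : 0 < x ^ 2 + F.a * y ^ 2)

include hN in
lemma g_pos {v : V} (hv : prim v) : 0 < g F x y v := by
  rw [Nat.pos_iff_ne_zero]
  intro h0
  have h1 := g_dvd (F := F) x y hv
  rw [h0, Nat.cast_zero, zero_dvd_iff] at h1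
  exact absurd h1 hN.ne'

include hN in
lemma g_le {v : V} (hv : prim v) : (g F x y v : ℤ) ≤ x ^ 2 + F.a * y ^ 2 :=
  Int.le_of_dvd hN (g_dvd x y hv)

lemma mv1 (v : V) : (mv F x y v).1 = (g F x y v : ℤ) * (w F x y v).1 := by
  simp only [w]; rw [Int.mul_ediv_cancel' (g_dvd1 x y v)]

lemma mv2 (v : V) : (mv F x y v).2 = (g F x y v : ℤ) * (w F x y v).2 := by
  simp only [w]; rw [Int.mul_ediv_cancel' (g_dvd2 x y v)]

include hN in
lemma w_prim {v : V} (hv : prim v) : prim (w F x y v) := by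
  have h := g_pos x y hN hv
  unfold prim
  rw [Int.isCoprime_iff_gcd_eq_one]
  simp only [w]
  exact Int.gcd_div_gcd_div_gcd h

lemma q_w (v : V) : (x ^ 2 + F.a * y ^ 2) * F.q v = (g F x y v : ℤ) ^ 2 * F.q (w F x y v) := by
  rw [← q_mv]
  have e : ∀ (k : ℤ) (u : V), F.q (k * u.1, k * u.2) = k ^ 2 * F.q u := by
    intro k u; simp only [Fm.q]; ring
  rw [← e, ← mv1, ← mv2]

lemma b_w (v : V) : x * F.q v = (g F x y v : ℤ) * F.b v (w F x y v) := by
  rw [← b_mv F x y v]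
  have e : ∀ (k : ℤ) (u : V), F.b v (k * u.1, k * u.2) = k * F.b v u := by
    intro k u; simp only [Fm.b]; ring
  rw [← e, ← mv1, ← mv2]

include hN in
lemma mv_inj {v v' : V} (h : mv F x y v = mv F x y v') : v = v' := by
  have h0 := hN.ne'
  ext
  · apply mul_left_cancel₀ h0
    rw [← adj1, ← adj1, h]
  · apply mul_left_cancel₀ h0
    rw [← adj2, ← adj2, h]

variable (μ : Au F)

/-- the entries of an automorphism -/
lemma ent : F.A * μ.q = -(F.C * μ.r) ∧ F.A * (μ.s - μ.p) = 2 * F.B * μ.r ∧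
    F.C * (μ.p - μ.s) = 2 * F.B * μ.q := by
  have e1 := μ.inv (1, 0) (1, 0)
  have e2 := μ.inv (1, 0) (0, 1)
  have e3 := μ.inv (0, 1) (0, 1)
  have hd := μ.det
  simp only [Fm.b] at e1 e2 e3
  ring_nf at e1 e2 e3
  refine ⟨?_, ?_, ?_⟩
  · linear_combination μ.p * e2 - μ.q * e1 - (F.B * μ.p + F.C * μ.r) * hd
  · linear_combination (-μ.s) * e1 + μ.r * e2 + (F.A * μ.p + F.B * μ.r) * hd
  · linear_combination (-μ.p) * e3 + μ.q * e2 + (F.B * μ.q + F.C * μ.s) * hd

lemma comm (v : V) : μ.m (mv F x y v) = mv F x y (μ.m v) := by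
  obtain ⟨h1, h2, h3⟩ := ent μ
  ext
  · simp only [Au.m, mv]
    linear_combination (y * v.1) * h1 - y * v.2 * h3
  · simp only [Au.m, mv]
    linear_combination y * v.1 * h2 + (-(y * v.2)) * h1

lemma zcomm {T : V → V} (hT : ∀ v, μ.m (T v) = T (μ.m v)) (j : ℤ) :
    ∀ v, (μ.E ^ j) (T v) = T ((μ.E ^ j) v) := by
  have h1 : ∀ v, μ.E (T v) = T (μ.E v) := hT
  have h2 : ∀ v, μ.E⁻¹ (T v) = T (μ.E⁻¹ v) := by
    intro v
    apply μ.E.injective
    rw [h1]
    simp
  induction j using Int.induction_on with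
  | zero => intro v; simp
  | succ i ih =>
    intro v
    rw [zpow_add_one, Equiv.Perm.mul_apply, Equiv.Perm.mul_apply, h1, ih]
  | pred i ih =>
    intro v
    rw [zpow_sub_one, Equiv.Perm.mul_apply, Equiv.Perm.mul_apply, h2, ih]

lemma cn_eq (run : ∀ (v : V) (i j : ℤ), Cn μ ((μ.E ^ i) v) → Cn μ ((μ.E ^ j) v) → i = j)
    {v v' : V} {i i' : ℤ} (cv : Cn μ v) (cv' : Cn μ v') (h : (μ.E ^ i) v = (μ.E ^ i') v') :
    v = v' := by
  have h1 : (μ.E ^ (i' - i)) v' = v := by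
    have h2 : (μ.E ^ (-i)) ((μ.E ^ i') v') = v := by
      rw [← h, ← Equiv.Perm.mul_apply, ← zpow_add]; simp
    rw [← h2, ← Equiv.Perm.mul_apply, ← zpow_add]
    congr 2
    ring
  have h3 : i' - i = 0 := run v' (i' - i) 0 (by rw [h1]; exact cv) (by simpa using cv')
  rw [h3] at h1
  simpa using h1.symm

include hN in
lemma w_inj (run : ∀ (v : V) (i j : ℤ), Cn μ ((μ.E ^ i) v) → Cn μ ((μ.E ^ j) v) → i = j)
    {v v' : V} {i i' : ℤ} (cv : Cn μ v) (cv' : Cn μ v')
    (h1 : (μ.E ^ i) (w F x y v) = (μ.E ^ i') (w F x y v')) (h2 : g F x y v = g F x y v') :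
    v = v' := by
  set k : ℤ := (g F x y v : ℤ) with hk
  have hsc : ∀ u : V, μ.m ((fun u : V => (k * u.1, k * u.2)) u) =
      (fun u : V => (k * u.1, k * u.2)) (μ.m u) := by
    intro u
    ext
    · simp only [Au.m]; ring
    · simp only [Au.m]; ring
  have e1 : mv F x y v = (fun u : V => (k * u.1, k * u.2)) (w F x y v) :=
    Prod.ext (mv1 x y v) (mv2 x y v)
  have e2 : mv F x y v' = (fun u : V => (k * u.1, k * u.2)) (w F x y v') :=
    Prod.ext (by rw [mv1 x y v', ← h2]) (by rw [mv2 x y v', ← h2])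
  have e3 : mv F x y ((μ.E ^ i) v) = mv F x y ((μ.E ^ i') v') := by
    rw [← zcomm μ (comm x y μ), ← zcomm μ (comm x y μ), e1, e2, zcomm μ hsc, zcomm μ hsc, h1]
  exact cn_eq μ run cv cv' (mv_inj x y hN e3)

end ALPM

open ALPM

/-- ALP, positive `x` -/
lemma ALP_pos [MA.Sg] (hBAS : SpecBAS) (hRED : SpecRED) (hPRS : SpecPRS) (F : Fm) (μ : Au F)
    (hF : Idf F) (x y : ℤ) (hx : 0 < x) (hN : 0 < x ^ 2 + F.a * y ^ 2)
    (hn : lam (x ^ 2 + F.a * y ^ 2) = -1) : ∃ (C : ℕ) (c : ℝ), 0 < C ∧ 0 < c ∧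
    ∀ᶠ X : ℕ in atTop, ∀ e : ℤ, (e = 1 ∨ e = -1) →
      c * X ≤ (((ann μ X (C * X)).filter (fun v => F.f v ≠ e)).card : ℝ) := by
  obtain ⟨_, hCP, _, hP, _, hann, _, _, hf, _, _⟩ := hBAS F μ hF
  obtain ⟨rc, rb, rq, rf, rp, rP, rex, run⟩ := hRED F μ hF
  obtain ⟨⟨c, hc, hlow⟩, _, _⟩ := hPRS F μ hF
  obtain ⟨m, hm⟩ := Int.eq_ofNat_of_zero_le hN.le
  have hm' : x ^ 2 + F.a * y ^ 2 = (m : ℤ) := hm
  have hm0 : 0 < m := by
    have : (0 : ℤ) < m := by rw [← hm']; exact hN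
    exact_mod_cast this
  have hmr : (0 : ℝ) < m := by exact_mod_cast hm0
  have hm1 : (1 : ℝ) ≤ m := by exact_mod_cast hm0
  refine ⟨2 * m ^ 2, c / 2, by positivity, by positivity, ?_⟩
  have htend : Tendsto (fun X : ℕ => m * X) atTop atTop := by
    apply tendsto_atTop_mono (f := fun X : ℕ => X) _ tendsto_id
    intro X
    exact Nat.le_mul_of_pos_left X hm0
  filter_upwards [htend.eventually hlow] with X hX e he
  set Y := ann μ (m * X) (2 * (m * X)) with hY
  set G := (ann μ X (2 * m ^ 2 * X)).filter (fun v => F.f v ≠ e) with hG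
  -- the vector in the cone
  have key : ∀ v ∈ Y, ∃ (u : V) (j : ℤ), u = (μ.E ^ j) (w F x y v) ∧ F.f u = - F.f v ∧ prim u ∧
      Cn μ u ∧ (X : ℤ) < F.q u ∧ F.q u ≤ ((2 * m ^ 2 * X : ℕ) : ℤ) := by
    intro v hv
    rw [hY, hann] at hv
    obtain ⟨p, cv, a1, a2⟩ := hv
    have pv := hCP _ cv
    have hg := g_pos x y hN p
    have hgz : (0 : ℤ) < (g F x y v : ℤ) := by exact_mod_cast hg
    have hgle := g_le x y hN p
    have hqw := q_w (F := F) x y v
    have hbw := b_w (F := F) x y v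
    rw [hm'] at hqw hgle
    have hwp := w_prim x y hN p
    have hmz : (0 : ℤ) < m := by exact_mod_cast hm0
    have hqv0 := pv.1
    have hqw0 : 0 < F.q (w F x y v) := by
      have : 0 < (g F x y v : ℤ) ^ 2 * F.q (w F x y v) := by rw [← hqw]; positivity
      exact (mul_pos_iff_of_pos_left (by positivity)).mp this
    have hbw0 : 0 < F.b v (w F x y v) := by
      have : 0 < (g F x y v : ℤ) * F.b v (w F x y v) := by rw [← hbw]; positivity
      exact (mul_pos_iff_of_pos_left hgz).mp this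
    have pw := hP v _ pv hqw0 hbw0
    obtain ⟨j, hj⟩ := rex _ pw
    refine ⟨_, j, rfl, ?_, rp j _ hwp, hj, ?_, ?_⟩
    · rw [rf]
      have h1 : lam ((m : ℤ) * F.q v) = lam ((g F x y v : ℤ) ^ 2 * F.q (w F x y v)) := by rw [hqw]
      rw [lam_mul hmz.ne' hqv0.ne', lam_mul (pow_pos hgz 2).ne' hqw0.ne', pow_two,
        lam_mul hgz.ne' hgz.ne', lam_sq, one_mul] at h1
      rw [← hm', hn] at h1
      simp only [Fm.f]
      rw [← h1]; ring
    · rw [rq]
      have h1 : (g F x y v : ℤ) ^ 2 ≤ (m : ℤ) ^ 2 := pow_le_pow_left₀ hgz.le hgle 2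
      have h2 : (m : ℤ) * F.q v ≤ (m : ℤ) ^ 2 * F.q (w F x y v) := by
        rw [hqw]; exact mul_le_mul_of_nonneg_right h1 hqw0.le
      have h3 : (m : ℤ) * ((m : ℤ) * X) < (m : ℤ) * F.q v := by
        apply mul_lt_mul_of_pos_left _ hmz
        push_cast at a1
        exact a1
      have h4 : (m : ℤ) ^ 2 * X < (m : ℤ) ^ 2 * F.q (w F x y v) := by
        calc (m : ℤ) ^ 2 * X = (m : ℤ) * ((m : ℤ) * X) := by ring
          _ < _ := lt_of_lt_of_le h3 h2
      exact lt_of_mul_lt_mul_left h4 (by positivity)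
    · rw [rq]
      have h1 : 1 ≤ (g F x y v : ℤ) ^ 2 := by
        have : (1 : ℤ) ≤ g F x y v := hgz
        nlinarith
      have h2 : F.q (w F x y v) ≤ (g F x y v : ℤ) ^ 2 * F.q (w F x y v) := by nlinarith
      rw [← hqw] at h2
      refine h2.trans ?_
      push_cast at a2 ⊢
      calc (m : ℤ) * F.q v ≤ m * (2 * (m * X)) := mul_le_mul_of_nonneg_left a2 hmz.le
        _ = 2 * (m : ℤ) ^ 2 * X := by ring
  choose! φ J hφ using key
  -- first part: the v with f v ≠ e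
  have hA : (Y.filter (fun v => F.f v ≠ e)).card ≤ G.card := by
    apply Finset.card_le_card
    intro v hv
    rw [Finset.mem_filter] at hv
    obtain ⟨hv1, hv2⟩ := hv
    rw [hG, Finset.mem_filter]
    refine ⟨?_, hv2⟩
    rw [hY, hann] at hv1
    rw [hann]
    obtain ⟨p, cv, a1, a2⟩ := hv1
    refine ⟨p, cv, ?_, ?_⟩
    · refine lt_of_le_of_lt ?_ a1
      exact_mod_cast Nat.le_mul_of_pos_left X hm0
    · refine a2.trans ?_
      have : 2 * (m * X) ≤ 2 * m ^ 2 * X := by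
        have : m ≤ m ^ 2 := by nlinarith
        nlinarith
      exact_mod_cast this
  -- second part: the v with f v = e
  have hB : (Y.filter (fun v => F.f v = e)).card ≤ m * G.card := by
    have h1 : (Y.filter (fun v => F.f v = e)).card ≤
        m * ((Y.filter (fun v => F.f v = e)).image φ).card := by
      refine Finset.card_le_mul_card_image _ _ ?_
      intro u _
      have h2 : ({z ∈ Y.filter (fun v => F.f v = e) | φ z = u}).card ≤
          (Finset.Icc 1 m).card := by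
        refine Finset.card_le_card_of_injOn (fun z => g F x y z) ?_ ?_
        · intro z hz
          simp only [Finset.coe_filter, Set.mem_ofPred_eq, Finset.mem_filter] at hz
          obtain ⟨⟨hz1, _⟩, _⟩ := hz
          rw [hY, hann] at hz1
          simp only [Finset.coe_Icc, Set.mem_Icc]
          refine ⟨g_pos x y hN hz1.1, ?_⟩
          have := g_le x y hN hz1.1
          rw [hm'] at this
          exact_mod_cast this
        · intro z hz z' hz' hzz
          simp only [Finset.coe_filter, Set.mem_ofPred_eq, Finset.mem_filter] at hz hz'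
          obtain ⟨⟨hz1, _⟩, hz2⟩ := hz
          obtain ⟨⟨hz1', _⟩, hz2'⟩ := hz'
          have k1 := (hφ z hz1).1
          have k2 := (hφ z' hz1').1
          rw [hY, hann] at hz1 hz1'
          exact w_inj x y hN μ run hz1.2.1 hz1'.2.1 (by rw [← k1, ← k2, hz2, hz2']) hzz
      simpa using h2
    refine h1.trans (Nat.mul_le_mul_left m (Finset.card_le_card ?_))
    intro u hu
    rw [Finset.mem_image] at hu
    obtain ⟨v, hv, rfl⟩ := hu
    rw [Finset.mem_filter] at hv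
    obtain ⟨_, k1, k2, k5, k3, k4⟩ := hφ v hv.1
    rw [hG, Finset.mem_filter, hann]
    refine ⟨⟨k2, k5, k3, k4⟩, ?_⟩
    rw [k1, hv.2]
    rcases he with h | h <;> rw [h] <;> norm_num
  have hsum : (Y.filter (fun v => F.f v ≠ e)).card + (Y.filter (fun v => F.f v = e)).card =
      Y.card := by
    rw [add_comm]
    exact Finset.card_filter_add_card_filter_not (s := Y) (fun v => F.f v = e)
  have hAr : ((Y.filter (fun v => F.f v ≠ e)).card : ℝ) ≤ G.card := by exact_mod_cast hA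
  have hBr : ((Y.filter (fun v => F.f v = e)).card : ℝ) ≤ m * G.card := by exact_mod_cast hB
  have hsr : ((Y.filter (fun v => F.f v ≠ e)).card : ℝ) + (Y.filter (fun v => F.f v = e)).card =
      Y.card := by exact_mod_cast hsum
  have hYl : c * ((m * X : ℕ) : ℝ) ≤ Y.card := hX
  push_cast at hYl
  have hG0 : (0 : ℝ) ≤ G.card := Nat.cast_nonneg _
  have h5 : c * (m * X) ≤ 2 * (m * (G.card : ℝ)) := by
    have : (G.card : ℝ) ≤ m * G.card := by nlinarith
    linarith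
  have h6 : (m : ℝ) * (c / 2 * X) ≤ m * G.card := by
    have e1 : (m : ℝ) * (c / 2 * X) = (c * (m * X)) / 2 := by ring
    rw [e1]; linarith
  exact le_of_mul_le_mul_left h6 hmr

/-- ALP -/
theorem specALP [MA.Sg] (hBAS : SpecBAS) (hRED : SpecRED) (hPRS : SpecPRS) : SpecALP := by
  intro F μ hF x y hN hn
  have ha : F.a < 0 := hF.2.1
  have hx : x ≠ 0 := by
    rintro rfl
    nlinarith [sq_nonneg y]
  rcases lt_or_gt_of_ne hx with h | h
  · have e : (-x) ^ 2 + F.a * y ^ 2 = x ^ 2 + F.a * y ^ 2 := by ring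
    exact ALP_pos hBAS hRED hPRS F μ hF (-x) y (by linarith) (by rw [e]; exact hN)
      (by rw [e]; exact hn)
  · exact ALP_pos hBAS hRED hPRS F μ hF x y h hN hn

end Pool.Agent.Lib.MP391708.SR
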