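import Pool.Agent.Lib.MP_391708_nt.SR.Spec
import Pool.Agent.Lib.MP_391708_nt.SG.BAS

/-!
# BAS for indefinite forms: identities, the cone, membership in the boxes, signs
-/

set_option autoImplicit false

namespace Pool.Agent.Lib.MP391708.SR

open Finset Filter Topology
open Pool.Agent.Lib.MP391708.Eqd (V cross)
open Pool.Agent.Lib.MP391708.SG (Fm lam prim)
open scoped Classical

noncomputable section

namespace BasM

variable {F : Fm}

/-- `v ↦ √a v` -/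
def J (F : Fm) (v : V) : V := (-F.B * v.1 - F.C * v.2, F.A * v.1 + F.B * v.2)

/-- `A v₁ + B v₂` -/
def l (F : Fm) (v : V) : ℤ := F.A * v.1 + F.B * v.2

lemma A_mul_b (v w : V) : F.A * F.b v w = l F v * l F w + F.a * (v.2 * w.2) := by
  simp only [Fm.b, Fm.a, l]; ring

lemma A_mul_q (v : V) : F.A * F.q v = l F v ^ 2 + F.a * v.2 ^ 2 := by
  simp only [Fm.q, Fm.a, l]; ring

lemma q_smul_fst (v w : V) : F.q v * w.1 = F.b v w * v.1 + cross v w * (J F v).1 := by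
  simp only [Fm.q, Fm.b, J, cross]; ring

lemma q_smul_snd (v w : V) : F.q v * w.2 = F.b v w * v.2 + cross v w * (J F v).2 := by
  simp only [Fm.q, Fm.b, J, cross]; ring

lemma b_pos (h : Idf F) {v w : V} (hv : Pos F v) (hw : Pos F w) : 0 < F.b v w := by
  obtain ⟨hA, ha, -⟩ := h
  obtain ⟨hv1, hv2⟩ := hv
  obtain ⟨hw1, hw2⟩ := hw
  have e1 := A_mul_q (F := F) v
  have e2 := A_mul_q (F := F) w
  have e3 := A_mul_b (F := F) v w
  have hv2' : 0 < l F v := hv2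
  have hw2' : 0 < l F w := hw2
  have p1 : 0 < F.A * F.q v := mul_pos hA hv1
  have p2 : 0 < F.A * F.q w := mul_pos hA hw1
  set D : ℤ := -F.a with hD
  have hD0 : 0 < D := by omega
  have h1 : D * v.2 ^ 2 < l F v ^ 2 := by
    have : F.a * v.2 ^ 2 = -(D * v.2 ^ 2) := by rw [hD]; ring
    linarith
  have h2 : D * w.2 ^ 2 < l F w ^ 2 := by
    have : F.a * w.2 ^ 2 = -(D * w.2 ^ 2) := by rw [hD]; ring
    linarith
  have h3 : (D * v.2 ^ 2) * (D * w.2 ^ 2) < l F v ^ 2 * l F w ^ 2 :=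
    mul_lt_mul'' h1 h2 (by positivity) (by positivity)
  have h4 : (D * (v.2 * w.2)) ^ 2 < (l F v * l F w) ^ 2 := by
    calc (D * (v.2 * w.2)) ^ 2 = (D * v.2 ^ 2) * (D * w.2 ^ 2) := by ring
      _ < l F v ^ 2 * l F w ^ 2 := h3
      _ = (l F v * l F w) ^ 2 := by ring
  have h5 : D * (v.2 * w.2) < l F v * l F w := by
    have := abs_lt_of_sq_lt_sq h4 (by positivity)
    exact (abs_lt.mp this).2
  have h6 : 0 < F.A * F.b v w := by
    rw [e3]
    have : F.a * (v.2 * w.2) = -(D * (v.2 * w.2)) := by rw [hD]; ring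
    linarith
  exact (mul_pos_iff_of_pos_left hA).mp h6

lemma pos_of_b (h : Idf F) {v w : V} (hv : Pos F v) (hw : 0 < F.q w) (hb : 0 < F.b v w) :
    Pos F w := by
  refine ⟨hw, ?_⟩
  by_contra hcon
  have e2 := A_mul_q (F := F) w
  have hl : l F w ≤ 0 := not_lt.mp hcon
  have hl0 : l F w ≠ 0 := by
    intro h0
    rw [h0] at e2
    have h1 : 0 < F.A * F.q w := mul_pos h.1 hw
    have h2 : F.a * w.2 ^ 2 ≤ 0 := mul_nonpos_of_nonpos_of_nonneg h.2.1.le (sq_nonneg _)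
    nlinarith
  have hneg : Pos F (-w) := by
    refine ⟨by rw [Fm.q_neg]; exact hw, ?_⟩
    have : F.A * (-w).1 + F.B * (-w).2 = -l F w := by
      simp only [l, Prod.fst_neg, Prod.snd_neg]; ring
    rw [this]
    omega
  have h1 := b_pos h hv hneg
  have h2 : F.b v (-w) = -F.b v w := by
    simp only [Fm.b, Prod.fst_neg, Prod.snd_neg]; ring
  omega

lemma q_e (μ : Au F) : F.q μ.e = F.A := by
  have h := μ.inv (1, 0) (1, 0)
  simp only [Au.e, Fm.q, Fm.b] at h ⊢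
  linarith

/-- the form in the basis `(1, 0)`, `e` -/
lemma r_sq_q (μ : Au F) (v : V) : μ.r ^ 2 * F.q v =
    F.A * (cross v μ.e ^ 2 + v.2 ^ 2) + 2 * cross v μ.e * v.2 * (F.A * μ.p + F.B * μ.r) := by
  have h := q_e μ
  simp only [Au.e, Fm.q, cross] at h ⊢
  linear_combination (v.2 ^ 2) * h

lemma r_l (μ : Au F) (v : V) :
    μ.r * l F v = F.A * cross v μ.e + v.2 * (F.A * μ.p + F.B * μ.r) := by
  simp only [Au.e, cross, l]; ring

lemma cone_le (μ : Au F) (h : Idf F) {v : V} (hv : Cn μ v) :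
    cross v μ.e ^ 2 + v.2 ^ 2 ≤ μ.r ^ 2 * F.q v := by
  have h1 := r_sq_q μ v
  have h2 : 0 ≤ 2 * cross v μ.e * v.2 * (F.A * μ.p + F.B * μ.r) :=
    mul_nonneg (mul_nonneg (by linarith [hv.2]) hv.1) μ.bpos.le
  have h3 : cross v μ.e ^ 2 + v.2 ^ 2 ≤ F.A * (cross v μ.e ^ 2 + v.2 ^ 2) := by
    have hA : 1 ≤ F.A := h.1
    have : 0 ≤ cross v μ.e ^ 2 + v.2 ^ 2 := by positivity
    nlinarith
  linarith

lemma cone_pos (μ : Au F) (h : Idf F) {v : V} (hv : Cn μ v) : Pos F v := by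
  have hc := hv.2
  have hr := μ.rpos
  constructor
  · have h1 := cone_le μ h hv
    have h2 : 0 < μ.r ^ 2 * F.q v := by
      have : 0 < cross v μ.e ^ 2 := by positivity
      have : 0 ≤ v.2 ^ 2 := by positivity
      linarith
    exact (mul_pos_iff_of_pos_left (by positivity)).mp h2
  · have h1 := r_l μ v
    have h2 : 0 < μ.r * l F v := by
      rw [h1]
      have h3 : 0 < F.A * cross v μ.e := mul_pos h.1 hc
      have h4 : 0 ≤ v.2 * (F.A * μ.p + F.B * μ.r) := mul_nonneg hv.1 μ.bpos.le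
      linarith
    exact (mul_pos_iff_of_pos_left hr).mp h2

/-- coordinates of the vectors of the cone -/
lemma cone_coord (μ : Au F) (h : Idf F) {v : V} (hv : Cn μ v) {t : ℤ} (ht : 0 ≤ t)
    (hq : F.q v ≤ t ^ 2) : |v.1| ≤ (1 + |μ.p| + |μ.r|) * t ∧ |v.2| ≤ (1 + |μ.p| + |μ.r|) * t := by
  have hr := μ.rpos
  have h1 := cone_le μ h hv
  have h2 : μ.r ^ 2 * F.q v ≤ (μ.r * t) ^ 2 := by
    rw [mul_pow]
    exact mul_le_mul_of_nonneg_left hq (by positivity)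
  have h3 : |cross v μ.e| ≤ μ.r * t := by
    refine abs_le_of_sq_le_sq ?_ (by positivity)
    have : 0 ≤ v.2 ^ 2 := by positivity
    linarith
  have h4 : |v.2| ≤ μ.r * t := by
    refine abs_le_of_sq_le_sq ?_ (by positivity)
    have : 0 ≤ cross v μ.e ^ 2 := by positivity
    linarith
  have h5 : μ.r * v.1 = cross v μ.e + v.2 * μ.p := by
    simp only [Au.e, cross]; ring
  have h6 : |μ.r * v.1| ≤ μ.r * ((1 + |μ.p|) * t) := by
    rw [h5]
    calc |cross v μ.e + v.2 * μ.p| ≤ |cross v μ.e| + |v.2 * μ.p| := abs_add_le _ _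
      _ = |cross v μ.e| + |v.2| * |μ.p| := by rw [abs_mul]
      _ ≤ μ.r * t + (μ.r * t) * |μ.p| := by
          have := mul_le_mul_of_nonneg_right h4 (abs_nonneg μ.p)
          linarith
      _ = μ.r * ((1 + |μ.p|) * t) := by ring
  rw [abs_mul, abs_of_pos hr] at h6
  have h7 : |v.1| ≤ (1 + |μ.p|) * t := le_of_mul_le_mul_left h6 hr
  have h8 : 0 ≤ |μ.p| * t := mul_nonneg (abs_nonneg _) ht
  have h9 : |μ.r| * t = μ.r * t := by rw [abs_of_pos hr]
  have h10 : 0 ≤ μ.r * t := by positivity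
  constructor
  · nlinarith
  · nlinarith

lemma le_bd (μ : Au F) (Z : ℕ) {m n : ℤ}
    (hm : |m| ≤ (1 + |F.A| + |F.B| + |F.C|) * ((1 + |μ.p| + |μ.r|) * (Z + 1)))
    (hn : |n| ≤ (1 + |F.A| + |F.B| + |F.C|) * ((1 + |μ.p| + |μ.r|) * (Z + 1))) :
    ((m, n) : V) ∈ bx μ Z := by
  rw [← mul_assoc] at hm hn
  simp only [bx, mem_product, mem_Icc]
  exact ⟨abs_le.mp hm, abs_le.mp hn⟩

lemma mem_bx_cone (μ : Au F) (h : Idf F) {v : V} (hv : Cn μ v) {Z : ℕ} (hq : F.q v ≤ Z) :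
    v ∈ bx μ Z := by
  have h0 : (0 : ℤ) ≤ Z := by positivity
  obtain ⟨h1, h2⟩ := cone_coord μ h hv (t := (Z : ℤ) + 1) (by positivity) (by nlinarith)
  have h3 : 1 ≤ 1 + |F.A| + |F.B| + |F.C| := by
    have := abs_nonneg F.A
    have := abs_nonneg F.B
    have := abs_nonneg F.C
    linarith
  have h4 : 0 ≤ (1 + |μ.p| + |μ.r|) * ((Z : ℤ) + 1) := by positivity
  refine le_bd μ Z (h1.trans ?_) (h2.trans ?_)
  · nlinarith
  · nlinarith

lemma mem_bx_snd (μ : Au F) (h : Idf F) {v w : V} (hv : Cn μ v) {Z : ℕ} (hq : F.q v ≤ Z)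
    (hc : cross v w = -1 ∨ cross v w = 1) (hb : 0 < F.b v w) (hbq : F.b v w < F.q v) :
    w ∈ bx μ Z := by
  have h0 : (0 : ℤ) ≤ Z := by positivity
  obtain ⟨h1, h2⟩ := cone_coord μ h hv (t := (Z : ℤ) + 1) (by positivity) (by nlinarith)
  have hq0 : 0 < F.q v := hb.trans hbq
  have hcc : |cross v w| = 1 := by rcases hc with h | h <;> rw [h] <;> norm_num
  set T : ℤ := (1 + |μ.p| + |μ.r|) * ((Z : ℤ) + 1) with hT
  have hT0 : 0 ≤ T := by positivity
  have a1 : 0 ≤ |F.A| := abs_nonneg F.A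
  have a2 : 0 ≤ |F.B| := abs_nonneg F.B
  have a3 : 0 ≤ |F.C| := abs_nonneg F.C
  have hJ1 : |(J F v).1| ≤ (|F.A| + |F.B| + |F.C|) * T := by
    calc |(J F v).1| = |-F.B * v.1 - F.C * v.2| := rfl
      _ ≤ |-F.B * v.1| + |F.C * v.2| := abs_sub _ _
      _ = |F.B| * |v.1| + |F.C| * |v.2| := by rw [abs_mul, abs_mul, abs_neg]
      _ ≤ |F.B| * T + |F.C| * T := add_le_add (mul_le_mul_of_nonneg_left h1 a2)
          (mul_le_mul_of_nonneg_left h2 a3)
      _ ≤ (|F.A| + |F.B| + |F.C|) * T := by nlinarith [mul_nonneg a1 hT0]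
  have hJ2 : |(J F v).2| ≤ (|F.A| + |F.B| + |F.C|) * T := by
    calc |(J F v).2| = |F.A * v.1 + F.B * v.2| := rfl
      _ ≤ |F.A * v.1| + |F.B * v.2| := abs_add_le _ _
      _ = |F.A| * |v.1| + |F.B| * |v.2| := by rw [abs_mul, abs_mul]
      _ ≤ |F.A| * T + |F.B| * T := add_le_add (mul_le_mul_of_nonneg_left h1 a1)
          (mul_le_mul_of_nonneg_left h2 a2)
      _ ≤ (|F.A| + |F.B| + |F.C|) * T := by nlinarith [mul_nonneg a3 hT0]
  have key : ∀ x vi Ji : ℤ, F.q v * x = F.b v w * vi + cross v w * Ji → |vi| ≤ T →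
      |Ji| ≤ (|F.A| + |F.B| + |F.C|) * T → |x| ≤ (1 + |F.A| + |F.B| + |F.C|) * T := by
    intro x vi Ji e hvi hJi
    have h3 : F.q v * |x| ≤ F.b v w * |vi| + |Ji| := by
      calc F.q v * |x| = |F.q v * x| := by rw [abs_mul, abs_of_pos hq0]
        _ = |F.b v w * vi + cross v w * Ji| := by rw [e]
        _ ≤ |F.b v w * vi| + |cross v w * Ji| := abs_add_le _ _
        _ = F.b v w * |vi| + |Ji| := by rw [abs_mul, abs_mul, hcc, one_mul, abs_of_pos hb]
    have h4 : F.b v w * |vi| ≤ F.q v * T := by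
      calc F.b v w * |vi| ≤ F.q v * |vi| := mul_le_mul_of_nonneg_right hbq.le (abs_nonneg _)
        _ ≤ F.q v * T := mul_le_mul_of_nonneg_left hvi hq0.le
    have h5 : |Ji| ≤ F.q v * ((|F.A| + |F.B| + |F.C|) * T) := by
      have h6 : 0 ≤ (|F.A| + |F.B| + |F.C|) * T := by positivity
      have h7 : (1 : ℤ) ≤ F.q v := hq0
      nlinarith
    have h8 : F.q v * |x| ≤ F.q v * ((1 + |F.A| + |F.B| + |F.C|) * T) := by
      calc F.q v * |x| ≤ F.q v * T + F.q v * ((|F.A| + |F.B| + |F.C|) * T) := by linarith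
        _ = F.q v * ((1 + |F.A| + |F.B| + |F.C|) * T) := by ring
    exact le_of_mul_le_mul_left h8 hq0
  exact le_bd μ Z (key w.1 v.1 _ (q_smul_fst v w) h1 hJ1) (key w.2 v.2 _ (q_smul_snd v w) h2 hJ2)

lemma q_ne_zero (h : Idf F) {v : V} (hv : v ≠ 0) : F.q v ≠ 0 := by
  intro h0
  have h1 := A_mul_q (F := F) v
  rw [h0, mul_zero] at h1
  have h2 : l F v ^ 2 = (-F.a) * v.2 ^ 2 := by linarith
  by_cases hv2 : v.2 = 0
  · rw [hv2] at h2
    have h3 : l F v = 0 := by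
      have : l F v ^ 2 = 0 := by rw [h2]; ring
      exact pow_eq_zero_iff two_ne_zero |>.mp this
    simp only [l, hv2, mul_zero, add_zero] at h3
    rcases mul_eq_zero.mp h3 with h4 | h4
    · exact absurd h4 h.1.ne'
    · exact hv (Prod.ext h4 hv2)
  · apply h.2.2
    have h3 : v.2 ∣ l F v := by
      have : v.2 ^ 2 ∣ l F v ^ 2 := ⟨-F.a, by rw [h2]; ring⟩
      exact (Int.pow_dvd_pow_iff two_ne_zero).mp this
    obtain ⟨c, hc⟩ := h3
    refine ⟨c, ?_⟩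
    have h4 : v.2 ^ 2 ≠ 0 := pow_ne_zero _ hv2
    apply mul_left_cancel₀ h4
    rw [hc] at h2
    linarith [h2, mul_comm (v.2 ^ 2) (-F.a), show v.2 ^ 2 * (c * c) = (v.2 * c) ^ 2 by ring]

end BasM

open BasM

variable [MA.Sg]

lemma BasM.f_mul {F : Fm} (h : Idf F) {v w : V} (hc : cross v w = 1 ∨ cross v w = -1) :
    F.f v * F.f w = lam (F.b v w ^ 2 + F.a) := by
  have h1 := F.q_mul v w
  have h2 : cross v w ^ 2 = 1 := by
    rcases hc with h | h <;> rw [h] <;> norm_num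
  rw [h2, mul_one] at h1
  have hv : v ≠ 0 := by
    rintro rfl
    simp [cross] at hc
  have hw : w ≠ 0 := by
    rintro rfl
    simp [cross] at hc
  unfold Fm.f
  rw [← SG.lam_mul (q_ne_zero h hv) (q_ne_zero h hw), h1]

theorem specBAS : SpecBAS := by
  intro F μ h
  refine ⟨F.q_mul, fun v hv => cone_pos μ h hv, fun v w hv hw => b_pos h hv hw,
    fun v w hv hw hb => pos_of_b h hv hw hb, ?_, ?_, ?_, ?_, Fm.f_eq_or, Fm.f_neg,
    fun v w hc => BasM.f_mul h hc⟩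
  · refine ⟨(3 + 2 * μ.p ^ 2) * μ.r ^ 2, ?_, fun v hv => ?_⟩
    · have := μ.rpos
      positivity
    · have hr := μ.rpos
      have h1 := cone_le μ h hv
      have h2 : (μ.r * v.1) ^ 2 = (cross v μ.e + v.2 * μ.p) ^ 2 := by
        simp only [Au.e, cross]; ring
      have h3 : (μ.r * v.1) ^ 2 ≤ 2 * (1 + μ.p ^ 2) * (cross v μ.e ^ 2 + v.2 ^ 2) := by
        rw [h2]
        nlinarith [sq_nonneg (cross v μ.e - v.2 * μ.p), sq_nonneg (cross v μ.e * μ.p),
          sq_nonneg v.2, sq_nonneg (cross v μ.e), sq_nonneg (v.2 * μ.p)]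
      have h4 : v.1 ^ 2 ≤ (μ.r * v.1) ^ 2 := by
        have : 1 ≤ μ.r ^ 2 := by nlinarith
        rw [mul_pow]
        nlinarith [sq_nonneg v.1]
      have h5 : 2 * (1 + μ.p ^ 2) * (cross v μ.e ^ 2 + v.2 ^ 2) ≤
          2 * (1 + μ.p ^ 2) * (μ.r ^ 2 * F.q v) :=
        mul_le_mul_of_nonneg_left h1 (by positivity)
      have h6 : 0 ≤ cross v μ.e ^ 2 := by positivity
      nlinarith
  · intro v X Z
    simp only [ann, mem_filter]
    constructor
    · rintro ⟨_, h1⟩; exact h1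
    · intro h1; exact ⟨mem_bx_cone μ h h1.2.1 h1.2.2.2, h1⟩
  · intro x N
    simp only [G1, mem_filter, mem_product]
    constructor
    · rintro ⟨_, h1⟩; exact h1
    · intro h1
      obtain ⟨hC, hc, hN, hN2, hbq, hq3⟩ := h1
      have hb : 0 < F.b x.1 x.2 := lt_of_le_of_lt (by positivity) hN
      have hq : F.q x.1 ≤ ((6 * N : ℕ) : ℤ) := by push_cast; linarith
      exact ⟨⟨mem_bx_cone μ h hC hq, mem_bx_snd μ h hC hq (Or.inl hc) hb hbq⟩,
        hC, hc, hN, hN2, hbq, hq3⟩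
  · intro x Y Z
    simp only [Eb, mem_filter, mem_product]
    constructor
    · rintro ⟨_, h1⟩; exact h1
    · intro h1
      obtain ⟨hC, hc, hY, hbq, hq3, hZ, hf⟩ := h1
      have hb : 0 < F.b x.1 x.2 := lt_of_le_of_lt (by positivity) hY
      exact ⟨⟨mem_bx_cone μ h hC hZ, mem_bx_snd μ h hC hZ hc hb hbq⟩, hC, hc, hY, hbq, hq3, hZ, hf⟩

end

end Pool.Agent.Lib.MP391708.SR
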