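import Pool.Agent.Lib.MP_391708_nt.SR.Spec
import Pool.Agent.Lib.MP_391708_nt.MAR.Spec

/-!
# Module BRI of group S for indefinite forms: from `MAR.Prin` to `PRIN μ`,
`F = g (x² + b x y + c y²)`, `μ` = multiplication by the unit `e₁ + e₂ ω`
-/

set_option autoImplicit false

namespace Pool.Agent.Lib.MP391708.SR

open Finset Filter Topology
open Pool.Agent.Lib.MP391708.Eqd (V cross)
open Pool.Agent.Lib.MP391708.SG (Fm lam prim)
open Pool.Agent.Lib.MP391708.MA (gs qn)
open Pool.Agent.Lib.MP391708.MAR (lr Sec)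
open scoped Classical

namespace BRI

/-- the roots -/
lemma roots {b c : ℤ} {s t : ℝ} (hts : t < s) (hs : s ^ 2 = (b : ℝ) * s - (c : ℝ))
    (ht : t ^ 2 = (b : ℝ) * t - (c : ℝ)) : s + t = b ∧ s * t = c := by
  have h1 : (s - t) * (s + t - b) = 0 := by linear_combination hs - ht
  have h2 : s + t = b := by
    rcases mul_eq_zero.1 h1 with h | h
    · linarith
    · linarith
  exact ⟨h2, by linear_combination s * h2 - hs⟩

/-- the norm is the product of the coordinates -/
lemma qn_eq {b c : ℤ} {s t : ℝ} (h1 : s + t = b) (h2 : s * t = c) (v : ℤ × ℤ) :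
    (qn b c v : ℝ) = ((v.1 : ℝ) + v.2 * s) * ((v.1 : ℝ) + v.2 * t) := by
  unfold qn
  push_cast
  rw [← h1, ← h2]
  ring

end BRI

open BRI

theorem specBRI [MA.Sg] (hB : SpecBAS) (b c g : ℤ) (e : ℤ × ℤ) (s t : ℝ) (k : ℕ)
    (hk : ¬ IsSquare k) (hg : 0 < g) (ha : g ^ 2 * (b ^ 2 - 4 * c) = 4 * (k : ℤ)) (hts : t < s)
    (hs : s ^ 2 = (b : ℝ) * s - (c : ℝ)) (ht : t ^ 2 = (b : ℝ) * t - (c : ℝ))
    (he : qn b c e = 1) (h1 : 1 < (e.1 : ℝ) + (e.2 : ℝ) * s)
    (h : MAR.Prin b c (((e.1 : ℝ) + (e.2 : ℝ) * s) / ((e.1 : ℝ) + (e.2 : ℝ) * t)) s t) :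
    ∃ (F : Fm) (μ : Au F), Idf F ∧ Amb F ∧ F.a = -(k : ℤ) ∧ PRIN μ := by
  obtain ⟨hst, hst'⟩ := roots hts hs ht
  have heven : (2 : ℤ) ∣ g * b := by
    have h1 : (2 : ℤ) ∣ (g * b) ^ 2 := ⟨2 * g ^ 2 * c + 2 * k, by linear_combination ha⟩
    exact Int.prime_two.dvd_of_dvd_pow h1
  obtain ⟨β, hβ⟩ := heven
  set F : Fm := ⟨g, β, g * c⟩ with hF
  have hFa : F.a = -(k : ℤ) := by
    have h1 : 4 * F.a = 4 * -(k : ℤ) := by
      have : 4 * -(k : ℤ) = -(g ^ 2 * (b ^ 2 - 4 * c)) := by rw [ha]; ring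
      rw [this]
      simp only [hF, Fm.a]
      linear_combination (g * b + 2 * β) * hβ
    linarith
  have hk0 : 0 < k := by
    rcases Nat.eq_zero_or_pos k with h0 | h0
    · exact absurd (h0 ▸ (⟨0, rfl⟩ : IsSquare 0)) hk
    · exact h0
  have hkZ : (0 : ℤ) < k := by exact_mod_cast hk0
  have hIdf : Idf F := by
    refine ⟨hg, by rw [hFa]; linarith, ?_⟩
    rw [hFa, neg_neg]
    rintro ⟨r, hr⟩
    apply hk
    refine ⟨r.natAbs, ?_⟩
    have h2 : ((k : ℤ)).natAbs = (r * r).natAbs := by rw [← hr]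
    rw [Int.natAbs_natCast, Int.natAbs_mul] at h2
    exact h2
  -- the unit
  have hgR : (0 : ℝ) < g := by exact_mod_cast hg
  have hprod : ((e.1 : ℝ) + e.2 * s) * ((e.1 : ℝ) + e.2 * t) = 1 := by
    rw [← qn_eq hst hst', he]; norm_num
  set E1 : ℝ := (e.1 : ℝ) + e.2 * s with hE1
  set E2 : ℝ := (e.1 : ℝ) + e.2 * t with hE2
  have hE10 : 0 < E1 := by linarith
  have hE20 : 0 < E2 := by
    by_contra hc
    push Not at hc
    nlinarith
  have hE21 : E2 < 1 := by
    by_contra hc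
    push Not at hc
    nlinarith
  have he2R : (0 : ℝ) < e.2 := by
    have h2 : 0 < (e.2 : ℝ) * (s - t) := by
      have : (e.2 : ℝ) * (s - t) = E1 - E2 := by rw [hE1, hE2]; ring
      rw [this]; linarith
    exact (pos_iff_pos_of_mul_pos h2).2 (by linarith)
  have he2 : 0 < e.2 := by exact_mod_cast he2R
  have he' : e.1 ^ 2 + b * e.1 * e.2 + c * e.2 ^ 2 = 1 := he
  let μ : Au F :=
    { p := e.1
      q := -c * e.2
      r := e.2
      s := e.1 + b * e.2
      det := by linear_combination he'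
      inv := by
        intro v w
        simp only [hF, Fm.b]
        linear_combination (-(e.1 * e.2 * v.1 * w.1 - c * e.2 ^ 2 * (v.1 * w.2 + v.2 * w.1) -
            c * e.2 * (e.1 + b * e.2) * v.2 * w.2)) * hβ +
          (g * v.1 * w.1 + β * (v.1 * w.2 + v.2 * w.1) + g * c * v.2 * w.2) * he'
      rpos := he2
      bpos := by
        have h2 : (0 : ℝ) < 2 * ((g : ℝ) * e.1 + β * e.2) := by
          have h3 : (2 : ℝ) * β = g * b := by exact_mod_cast hβ.symm
          have h4 : 2 * ((g : ℝ) * e.1 + β * e.2) = g * (E1 + E2) := by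
            rw [hE1, hE2]
            linear_combination (e.2 : ℝ) * h3 + g * (e.2 : ℝ) * (-hst)
          rw [h4]
          positivity
        have h3 : (0 : ℝ) < (g : ℝ) * e.1 + β * e.2 := by linarith
        show 0 < g * e.1 + β * e.2
        exact_mod_cast h3 }
  have hμe : μ.e = e := rfl
  have hFq : ∀ v : V, F.q v = g * qn b c v := by
    intro v
    simp only [hF, Fm.q, qn]
    linear_combination (-(v.1 * v.2)) * hβ
  obtain ⟨-, hPos, -, -, -, hann, -, -, -, -, -⟩ := hB F μ hIdf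
  -- the coordinates
  have hsq : Real.sqrt ((-F.a : ℤ) : ℝ) = g * (s - t) / 2 := by
    have h2 : ((-F.a : ℤ) : ℝ) = (g * (s - t) / 2) ^ 2 := by
      have h3 : (4 : ℝ) * ((-F.a : ℤ) : ℝ) = (g : ℝ) ^ 2 * ((b : ℝ) ^ 2 - 4 * c) := by
        rw [hFa]
        have h4 : ((g : ℝ) ^ 2 * ((b : ℝ) ^ 2 - 4 * c)) = 4 * (k : ℝ) := by exact_mod_cast ha
        rw [h4]
        push_cast
        ring
      rw [← hst, ← hst'] at h3
      linear_combination h3 / 4
    rw [h2, Real.sqrt_sq]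
    have : 0 < s - t := by linarith
    positivity
  have hβR : (2 : ℝ) * β = g * b := by exact_mod_cast hβ.symm
  have hx1 : ∀ v : V, x1 F v = g * ((v.1 : ℝ) + v.2 * s) := by
    intro v
    unfold x1
    rw [hsq]
    simp only [hF]
    push_cast
    linear_combination (v.2 : ℝ) / 2 * hβR - g * (v.2 : ℝ) / 2 * hst
  have hx2 : ∀ v : V, x2 F v = g * ((v.1 : ℝ) + v.2 * t) := by
    intro v
    unfold x2
    rw [hsq]
    simp only [hF]
    push_cast
    linear_combination (v.2 : ℝ) / 2 * hβR - g * (v.2 : ℝ) / 2 * hst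
  have hlr : ∀ v : V, lr (1, 1) (s, t) v = ((v.1 : ℝ) + v.2 * s, (v.1 : ℝ) + v.2 * t) := by
    intro v
    unfold lr
    simp
  have hR : x1 F μ.e / x2 F μ.e = E1 / E2 := by
    rw [hx1, hx2, hμe, mul_div_mul_left _ _ hgR.ne']
  have hdir : ∀ v : V, dir μ v =
      MAR.ph (E1 / E2) ((lr (1, 1) (s, t) v).1 / (lr (1, 1) (s, t) v).2) := by
    intro v
    unfold dir
    rw [hR, hx1, hx2, mul_div_mul_left _ _ hgR.ne', hlr]
  -- the cone
  have hCn : ∀ v : V, Cn μ v ↔ Sec (E1 / E2) (lr (1, 1) (s, t) v) := by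
    intro v
    have hst0 : 0 < s - t := by linarith
    have hcr : cross v μ.e = v.1 * e.2 - v.2 * e.1 := rfl
    have e1 : E1 * ((v.1 : ℝ) + v.2 * t) - ((v.1 : ℝ) + v.2 * s) * E2 =
        ((cross v μ.e : ℤ) : ℝ) * (s - t) := by
      rw [hcr, hE1, hE2]
      push_cast
      ring
    have e3 : (e.2 : ℝ) * ((v.1 : ℝ) + v.2 * t) = ((cross v μ.e : ℤ) : ℝ) + v.2 * E2 := by
      rw [hcr, hE2]
      push_cast
      ring
    unfold Cn Sec
    rw [hlr]
    simp only
    constructor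
    · rintro ⟨c1, c2⟩
      have c1' : (0 : ℝ) ≤ v.2 := by exact_mod_cast c1
      have c2' : (0 : ℝ) < ((cross v μ.e : ℤ) : ℝ) := by exact_mod_cast c2
      have d1 : 0 < (v.1 : ℝ) + v.2 * t := by
        have : 0 < (e.2 : ℝ) * ((v.1 : ℝ) + v.2 * t) := by
          rw [e3]
          have : 0 ≤ (v.2 : ℝ) * E2 := by positivity
          linarith
        exact (pos_iff_pos_of_mul_pos this).1 he2R
      refine ⟨d1, by nlinarith, ?_⟩
      rw [div_mul_eq_mul_div, lt_div_iff₀ hE20]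
      have : 0 < ((cross v μ.e : ℤ) : ℝ) * (s - t) := by positivity
      linarith
    · rintro ⟨d1, d2, d3⟩
      rw [div_mul_eq_mul_div, lt_div_iff₀ hE20] at d3
      have c1 : 0 ≤ (v.2 : ℝ) * (s - t) := by linarith
      have c2 : 0 < ((cross v μ.e : ℤ) : ℝ) * (s - t) := by linarith
      have c1' : (0 : ℝ) ≤ v.2 := nonneg_of_mul_nonneg_left c1 hst0
      have c2' : (0 : ℝ) < ((cross v μ.e : ℤ) : ℝ) := (pos_iff_pos_of_mul_pos c2).2 hst0
      exact ⟨by exact_mod_cast c1', by exact_mod_cast c2'⟩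
  refine ⟨F, μ, hIdf, ⟨b, ?_⟩, hFa, ?_⟩
  · show 2 * β = g * b
    exact hβ.symm
  · -- the signs
    have hlg : lam g * lam g = 1 := MA.gs_mul_self _
    have hqnpos : ∀ v : V, Cn μ v → 0 < qn b c v := by
      intro v hv
      have h2 := (hPos v hv).1
      rw [hFq] at h2
      exact (mul_pos_iff_of_pos_left hg).1 h2
    have hf : ∀ v : V, Cn μ v → (F.f v : ℂ) = (lam g : ℂ) *
        ((gs (qn b c v).natAbs : ℤ) : ℂ) := by
      intro v hv
      have h1 : F.f v = lam g * lam (qn b c v) := by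
        unfold Fm.f
        rw [hFq]
        unfold lam
        rw [Int.natAbs_mul, MA.gs_mul (Int.natAbs_ne_zero.2 hg.ne')
          (Int.natAbs_ne_zero.2 (hqnpos v hv).ne')]
      rw [h1]
      unfold lam
      push_cast
      ring
    have hnlg : ‖(lam g : ℂ)‖ = 1 := by
      have h1 : ‖(lam g : ℂ)‖ * ‖(lam g : ℂ)‖ = 1 := by
        rw [← norm_mul]
        have : (lam g : ℂ) * (lam g : ℂ) = 1 := by exact_mod_cast hlg
        rw [this, norm_one]
      nlinarith [norm_nonneg (lam g : ℂ)]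
    intro C ε hε
    rcases Nat.lt_or_ge 1 C with hC | hC
    · obtain ⟨H₀, hH₀⟩ := h C ε (by exact_mod_cast hC) hε
      refine ⟨⌈(g : ℝ) * H₀⌉₊, fun H hH hH1 => ?_⟩
      have hHR : (g : ℝ) * H₀ ≤ H := (Nat.le_ceil _).trans (by exact_mod_cast hH)
      have hHR1 : (0 : ℝ) < H := by exact_mod_cast hH1
      have h5 := hH₀ (H / g) (by rw [le_div_iff₀ hgR]; linarith)
      have htend : Tendsto (fun X : ℕ => (X : ℝ) / g) atTop atTop :=
        tendsto_natCast_atTop_atTop.atTop_div_const hgR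
      filter_upwards [htend.eventually h5] with X hX
      have h6 := hX (ann μ X (C * X)) ?_
      · have hfl : ⌊(X : ℝ) / g / (H / g)⌋₊ = X / H := by
          rw [div_div_div_cancel_right₀ hgR.ne']
          exact Nat.floor_div_eq_div X H
        rw [hfl] at h6
        have h7 : ∀ j : ℤ, ‖∑ v ∈ ann μ X (C * X), (F.f v : ℂ) * dir μ v ^ j‖ =
            ‖∑ p ∈ ann μ X (C * X), ((gs (qn b c p).natAbs : ℤ) : ℂ) *
              MAR.ph (E1 / E2) ((lr (1, 1) (s, t) p).1 / (lr (1, 1) (s, t) p).2) ^ j‖ := by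
          intro j
          have h8 : ∑ v ∈ ann μ X (C * X), (F.f v : ℂ) * dir μ v ^ j = (lam g : ℂ) *
              ∑ p ∈ ann μ X (C * X), ((gs (qn b c p).natAbs : ℤ) : ℂ) *
              MAR.ph (E1 / E2) ((lr (1, 1) (s, t) p).1 / (lr (1, 1) (s, t) p).2) ^ j := by
            rw [mul_sum]
            refine sum_congr rfl fun v hv => ?_
            rw [hann] at hv
            rw [hf v hv.2.1, hdir v]
            ring
          rw [h8, norm_mul, hnlg, one_mul]
        simp_rw [h7]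
        refine h6.trans ?_
        apply mul_le_mul_of_nonneg_left _ hε.le
        have hg1 : (1 : ℝ) ≤ g := by exact_mod_cast hg
        have hX0 : (0 : ℝ) ≤ X := Nat.cast_nonneg X
        exact pow_le_pow_left₀ (by positivity) (div_le_self hX0 hg1) 2
      · intro p
        rw [hann, hFq, hCn]
        unfold prim
        rw [Int.isCoprime_iff_gcd_eq_one, div_lt_iff₀ hgR, mul_div_assoc', le_div_iff₀ hgR]
        have e1 : ((X : ℤ) < g * qn b c p) ↔ ((X : ℝ) < (qn b c p : ℝ) * g) := by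
          rw [mul_comm (qn b c p : ℝ)]
          exact_mod_cast Iff.rfl
        have e2 : (g * qn b c p ≤ ((C * X : ℕ) : ℤ)) ↔ ((qn b c p : ℝ) * g ≤ (C : ℝ) * X) := by
          rw [mul_comm (qn b c p : ℝ)]
          exact_mod_cast Iff.rfl
        rw [e1, e2]
    · refine ⟨1, fun H _ _ => ?_⟩
      filter_upwards with X
      have hemp : ann μ X (C * X) = ∅ := by
        rw [eq_empty_iff_forall_notMem]
        intro v hv
        rw [hann] at hv
        have h1 : ((C * X : ℕ) : ℤ) ≤ X := by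
          have : C * X ≤ 1 * X := Nat.mul_le_mul_right _ hC
          exact_mod_cast (by simpa using this)
        omega
      rw [hemp]
      simp only [sum_empty, norm_zero]
      have : (0 : ℝ) ≤ ε * (X : ℝ) ^ 2 := by positivity
      simpa using this

end Pool.Agent.Lib.MP391708.SR
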