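import Pool.Agent.Lib.MP_391708_nt.SR.Spec
import Pool.Agent.Lib.MP_391708_nt.SG.Chain

/-!
# Close pairs, indefinite forms: module CHN
-/

set_option autoImplicit false

namespace Pool.Agent.Lib.MP391708.SR

open Finset Filter Topology
open Pool.Agent.Lib.MP391708.Eqd (V cross)
open Pool.Agent.Lib.MP391708.SG (Fm lam prim Tri cross_swap cross_self cross_sub_left
  cross_sub_right pl1 pl2 pl_cross det_v)
open scoped Classical

namespace CHNM

variable (F : Fm)

lemma q_mul (v w : V) : F.q v * F.q w = F.b v w ^ 2 + F.a * cross v w ^ 2 := by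
  simp only [Fm.q, Fm.b, Fm.a, cross]; ring

lemma b_comm (v w : V) : F.b v w = F.b w v := by simp only [Fm.b]; ring

lemma b_self (v : V) : F.b v v = F.q v := by simp only [Fm.b, Fm.q]; ring

lemma q_sub (v w : V) : F.q (v - w) = F.q v - 2 * F.b v w + F.q w := by
  simp only [Fm.q, Fm.b, Prod.fst_sub, Prod.snd_sub]; ring

lemma b_sub_left (u v w : V) : F.b (u - v) w = F.b u w - F.b v w := by
  simp only [Fm.b, Prod.fst_sub, Prod.snd_sub]; ring

lemma b_sub_right (u v w : V) : F.b w (u - v) = F.b w u - F.b w v := by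
  simp only [Fm.b, Prod.fst_sub, Prod.snd_sub]; ring

lemma pl_b (v v' u w : V) :
    cross v v' * F.b u w = cross u v' * F.b v w + cross v u * F.b v' w := by
  simp only [cross, Fm.b]; ring

lemma pl_q (v v' u : V) : cross v v' ^ 2 * F.q u = cross u v' ^ 2 * F.q v +
    2 * cross u v' * cross v u * F.b v v' + cross v u ^ 2 * F.q v' := by
  simp only [cross, Fm.b, Fm.q]; ring

lemma pl_lin (v v' u : V) : cross v v' * (F.A * u.1 + F.B * u.2) =
    cross u v' * (F.A * v.1 + F.B * v.2) + cross v u * (F.A * v'.1 + F.B * v'.2) := by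
  simp only [cross]; ring

variable {F}

/-- the descent -/
lemma descent (ha : F.a < 0)
    (hP : ∀ v w, Pos F v → 0 < F.q w → 0 < F.b v w → Pos F w) {X1 X2 : ℤ}
    (hX1 : -F.a < X1) (f : V → ℤ) :
    ∀ (n : ℕ) (v w : V), |cross v w| = 1 → 0 < F.b v w → Pos F v → Pos F w → X1 ≤ F.q w →
      F.q w ≤ F.q v → F.q v ≤ X2 → F.b v w ≤ n * F.q w → f v ≠ f w →
      ∃ j : ℕ, j ≤ n ∧ ∃ s t : V, (|cross s t| = 1 ∧ F.b s t < F.q s ∧ F.q s ≤ 3 * F.b s t ∧
        X1 ≤ F.q s ∧ F.q s ≤ X2 ∧ Pos F s) ∧ f s ≠ f t ∧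
        s = v - (j : ℤ) • w ∧ (t = w ∨ t = v - ((j + 1 : ℕ) : ℤ) • w) := by
  intro n
  induction n with
  | zero =>
    intro v w _ hB _ _ _ _ _ hn _
    simp only [Nat.cast_zero, zero_mul] at hn
    exact absurd hB (not_lt.mpr hn)
  | succ n ih =>
    intro v w hc hB pv pw hw hwv hv hn hf
    have hid := q_mul F v w
    have hc2 : cross v w ^ 2 = 1 := by rw [← sq_abs, hc]; norm_num
    rw [hc2, mul_one] at hid
    set q := F.q v with hq
    set r := F.q w with hr
    set b := F.b v w with hb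
    set a := F.a with haa
    have hr0 : 0 < r := by linarith
    have hbq : b < q := by
      by_contra hcon
      push Not at hcon
      rcases Int.lt_or_le r q with h | h
      · have h1 : q * r ≤ q * (q - 1) := mul_le_mul_of_nonneg_left (by omega) (by linarith)
        nlinarith
      · have h1 : r = q := le_antisymm hwv h
        rw [h1] at hid
        rcases Int.lt_or_le q b with h2 | h2
        · have h3 : q + 1 ≤ b := h2
          nlinarith
        · have h3 : b = q := le_antisymm h2 hcon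
          rw [h3] at hid
          nlinarith
    by_cases h3 : q ≤ 3 * b
    · refine ⟨0, Nat.zero_le _, v, w, ⟨hc, hbq, h3, hw.trans hwv, hv, pv⟩, hf, ?_, ?_⟩
      · simp
      · left; rfl
    · push Not at h3
      have hbr : r < b := by
        by_contra hcon
        push Not at hcon
        nlinarith
      set v' : V := v - w with hv'
      have hQv' : F.q v' = q - 2 * b + r := by rw [hv', q_sub]
      have hBv' : F.b v' w = b - r := by rw [hv', b_sub_left, b_self]
      have hBvv' : F.b v v' = q - b := by rw [hv', b_sub_right, b_self]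
      have hcv' : cross v' w = cross v w := by rw [hv', cross_sub_left, cross_self, sub_zero]
      have hcvv' : cross v v' = - cross v w := by rw [hv', cross_sub_right, cross_self, zero_sub]
      have pv' : Pos F v' := hP v v' pv (by rw [hQv']; linarith) (by rw [hBvv']; linarith)
      by_cases hff : f v = f v'
      · obtain ⟨j, hj, s, t, hcr, hst, hs, ht⟩ := ih v' w (by rw [hcv']; exact hc)
          (by rw [hBv']; linarith) pv' pw hw (by rw [hQv']; linarith) (by rw [hQv']; linarith)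
          (by rw [hBv']; push_cast at hn; linarith) (by rw [← hff]; exact hf)
        refine ⟨j + 1, by omega, s, t, hcr, hst, ?_, ?_⟩
        · rw [hs, hv']; push_cast; module
        · rcases ht with ht | ht
          · left; exact ht
          · right; rw [ht, hv']; push_cast; module
      · refine ⟨0, Nat.zero_le _, v, v', ⟨?_, ?_, ?_, hw.trans hwv, hv, pv⟩, hff, ?_, ?_⟩
        · rw [hcvv', abs_neg]; exact hc
        · rw [hBvv']; linarith
        · rw [hBvv']; linarith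
        · simp
        · right; rw [hv']; push_cast; module

lemma cone (f : V → ℤ) :
    ∀ (c : ℕ) (v v' : V), 0 < c → prim v → prim v' → cross v v' = c → 0 < F.b v v' → 0 < F.q v' →
      f v ≠ f v' → ∃ x y : V, cross x y = 1 ∧ f x ≠ f y ∧ Tri v v' x ∧ Tri v v' y := by
  intro c
  induction c using Nat.strong_induction_on with
  | _ c ih =>
    intro v v' hc0 hv hv' hc hB hQv' hf
    rcases Nat.eq_or_lt_of_le (Nat.one_le_iff_ne_zero.mpr hc0.ne') with h1 | h1
    · refine ⟨v, v', by rw [hc, ← h1]; rfl, hf, ⟨?_, ?_, ?_⟩, ⟨?_, ?_, ?_⟩⟩ <;>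
        simp [cross_self, hc]
    · -- c ≥ 2
      obtain ⟨a, b, hab⟩ := hv
      set u0 : V := (-b, a) with hu0
      have hcu0 : cross v u0 = 1 := by
        rw [hu0]; simp only [cross]; linarith
      set k : ℤ := - (cross u0 v' / (c : ℤ)) with hk
      set u : V := u0 + k • v with hu
      have hcu : cross v u = 1 := by
        rw [hu]; simp only [cross, Prod.fst_add, Prod.snd_add, Prod.smul_fst, Prod.smul_snd,
          smul_eq_mul] at hcu0 ⊢
        linarith
      have hcu' : cross u v' = cross u0 v' % (c : ℤ) := by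
        have e1 : cross u v' = cross u0 v' + k * cross v v' := by
          rw [hu]; simp only [cross, Prod.fst_add, Prod.snd_add, Prod.smul_fst, Prod.smul_snd,
            smul_eq_mul]
          ring
        rw [e1, hc, hk]
        have := Int.emod_add_mul_ediv (cross u0 v') (c : ℤ)
        linarith
      have hcpos : (0 : ℤ) < (c : ℤ) := by exact_mod_cast hc0
      have hα0 : 0 ≤ cross u v' := by rw [hcu']; exact Int.emod_nonneg _ hcpos.ne'
      have hαc : cross u v' < c := by rw [hcu']; exact Int.emod_lt_of_pos _ hcpos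
      have hp1 := pl1 v v' u
      have hp2 := pl2 v v' u
      rw [hc, hcu, one_mul] at hp1 hp2
      have hαne : cross u v' ≠ 0 := by
        intro h0
        rw [h0, zero_mul, zero_add] at hp1 hp2
        obtain ⟨a', b', hab'⟩ := hv'
        have : (c : ℤ) ∣ 1 := ⟨a' * u.1 + b' * u.2, by
          rw [← hab', ← hp1, ← hp2]; ring⟩
        have h2 := Int.le_of_dvd one_pos this
        have : (1 : ℤ) < c := by exact_mod_cast h1
        linarith
      have hα1 : 1 ≤ cross u v' := by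
        rcases lt_or_eq_of_le hα0 with h | h
        · exact h
        · exact absurd h.symm hαne
      obtain ⟨α, hα⟩ := Int.eq_ofNat_of_zero_le hα0
      have hPu : prim u := ⟨-v.2, v.1, by
        have := hcu; simp only [cross] at this; linarith⟩
      have hBu : 0 < F.b u v' := by
        have h := pl_b F v v' u v'
        rw [hc, hcu, b_self] at h
        have h3 : 0 < (c : ℤ) * F.b u v' := by
          rw [h]; nlinarith [mul_pos (lt_of_lt_of_le one_pos hα1) hB]
        exact (mul_pos_iff_of_pos_left hcpos).mp h3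
      by_cases hfu : f v = f u
      · obtain ⟨x, y, hxy, hfxy, hx, hy⟩ := ih α (by
            have : (α : ℤ) < c := lt_of_eq_of_lt hα.symm hαc
            exact_mod_cast this) u v' (by
            have : (0 : ℤ) < (α : ℤ) := lt_of_lt_of_eq (lt_of_lt_of_le one_pos hα1) hα
            exact_mod_cast this) hPu hv' hα hBu hQv' (by rw [← hfu]; exact hf)
        have key : ∀ z : V, Tri u v' z → Tri v v' z := by
          rintro z ⟨h1, h2, h3⟩
          have e1 := pl_cross u v' z v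
          rw [hcu, hc] at e1
          have hα' : 0 < cross u v' := by linarith
          have h5 : 0 ≤ cross v z := by
            by_contra hcon
            push Not at hcon
            have : cross u v' * cross v z < 0 := mul_neg_of_pos_of_neg hα' hcon
            nlinarith [mul_nonneg h1 hcpos.le]
          refine ⟨h5, h2, ?_⟩
          rw [hc]
          by_contra hcon
          push Not at hcon
          have h6 : cross u v' * c < cross u v' * (cross v z + cross z v') :=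
            mul_lt_mul_of_pos_left hcon hα'
          have h7 : cross u v' * (cross v z + cross z v') ≤ c * (cross u z + cross z v') := by
            rw [mul_add, e1]
            nlinarith [mul_nonneg h2 (by linarith : (0 : ℤ) ≤ c - 1 - cross u v')]
          have h8 : c * (cross u z + cross z v') ≤ c * cross u v' :=
            mul_le_mul_of_nonneg_left h3 hcpos.le
          linarith
        exact ⟨x, y, hxy, hfxy, key x hx, key y hy⟩
      · refine ⟨v, u, hcu, hfu, ⟨?_, ?_, ?_⟩, ⟨?_, ?_, ?_⟩⟩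
        · rw [cross_self]
        · rw [hc]; exact hcpos.le
        · rw [cross_self, hc]; simp
        · rw [hcu]; norm_num
        · exact hα0
        · rw [hcu, hc]; linarith

/-- the coefficients of a nonzero vector of the triangle -/
lemma tri_one {v v' x : V} (hc : 0 < cross v v') (hx : Tri v v' x) (hx0 : x ≠ 0) :
    1 ≤ cross x v' + cross v x := by
  obtain ⟨t1, t2, _⟩ := hx
  have hp1 := pl1 v v' x
  have hp2 := pl2 v v' x
  by_contra hcon
  push Not at hcon
  have e1 : cross x v' = 0 := by omega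
  have e2 : cross v x = 0 := by omega
  rw [e1, e2, zero_mul, zero_mul, add_zero] at hp1 hp2
  apply hx0
  ext
  · simpa using (mul_eq_zero.mp hp1).resolve_left hc.ne'
  · simpa using (mul_eq_zero.mp hp2).resolve_left hc.ne'

/-- sizes in the triangle -/
lemma tri_size {X L : ℤ} (hX : 0 < X) {v v' x : V}
    (hc : 0 < cross v v') (hB : 0 < F.b v v') (hbL : F.b v v' ≤ 2 * (L * X)) (h1 : X ≤ F.q v)
    (h2 : F.q v ≤ L * X) (h3 : X ≤ F.q v') (h4 : F.q v' ≤ L * X)
    (pv : Pos F v) (pv' : Pos F v') (hx : Tri v v' x) (hx0 : x ≠ 0) :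
    X ≤ cross v v' ^ 2 * F.q x ∧ F.q x ≤ 2 * L * X ∧ Pos F x := by
  have hs := tri_one hc hx hx0
  obtain ⟨c2, c1, c4⟩ := hx
  have hpq := pl_q F v v' x
  have hlin := pl_lin F v v' x
  have c5 : 1 ≤ cross x v' ^ 2 + cross v x ^ 2 := by
    rcases Int.lt_or_le 0 (cross x v') with h | h
    · nlinarith [sq_nonneg (cross v x)]
    · have h5 : 1 ≤ cross v x := by omega
      nlinarith [sq_nonneg (cross x v')]
  set p := cross x v'
  set r := cross v x
  set c := cross v v'
  set q := F.q v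
  set q' := F.q v'
  set b := F.b v v'
  have k1 : X ≤ c ^ 2 * F.q x := by
    rw [hpq]
    nlinarith [mul_nonneg (mul_nonneg c1 c2) hB.le, mul_nonneg (sq_nonneg p) (sub_nonneg.mpr h1),
      mul_nonneg (sq_nonneg r) (sub_nonneg.mpr h3), mul_nonneg (sub_nonneg.mpr c5) hX.le]
  have hqx : 0 < F.q x := by
    have : 0 < c ^ 2 * F.q x := lt_of_lt_of_le hX k1
    exact (mul_pos_iff_of_pos_left (by positivity)).mp this
  refine ⟨k1, ?_, hqx, ?_⟩
  · have h7 : c ^ 2 * F.q x ≤ c ^ 2 * (2 * L * X) := by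
      rw [hpq]
      have h8 : p ^ 2 * q + 2 * p * r * b + r ^ 2 * q' ≤ 2 * ((p + r) ^ 2 * (L * X)) := by
        have hL : 0 ≤ L * X := hX.le.trans (h1.trans h2)
        nlinarith [mul_nonneg (mul_nonneg c1 c2) (sub_nonneg.mpr hbL),
          mul_nonneg (sq_nonneg p) (sub_nonneg.mpr h2), mul_nonneg (sq_nonneg r)
          (sub_nonneg.mpr h4), mul_nonneg (sq_nonneg p) hL, mul_nonneg (sq_nonneg r) hL]
      have h9 : (p + r) ^ 2 ≤ c ^ 2 := by nlinarith
      have hL : 0 ≤ L * X := hX.le.trans (h1.trans h2)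
      nlinarith [mul_le_mul_of_nonneg_right h9 hL]
    exact le_of_mul_le_mul_left h7 (by positivity)
  · have k2 : 0 < c * (F.A * x.1 + F.B * x.2) := by
      rw [hlin]
      have g1 : 0 < F.A * v.1 + F.B * v.2 := pv.2
      have g2 : 0 < F.A * v'.1 + F.B * v'.2 := pv'.2
      rcases Int.lt_or_le 0 p with h | h
      · nlinarith [mul_pos h g1, mul_nonneg c2 g2.le]
      · have h5 : 0 < r := by omega
        nlinarith [mul_nonneg c1 g1.le, mul_pos h5 g2]
    exact (mul_pos_iff_of_pos_left hc).mp k2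

/-- one pair -/
lemma one_pair (ha : F.a < 0) (hP : ∀ v w, Pos F v → 0 < F.q w → 0 < F.b v w → Pos F w)
    (hPb : ∀ v w, Pos F v → Pos F w → 0 < F.b v w) (K L : ℕ) (hK : 0 < K) (hL : 0 < L)
    {X : ℤ} (hX0 : 0 < X) (hX : -F.a * (K : ℤ) ^ 2 < X) (f : V → ℤ) (v v' : V)
    (hv : prim v) (hv' : prim v') (pv : Pos F v) (pv' : Pos F v') (hc0 : 0 < cross v v')
    (hcK : cross v v' ≤ K) (h1 : X ≤ F.q v) (h2 : F.q v ≤ L * X) (h3 : X ≤ F.q v')
    (h4 : F.q v' ≤ L * X) (hf : f v ≠ f v') :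
    ∃ s t : V, (|cross s t| = 1 ∧ F.b s t < F.q s ∧ F.q s ≤ 3 * F.b s t ∧
        X ≤ (K : ℤ) ^ 2 * F.q s ∧ F.q s ≤ 2 * L * X ∧ Pos F s) ∧ f s ≠ f t ∧
      |cross v s| ≤ K * (2 * L * K ^ 2 + 3) ∧ |cross v t| ≤ K * (2 * L * K ^ 2 + 3) ∧
      |cross v' s| ≤ K * (2 * L * K ^ 2 + 3) ∧ |cross v' t| ≤ K * (2 * L * K ^ 2 + 3) := by
  obtain ⟨c, hc⟩ := Int.eq_ofNat_of_zero_le hc0.le
  have hKr : (0 : ℤ) < K := by exact_mod_cast hK
  have hLr : (0 : ℤ) < L := by exact_mod_cast hL
  have hB := hPb v v' pv pv'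
  have hbL : F.b v v' ≤ 2 * (L * X) := by
    have hid := q_mul F v v'
    have hLX : X ≤ L * X := by nlinarith
    by_contra hcon
    push Not at hcon
    have h5 : (2 * (L * X)) ^ 2 < F.b v v' ^ 2 := by nlinarith
    have h6 : F.q v * F.q v' ≤ (L * X) ^ 2 := by
      have := mul_le_mul h2 h4 (hX0.le.trans h3) (hX0.le.trans hLX)
      nlinarith
    have h7 : cross v v' ^ 2 ≤ (K : ℤ) ^ 2 := pow_le_pow_left₀ hc0.le hcK 2
    have h8 : -F.a * cross v v' ^ 2 ≤ -F.a * (K : ℤ) ^ 2 :=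
      mul_le_mul_of_nonneg_left h7 (by linarith)
    nlinarith
  obtain ⟨x, y, hxy, hfxy, hx, hy⟩ := cone (F := F) f c v v'
    (by have : (0 : ℤ) < (c : ℤ) := lt_of_lt_of_eq hc0 hc
        exact_mod_cast this) hv hv' hc hB (hX0.trans_le h3) hf
  have hx0 : x ≠ 0 := by rintro rfl; simp [cross] at hxy
  have hy0 : y ≠ 0 := by rintro rfl; simp [cross] at hxy
  obtain ⟨sx1, sx2, px⟩ := tri_size hX0 hc0 hB hbL h1 h2 h3 h4 pv pv' hx hx0
  obtain ⟨sy1, sy2, py⟩ := tri_size hX0 hc0 hB hbL h1 h2 h3 h4 pv pv' hy hy0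
  have hc2 : cross v v' ^ 2 ≤ (K : ℤ) ^ 2 := pow_le_pow_left₀ hc0.le hcK 2
  have tx1 : X ≤ (K : ℤ) ^ 2 * F.q x := sx1.trans (mul_le_mul_of_nonneg_right hc2 px.1.le)
  have ty1 : X ≤ (K : ℤ) ^ 2 * F.q y := sy1.trans (mul_le_mul_of_nonneg_right hc2 py.1.le)
  have big : ∀ z : V, X ≤ (K : ℤ) ^ 2 * F.q z → -F.a < F.q z := by
    intro z hz
    have h5 : (K : ℤ) ^ 2 * (-F.a) < (K : ℤ) ^ 2 * F.q z := by linarith
    exact lt_of_mul_lt_mul_left h5 (by positivity)
  -- the bilinear bound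
  have hbb : ∀ u w : V, |cross u w| = 1 → X ≤ (K : ℤ) ^ 2 * F.q w → F.q u ≤ 2 * L * X →
      F.b u w ≤ ((2 * L * K ^ 2 + 1 : ℕ) : ℤ) * F.q w := by
    intro u w huw hw hu
    have hwb := big w hw
    have hw0 : 0 < F.q w := by linarith
    have hid := q_mul F u w
    have hc2 : cross u w ^ 2 = 1 := by rw [← sq_abs, huw]; norm_num
    rw [hc2, mul_one] at hid
    have h6 : F.q u ≤ (2 * L * (K : ℤ) ^ 2) * F.q w := by nlinarith
    have h7 : F.q u * F.q w ≤ (2 * L * (K : ℤ) ^ 2) * F.q w ^ 2 := by nlinarith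
    have h8 : -F.a ≤ F.q w ^ 2 := by nlinarith
    have h9 : F.b u w ^ 2 ≤ (2 * L * (K : ℤ) ^ 2 + 1) * F.q w ^ 2 := by linarith
    have h10 : (2 * L * (K : ℤ) ^ 2 + 1) * F.q w ^ 2 ≤ ((2 * L * (K : ℤ) ^ 2 + 1) * F.q w) ^ 2 := by
      rw [mul_pow]
      apply mul_le_mul_of_nonneg_right _ (sq_nonneg _)
      have : (0 : ℤ) ≤ 2 * L * (K : ℤ) ^ 2 := by positivity
      nlinarith
    push_cast
    exact le_of_sq_le_sq (h9.trans h10) (by positivity)
  -- cross products
  have cx : ∀ z : V, Tri v v' z → |cross v z| ≤ K ∧ |cross v' z| ≤ K := by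
    rintro z ⟨g1, g2, g3⟩
    rw [abs_of_nonneg g1, cross_swap v' z, abs_neg, abs_of_nonneg g2]
    constructor <;> linarith
  have hM : (0 : ℤ) ≤ 2 * L * (K : ℤ) ^ 2 := by positivity
  have fin : ∀ u w : V, |cross u w| = 1 → Pos F u → Pos F w → X ≤ (K : ℤ) ^ 2 * F.q w →
      F.q w ≤ F.q u → F.q u ≤ 2 * L * X → f u ≠ f w → |cross v u| ≤ K ∧ |cross v' u| ≤ K →
      |cross v w| ≤ K ∧ |cross v' w| ≤ K → ∃ s t : V, (|cross s t| = 1 ∧ F.b s t < F.q s ∧
        F.q s ≤ 3 * F.b s t ∧ X ≤ (K : ℤ) ^ 2 * F.q s ∧ F.q s ≤ 2 * L * X ∧ Pos F s) ∧ f s ≠ f t ∧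
      |cross v s| ≤ K * (2 * L * K ^ 2 + 3) ∧ |cross v t| ≤ K * (2 * L * K ^ 2 + 3) ∧
      |cross v' s| ≤ K * (2 * L * K ^ 2 + 3) ∧ |cross v' t| ≤ K * (2 * L * K ^ 2 + 3) := by
    intro u w g1 pu pw g3 g4 g5 g6 g7 g8
    obtain ⟨j, hj, s, t, hcr, hst, hs, ht⟩ := descent ha hP (big w g3) f (2 * L * K ^ 2 + 1) u w g1
      (hPb u w pu pw) pu pw le_rfl g4 g5 (hbb u w g1 g3 g5) g6
    have bd : ∀ (z : V) (i : ℕ), i ≤ 2 * L * K ^ 2 + 2 → |cross z u| ≤ K → |cross z w| ≤ K →
        |cross z (u - (i : ℤ) • w)| ≤ K * (2 * L * K ^ 2 + 3) := by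
      intro z i hi k1 k2
      have e1 : cross z (u - (i : ℤ) • w) = cross z u - i * cross z w := by
        simp only [cross, Prod.fst_sub, Prod.snd_sub, Prod.smul_fst, Prod.smul_snd, smul_eq_mul]
        ring
      rw [e1]
      have hi' : (i : ℤ) ≤ 2 * L * K ^ 2 + 2 := by exact_mod_cast hi
      have hi0 : (0 : ℤ) ≤ i := Int.natCast_nonneg _
      calc |cross z u - i * cross z w| ≤ |cross z u| + |(i : ℤ) * cross z w| := abs_sub _ _
        _ = |cross z u| + i * |cross z w| := by rw [abs_mul, abs_of_nonneg hi0]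
        _ ≤ K + (2 * L * K ^ 2 + 2) * K :=
            add_le_add k1 (mul_le_mul hi' k2 (abs_nonneg _) (by positivity))
        _ = K * (2 * L * K ^ 2 + 3) := by ring
    have bw : ∀ z : V, |cross z w| ≤ K → |cross z w| ≤ K * (2 * L * K ^ 2 + 3) := by
      intro z hz
      refine hz.trans ?_
      nlinarith
    refine ⟨s, t, ⟨hcr.1, hcr.2.1, hcr.2.2.1, ?_, hcr.2.2.2.2.1, hcr.2.2.2.2.2⟩, hst,
      ?_, ?_, ?_, ?_⟩
    · exact g3.trans (mul_le_mul_of_nonneg_left hcr.2.2.2.1 (by positivity))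
    · rw [hs]; exact bd v j (by omega) g7.1 g8.1
    · rcases ht with ht | ht
      · rw [ht]; exact bw v g8.1
      · rw [ht]; exact bd v (j + 1) (by omega) g7.1 g8.1
    · rw [hs]; exact bd v' j (by omega) g7.2 g8.2
    · rcases ht with ht | ht
      · rw [ht]; exact bw v' g8.2
      · rw [ht]; exact bd v' (j + 1) (by omega) g7.2 g8.2
  rcases le_total (F.q y) (F.q x) with hle | hle
  · exact fin x y (by rw [hxy]; norm_num) px py ty1 hle sx2 hfxy (cx x hx) (cx y hy)
  · exact fin y x (by rw [cross_swap, hxy]; norm_num) py px tx1 hle sy2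
      (Ne.symm hfxy) (cx y hy) (cx x hx)

/-- parallel primitive vectors -/
lemma cross_ne {v v' : V} (hv : prim v) (hv' : prim v') (pv : Pos F v) (pv' : Pos F v')
    (hne : v ≠ v') : cross v v' ≠ 0 := by
  intro hc
  obtain ⟨a, b, hab⟩ := hv
  obtain ⟨a', b', hab'⟩ := hv'
  have h0 : v.1 * v'.2 = v.2 * v'.1 := by simp only [cross] at hc; linarith
  set m : ℤ := a * v'.1 + b * v'.2 with hm
  set n : ℤ := a' * v.1 + b' * v.2 with hn
  have e1 : v'.1 = m * v.1 := by
    rw [hm]; linear_combination (-v'.1) * hab - b * h0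
  have e2 : v'.2 = m * v.2 := by
    rw [hm]; linear_combination (-v'.2) * hab + a * h0
  have e3 : m * n = 1 := by
    have : n * m = a' * v'.1 + b' * v'.2 := by rw [e1, e2, hn]; ring
    rw [mul_comm, this, hab']
  have h5 : 0 < m * (F.A * v.1 + F.B * v.2) := by
    have h6 := pv'.2
    rw [e1, e2] at h6
    linarith
  have h6 : 0 < m := (mul_pos_iff_of_pos_right pv.2).mp h5
  have h7 : m = 1 := by
    rcases Int.isUnit_iff.mp (IsUnit.of_mul_eq_one n e3) with h | h
    · exact h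
    · omega
  apply hne
  ext
  · rw [e1, h7, one_mul]
  · rw [e2, h7, one_mul]

end CHNM

open CHNM

/-- CHN -/
theorem specCHN [MA.Sg] (hBAS : SpecBAS) (hRED : SpecRED) : SpecCHN := by
  intro F μ hF C K hC hK
  obtain ⟨_, hCP, hPb, hP, _, hann, _, hEb, _⟩ := hBAS F μ hF
  obtain ⟨rc, rb, rq, rf, rp, rP, rex, run⟩ := hRED F μ hF
  have ha : F.a < 0 := hF.2.1
  set P : ℤ := K * (2 * C * K ^ 2 + 3) with hPdef
  refine ⟨4 * K ^ 2 + 2 * C, ((Icc (-P) P ×ˢ Icc (-P) P) ×ˢ (Icc (-P) P ×ˢ Icc (-P) P)).card,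
    by positivity, ?_⟩
  filter_upwards [eventually_ge_atTop (F.a.natAbs * K ^ 2 + 1)] with X hXK
  have hX1 : -F.a * (K : ℤ) ^ 2 < X := by
    have : ((F.a.natAbs * K ^ 2 + 1 : ℕ) : ℤ) ≤ X := by exact_mod_cast hXK
    push_cast at this
    rw [abs_of_neg ha] at this
    linarith
  have hX0 : (0 : ℤ) < X := by
    have : 0 < X := by omega
    exact_mod_cast this
  have hKz : (0 : ℤ) < K := by exact_mod_cast hK
  set S := (ann μ X (C * X) ×ˢ ann μ X (C * X)).filter (fun x =>
      nb μ K x.1 x.2 ∧ F.f x.1 ≠ F.f x.2) with hS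
  have key : ∀ x ∈ S, ∃ y z : V × V, y ∈ Eb μ (X / (4 * K ^ 2 + 2 * C)) ((4 * K ^ 2 + 2 * C) * X) ∧
      Cn μ x.1 ∧ Cn μ x.2 ∧ (∃ j : ℤ, z.1 = (μ.E ^ j) x.1) ∧ (∃ j : ℤ, z.2 = (μ.E ^ j) x.2) ∧
      |cross z.1 y.1| ≤ P ∧ |cross z.1 y.2| ≤ P ∧ |cross z.2 y.1| ≤ P ∧ |cross z.2 y.2| ≤ P := by
    intro x hx
    rw [hS, Finset.mem_filter, Finset.mem_product, hann, hann] at hx
    obtain ⟨⟨⟨p1, c1, a1, a2⟩, ⟨p2, c2, a3, a4⟩⟩, hnb, hf⟩ := hx
    have pv := hCP _ c1
    -- the vector `w`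
    obtain ⟨i, hi⟩ : ∃ i : ℤ, |cross x.1 ((μ.E ^ i) x.2)| ≤ K := by
      rcases hnb with h | h | h
      · exact ⟨0, by simpa using h⟩
      · exact ⟨1, by rw [zpow_one]; exact h⟩
      · exact ⟨-1, by rw [zpow_neg_one]; exact h⟩
    set w := (μ.E ^ i) x.2 with hw
    have qw : F.q w = F.q x.2 := rq i x.2
    have fw : F.f w = F.f x.2 := rf i x.2
    have pw : Pos F w := rP i x.2 (hCP _ c2)
    have prw : prim w := rp i x.2 p2
    have hfw : F.f x.1 ≠ F.f w := by rw [fw]; exact hf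
    have hne : x.1 ≠ w := fun h => hfw (by rw [← h])
    have hc := cross_ne p1 prw pv pw hne
    push_cast at a2 a4
    -- the edge
    obtain ⟨s, t, ⟨k1, k2, k3, k4, k5, k6⟩, hst, r1, r2, r3, r4⟩ : ∃ s t : V, (|cross s t| = 1 ∧
        F.b s t < F.q s ∧ F.q s ≤ 3 * F.b s t ∧
        (X : ℤ) ≤ (K : ℤ) ^ 2 * F.q s ∧ F.q s ≤ 2 * C * X ∧ Pos F s) ∧ F.f s ≠ F.f t ∧
        |cross x.1 s| ≤ P ∧ |cross x.1 t| ≤ P ∧ |cross w s| ≤ P ∧ |cross w t| ≤ P := by
      rcases lt_or_gt_of_ne hc with h | h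
      · rw [abs_of_neg h, ← cross_swap] at hi
        rw [cross_swap] at h
        obtain ⟨s, t, hcr, hst, r1, r2, r3, r4⟩ := one_pair ha hP hPb K C hK hC hX0 hX1 F.f w x.1
          prw p1 pw pv (by linarith) hi (by rw [qw]; exact a3.le) (by rw [qw]; exact a4) a1.le a2
          (Ne.symm hfw)
        exact ⟨s, t, hcr, hst, r3, r4, r1, r2⟩
      · rw [abs_of_pos h] at hi
        obtain ⟨s, t, hcr, hst, r1, r2, r3, r4⟩ := one_pair ha hP hPb K C hK hC hX0 hX1 F.f x.1 w
          p1 prw pv pw h hi a1.le a2 (by rw [qw]; exact a3.le) (by rw [qw]; exact a4) hfw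
        exact ⟨s, t, hcr, hst, r1, r2, r3, r4⟩
    obtain ⟨j, hj⟩ := rex s k6
    refine ⟨((μ.E ^ j) s, (μ.E ^ j) t), ((μ.E ^ j) x.1, (μ.E ^ j) w), ?_, c1, c2, ⟨j, rfl⟩,
      ⟨j + i, ?_⟩, ?_, ?_, ?_, ?_⟩
    · rw [hEb]
      simp only [rc, rb, rq, rf]
      refine ⟨hj, ?_, ?_, k2, k3, ?_, hst⟩
      · rcases (abs_eq (by norm_num : (0 : ℤ) ≤ 1)).mp k1 with h | h
        · right; exact h
        · left; exact h
      · have h5 : (((X / (4 * K ^ 2 + 2 * C) : ℕ) : ℤ)) * (4 * (K : ℤ) ^ 2) ≤ X := by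
          have h6 : X / (4 * K ^ 2 + 2 * C) * (4 * K ^ 2) ≤ X := by
            refine (Nat.mul_le_mul_left _ (Nat.le_add_right _ (2 * C))).trans ?_
            exact Nat.div_mul_le_self _ _
          exact_mod_cast h6
        by_contra hcon
        push Not at hcon
        have h7 : F.b s t * (4 * (K : ℤ) ^ 2) ≤ X :=
          (mul_le_mul_of_nonneg_right hcon (by positivity)).trans h5
        have h8 : 0 < F.b s t := by linarith [k6.1]
        have h9 : 0 < F.b s t * (K : ℤ) ^ 2 := by positivity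
        nlinarith
      · push_cast
        nlinarith [mul_nonneg (sq_nonneg (K : ℤ)) hX0.le]
    · rw [zpow_add]; rfl
    · simp only [rc]; exact r1
    · simp only [rc]; exact r2
    · simp only [rc]; exact r3
    · simp only [rc]; exact r4
  choose! φ ψ hφ using key
  have hmain : S.card ≤ (S.image φ).card *
      ((Icc (-P) P ×ˢ Icc (-P) P) ×ˢ (Icc (-P) P ×ˢ Icc (-P) P)).card := by
    rw [mul_comm]
    refine Finset.card_le_mul_card_image S _ ?_
    intro y hy
    refine Finset.card_le_card_of_injOn (fun x => ((cross (ψ x).1 y.1, cross (ψ x).1 y.2),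
      (cross (ψ x).2 y.1, cross (ψ x).2 y.2))) ?_ ?_
    · intro x hx
      simp only [Finset.coe_filter, Set.mem_ofPred_eq] at hx
      obtain ⟨hxS, hxy⟩ := hx
      obtain ⟨_, _, _, _, _, g1, g2, g3, g4⟩ := hφ x hxS
      rw [hxy] at g1 g2 g3 g4
      simp only [Finset.coe_product, Finset.coe_Icc, Set.mem_prod, Set.mem_Icc]
      exact ⟨⟨abs_le.mp g1, abs_le.mp g2⟩, ⟨abs_le.mp g3, abs_le.mp g4⟩⟩
    · intro x hx x' hx' hxx
      simp only [Finset.coe_filter, Set.mem_ofPred_eq] at hx hx'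
      obtain ⟨hxS, hxy⟩ := hx
      obtain ⟨hxS', hxy'⟩ := hx'
      obtain ⟨hE, c1, c2, ⟨i1, hi1⟩, ⟨i2, hi2⟩, _⟩ := hφ x hxS
      obtain ⟨_, c1', c2', ⟨i1', hi1'⟩, ⟨i2', hi2'⟩, _⟩ := hφ x' hxS'
      rw [hxy, hEb] at hE
      simp only [Prod.mk.injEq] at hxx
      obtain ⟨⟨a1, a2⟩, ⟨a3, a4⟩⟩ := hxx
      have hun : |cross y.1 y.2| = 1 := by
        rcases hE.2.1 with h | h <;> rw [h] <;> norm_num
      have e1 : (ψ x).1 = (ψ x').1 := det_v hun a1 a2
      have e2 : (ψ x).2 = (ψ x').2 := det_v hun a3 a4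
      have fin : ∀ (v v' : V) (i i' : ℤ), Cn μ v → Cn μ v' → (μ.E ^ i) v = (μ.E ^ i') v' →
          v = v' := by
        intro v v' i i' cv cv' h
        have h1 : (μ.E ^ (i' - i)) v' = v := by
          have h2 : (μ.E ^ (-i)) ((μ.E ^ i') v') = v := by
            rw [← h, ← Equiv.Perm.mul_apply, ← zpow_add]; simp
          rw [← h2, ← Equiv.Perm.mul_apply, ← zpow_add]
          congr 2
          ring
        have h3 : i' - i = 0 := run v' (i' - i) 0 (by rw [h1]; exact cv) (by simpa using cv')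
        rw [h3] at h1
        simpa using h1.symm
      exact Prod.ext (fin x.1 x'.1 i1 i1' c1 c1' (by rw [← hi1, ← hi1', e1]))
        (fin x.2 x'.2 i2 i2' c2 c2' (by rw [← hi2, ← hi2', e2]))
  refine hmain.trans ?_
  rw [mul_comm]
  refine Nat.mul_le_mul_left _ (Finset.card_le_card ?_)
  intro y hy
  obtain ⟨x, hx, rfl⟩ := Finset.mem_image.mp hy
  exact (hφ x hx).1

end Pool.Agent.Lib.MP391708.SR
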