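import Pool.Agent.Lib.MP_391708_nt.SR.SM

/-!
# DYA: dyadic decomposition and the improper automorphism (indefinite forms)
-/

set_option autoImplicit false

namespace Pool.Agent.Lib.MP391708.SR

open Finset Filter Topology
open Pool.Agent.Lib.MP391708.Eqd (V cross)
open Pool.Agent.Lib.MP391708.SG (Fm lam prim)
open scoped Classical

theorem specDYA [MA.Sg] (hBAS : SpecBAS) (hRED : SpecRED) : SpecDYA := by
  intro F μ hF hA hE
  obtain ⟨C, ε, hC, hε, hev⟩ := hE
  obtain ⟨D, hDC⟩ : ∃ D : ℕ, D = C := ⟨C, rfl⟩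
  have hD : 0 < D := by rw [hDC]; exact hC
  replace hev : ∀ᶠ X : ℕ in atTop, ε * X ≤ ((Eb μ (X / D) (C * X)).card : ℝ) := by
    rw [hDC]; exact hev
  obtain ⟨-, hCP, -, -, -, -, hG, hEb, hf, -, hfl⟩ := hBAS F μ hF
  obtain ⟨hEc, hEbb, hEq, -, -, -, hex', huq⟩ := hRED F μ hF
  obtain ⟨t, ht⟩ := hA
  have ht' : F.A * t = 2 * F.B := ht.symm
  have hA0 : F.A ≠ 0 := hF.1.ne'
  choose! Jc hJc using hex'
  have hE0 : ∀ v : V, (μ.E ^ (0 : ℤ)) v = v := fun v => by rw [zpow_zero]; rfl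
  have huq' : ∀ (v v' : V) (i j : ℤ), Cn μ v → Cn μ v' → (μ.E ^ i) v = (μ.E ^ j) v' →
      i = j ∧ v = v' := by
    intro v v' i j hv hv' h
    have h1 : v = (μ.E ^ (-i + j)) v' := by
      rw [zpow_add, Equiv.Perm.mul_apply, ← h, ← Equiv.Perm.mul_apply, ← zpow_add,
        neg_add_cancel, zpow_zero]
      rfl
    have h2 : -i + j = 0 := huq v' (-i + j) 0 (by rw [← h1]; exact hv) (by rw [hE0]; exact hv')
    refine ⟨by omega, ?_⟩
    rw [h1, h2, hE0]
  obtain ⟨J, hJ⟩ : ∃ J : ℕ, 2 * C * D ≤ 2 ^ J := ⟨2 * C * D, Nat.lt_two_pow_self.le⟩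
  have hJ0 : 0 < J := by
    rcases Nat.eq_zero_or_pos J with h | h
    · rw [h] at hJ
      have : 0 < C * D := Nat.mul_pos hC hD
      have : 2 * C * D = 2 * (C * D) := by ring
      omega
    · exact h
  refine ⟨4 * C * D, ε / (4 * C * J), by positivity, by positivity, ?_⟩
  -- `X = N / C`
  obtain ⟨X₀, hX₀⟩ := eventually_atTop.1 hev
  refine eventually_atTop.2 ⟨C * (X₀ + 2 * D + 2), fun N hN => ?_⟩
  set X := N / C with hX
  have hXC : C * X ≤ N := by rw [hX]; exact Nat.mul_div_le N C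
  have hXC' : N < C * (X + 1) := by
    rw [hX]
    have := Nat.lt_mul_div_succ N hC
    exact this
  have hXlb : X₀ + 2 * D + 2 ≤ X := by
    rw [hX, Nat.le_div_iff_mul_le hC]
    rw [mul_comm]; exact hN
  have hX2 : N ≤ 2 * C * X := by nlinarith
  have hcard := hX₀ X (by omega)
  -- `Y = X / D`
  set Y := X / D with hY
  have hYD : X ≤ 2 * D * Y := by
    have h1 := Nat.lt_mul_div_succ X hD
    rw [← hY] at h1
    have h2 : D * (Y + 1) = D * Y + D := by ring
    have h3 : 2 * D * Y = D * Y + D * Y := by ring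
    have h4 : D ≤ D * Y := by
      by_contra h
      push Not at h
      omega
    omega
  have hYle : Y ≤ X := Nat.div_le_self _ _
  -- pigeonhole
  set E := Eb μ Y (C * X) with hEdef
  set P : ℕ → Finset (V × V) := fun j =>
    E.filter (fun x => ((2 ^ j * Y : ℕ) : ℤ) < F.b x.1 x.2 ∧
      F.b x.1 x.2 ≤ 2 * ((2 ^ j * Y : ℕ) : ℤ)) with hP
  have hcov : E ⊆ (range J).biUnion P := by
    intro x hx
    have hx' := (hEb x Y (C * X)).1 hx
    obtain ⟨-, -, h1, h2, -, h4, -⟩ := hx'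
    have hbpos : 0 ≤ F.b x.1 x.2 := le_trans (by positivity) h1.le
    obtain ⟨m, hm⟩ := Int.eq_ofNat_of_zero_le hbpos
    have hm1 : Y < m := by rw [hm] at h1; exact_mod_cast h1
    have hm2 : m < C * X := by
      have : (m : ℤ) < (C * X : ℕ) := by rw [← hm]; exact lt_of_lt_of_le h2 h4
      exact_mod_cast this
    have hYJ : C * X ≤ 2 ^ J * Y := by
      calc C * X ≤ C * (2 * D * Y) := Nat.mul_le_mul_left _ hYD
        _ = 2 * C * D * Y := by ring
        _ ≤ 2 ^ J * Y := Nat.mul_le_mul_right _ hJ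
    -- least `j` with `m ≤ 2 ^ (j+1) Y`
    have hex : ∃ j, m ≤ 2 ^ j * Y := ⟨J, by omega⟩
    set k := Nat.find hex with hk
    have hk1 : m ≤ 2 ^ k * Y := Nat.find_spec hex
    have hk0 : k ≠ 0 := by
      intro h
      rw [h] at hk1
      simp at hk1
      omega
    have hkJ : k ≤ J := Nat.find_min' hex (by omega)
    obtain ⟨j, hj⟩ := Nat.exists_eq_succ_of_ne_zero hk0
    have hj1 : 2 ^ j * Y < m := by
      have := Nat.find_min hex (m := j) (by rw [← hk]; omega)
      omega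
    rw [mem_biUnion]
    refine ⟨j, mem_range.2 (by omega), ?_⟩
    rw [hP]
    simp only [mem_filter]
    refine ⟨hx, ?_, ?_⟩
    · rw [hm]; exact_mod_cast hj1
    · rw [hm]
      rw [hj] at hk1
      have : m ≤ 2 * (2 ^ j * Y) := by
        calc m ≤ 2 ^ j.succ * Y := hk1
          _ = 2 * (2 ^ j * Y) := by rw [pow_succ]; ring
      exact_mod_cast this
  have hXpos : (0 : ℝ) < X := by
    have : 0 < X := by omega
    exact_mod_cast this
  have hex : ∃ j ∈ range J, ε * X / J ≤ ((P j).card : ℝ) := by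
    by_contra hcon
    push Not at hcon
    have h1 : (E.card : ℝ) ≤ ∑ j ∈ range J, ((P j).card : ℝ) := by
      have := (card_le_card hcov).trans card_biUnion_le
      exact_mod_cast this
    have h2 : ∑ j ∈ range J, ((P j).card : ℝ) < ∑ j ∈ range J, ε * X / J :=
      Finset.sum_lt_sum_of_nonempty ⟨0, mem_range.2 hJ0⟩ hcon
    have h3 : ∑ j ∈ range J, ε * X / J = ε * X := by
      rw [sum_const, card_range, nsmul_eq_mul]
      have : (J : ℝ) ≠ 0 := by exact_mod_cast hJ0.ne'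
      field_simp
    linarith
  obtain ⟨j, -, hj⟩ := hex
  set N' := 2 ^ j * Y with hN'
  have hJR : (0 : ℝ) < J := by exact_mod_cast hJ0
  have hCR : (0 : ℝ) < C := by exact_mod_cast hC
  have hpos : (0 : ℝ) < ((P j).card : ℝ) := lt_of_lt_of_le (by positivity) hj
  have hne : (P j).Nonempty := by
    rw [← card_pos]
    exact_mod_cast hpos
  have hN'N : N' ≤ N := by
    obtain ⟨x, hx⟩ := hne
    rw [hP] at hx
    simp only [mem_filter] at hx
    obtain ⟨hx, h1, -⟩ := hx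
    obtain ⟨-, -, -, h2, -, h4, -⟩ := (hEb x Y (C * X)).1 hx
    have : ((2 ^ j * Y : ℕ) : ℤ) < (C * X : ℕ) := lt_of_lt_of_le (h1.trans h2) h4
    have : 2 ^ j * Y < C * X := by exact_mod_cast this
    omega
  have hYN' : Y ≤ N' := by
    rw [hN']
    exact Nat.le_mul_of_pos_left _ (by positivity)
  refine ⟨N', ?_, hN'N, ?_⟩
  · calc N ≤ 2 * C * X := hX2
      _ ≤ 2 * C * (2 * D * Y) := Nat.mul_le_mul_left _ hYD
      _ = 4 * C * D * Y := by ring
      _ ≤ 4 * C * D * N' := Nat.mul_le_mul_left _ hYN'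
  -- the two orientations
  set G := (G1 μ N').filter (fun x => lam (F.b x.1 x.2 ^ 2 + F.a) = -1) with hGdef
  have hsign : ∀ x : V × V, (cross x.1 x.2 = -1 ∨ cross x.1 x.2 = 1) → F.f x.1 ≠ F.f x.2 →
      lam (F.b x.1 x.2 ^ 2 + F.a) = -1 := by
    intro x hx hne
    rw [← hfl x.1 x.2 hx.symm]
    rcases hf x.1 with h1 | h1 <;> rcases hf x.2 with h2 | h2
    · exact absurd (h1.trans h2.symm) hne
    · rw [h1, h2]; norm_num
    · rw [h1, h2]; norm_num
    · exact absurd (h1.trans h2.symm) hne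
  have hA1 : ((P j).filter (fun x => cross x.1 x.2 = -1)).card ≤ G.card := by
    apply card_le_card
    intro x hx
    rw [mem_filter] at hx
    obtain ⟨hx, hc⟩ := hx
    rw [hP] at hx
    simp only [mem_filter] at hx
    obtain ⟨hx, h1, h2⟩ := hx
    obtain ⟨g0, g1, -, g3, g4, -, g6⟩ := (hEb x Y (C * X)).1 hx
    rw [hGdef, mem_filter]
    exact ⟨(hG x N').2 ⟨g0, hc, h1, h2, g3, g4⟩, hsign x g1 g6⟩
  have hA2 : ((P j).filter (fun x => ¬ cross x.1 x.2 = -1)).card ≤ G.card := by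
    have hPE : ∀ x ∈ (P j).filter (fun x => ¬ cross x.1 x.2 = -1), x ∈ E ∧
        ((2 ^ j * Y : ℕ) : ℤ) < F.b x.1 x.2 ∧ F.b x.1 x.2 ≤ 2 * ((2 ^ j * Y : ℕ) : ℤ) ∧
        ¬ cross x.1 x.2 = -1 := by
      intro x hx
      rw [mem_filter] at hx
      obtain ⟨hx, hc⟩ := hx
      rw [hP] at hx
      simp only [mem_filter] at hx
      exact ⟨hx.1, hx.2.1, hx.2.2, hc⟩
    apply card_le_card_of_injOn (fun x => ((μ.E ^ Jc (sg t x.1)) (sg t x.1),
      (μ.E ^ Jc (sg t x.1)) (sg t x.2)))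
    · intro x hx
      obtain ⟨hx, h1, h2, hc⟩ := hPE x (mem_coe.1 hx)
      obtain ⟨g0, g1, -, g3, g4, -, g6⟩ := (hEb x Y (C * X)).1 hx
      have hc1 : cross x.1 x.2 = 1 := by tauto
      have c1 := hJc _ (pos_sg ht' (hCP _ g0))
      rw [mem_coe, hGdef, mem_filter]
      simp only
      generalize Jc (sg t x.1) = i at c1 ⊢
      have e1 : F.b ((μ.E ^ i) (sg t x.1)) ((μ.E ^ i) (sg t x.2)) = F.b x.1 x.2 := by
        rw [hEbb, b_sg ht']
      have e2 : F.q ((μ.E ^ i) (sg t x.1)) = F.q x.1 := by rw [hEq, q_sg ht']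
      have e3 : cross ((μ.E ^ i) (sg t x.1)) ((μ.E ^ i) (sg t x.2)) = -1 := by
        rw [hEc, cross_sg, hc1]
      refine ⟨(hG _ N').2 ?_, ?_⟩
      · simp only
        rw [e1, e2]
        exact ⟨c1, e3, h1, h2, g3, g4⟩
      · rw [e1]
        exact hsign x g1 g6
    · intro x hx y hy hxy
      obtain ⟨hx, -⟩ := hPE x (mem_coe.1 hx)
      obtain ⟨hy, -⟩ := hPE y (mem_coe.1 hy)
      have hcx := ((hEb x Y (C * X)).1 hx).1
      have hcy := ((hEb y Y (C * X)).1 hy).1
      simp only [Prod.mk.injEq] at hxy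
      obtain ⟨e1, e2⟩ := hxy
      generalize Jc (sg t x.1) = i at e1 e2
      generalize Jc (sg t y.1) = k at e1 e2
      have e3 : (μ.E ^ (-i)) x.1 = (μ.E ^ (-k)) y.1 := by
        apply sg_inj t
        rw [μ.sg_E hA0 ht', μ.sg_E hA0 ht', neg_neg, neg_neg]
        exact e1
      obtain ⟨e4, e5⟩ := huq' _ _ (-i) (-k) hcx hcy e3
      have e6 : i = k := by omega
      subst e6
      exact Prod.ext e5 (sg_inj t ((μ.E ^ i).injective e2))
  have hsplit : (P j).card = ((P j).filter (fun x => cross x.1 x.2 = -1)).card +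
      ((P j).filter (fun x => ¬ cross x.1 x.2 = -1)).card :=
    (card_filter_add_card_filter_not _).symm
  have hPG : ((P j).card : ℝ) ≤ 2 * (G.card : ℝ) := by
    have : (P j).card ≤ 2 * G.card := by omega
    exact_mod_cast this
  have hN'X : (N' : ℝ) ≤ 2 * C * X := by
    have : N' ≤ 2 * C * X := hN'N.trans hX2
    exact_mod_cast this
  calc ε / (4 * C * J) * N' ≤ ε / (4 * C * J) * (2 * C * X) :=
        mul_le_mul_of_nonneg_left hN'X (by positivity)
    _ = ε * X / J / 2 := by field_simp; ring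
    _ ≤ (G.card : ℝ) := by linarith

end Pool.Agent.Lib.MP391708.SR
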