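import Pool.Agent.Lib.MP_391708_nt.SR.Spec
import Pool.Agent.Lib.MP_391708_nt.SG.FEJ

/-!
# Group S for indefinite forms, FEJ: the Fejér kernel
-/

set_option autoImplicit false

namespace Pool.Agent.Lib.MP391708.SR

open Finset Filter Topology
open Pool.Agent.Lib.MP391708.Eqd (V cross)
open Pool.Agent.Lib.MP391708.SG (Fm lam prim)
open scoped Classical ComplexConjugate

noncomputable section

namespace FejM

open Pool.Agent.Lib.MP391708.SG.FejM (conj_inv)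

variable {α : Type*}

/-- the kernel -/
def ker (u : α → ℂ) (J : ℕ) (v w : α) : ℝ :=
  ‖∑ l ∈ range J, (u v * conj (u w)) ^ l‖ ^ 2

lemma ker_nonneg (u : α → ℂ) (J : ℕ) (v w : α) : 0 ≤ ker u J v w := by
  unfold ker; positivity

def Su (A : Finset α) (f : α → ℝ) (u : α → ℂ) (k : ℤ) : ℂ := ∑ v ∈ A, (f v : ℂ) * u v ^ k

lemma ker_eq {u : α → ℂ} (J : ℕ) {v w : α} (hv : ‖u v‖ = 1) (hw : ‖u w‖ = 1) :
    ((ker u J v w : ℝ) : ℂ) = ∑ l ∈ range J, ∑ l' ∈ range J,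
      u v ^ ((l : ℤ) - l') * conj (u w ^ ((l : ℤ) - l')) := by
  have hv0 : u v ≠ 0 := fun h => by rw [h, norm_zero] at hv; exact zero_ne_one hv
  have hw0 : u w ≠ 0 := fun h => by rw [h, norm_zero] at hw; exact zero_ne_one hw
  unfold ker
  rw [← Complex.normSq_eq_norm_sq, Complex.normSq_eq_conj_mul_self, mul_comm, map_sum, sum_mul_sum]
  refine sum_congr rfl fun l _ => sum_congr rfl fun l' _ => ?_
  have hcw := conj_inv hw
  have hcv := conj_inv hv
  simp only [map_pow, map_mul, map_zpow₀, Complex.conj_conj]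
  simp only [hcw, hcv]
  rw [zpow_sub₀ hv0, zpow_sub₀ (inv_ne_zero hw0)]
  simp only [zpow_natCast]
  simp only [mul_pow, inv_pow, div_eq_mul_inv, inv_inv]
  ring

lemma sum_ker (A : Finset α) (f : α → ℝ) (u : α → ℂ) (hu : ∀ v ∈ A, ‖u v‖ = 1) (J : ℕ) :
    ∑ v ∈ A, ∑ w ∈ A, f v * f w * ker u J v w =
      ∑ l ∈ range J, ∑ l' ∈ range J, ‖Su A f u ((l : ℤ) - l')‖ ^ 2 := by
  have h1 : ((∑ v ∈ A, ∑ w ∈ A, f v * f w * ker u J v w : ℝ) : ℂ) =
      ∑ v ∈ A, ∑ w ∈ A, ∑ l ∈ range J, ∑ l' ∈ range J,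
        ((f v : ℂ) * u v ^ ((l : ℤ) - l')) * (f w * conj (u w ^ ((l : ℤ) - l'))) := by
    push_cast
    refine sum_congr rfl fun v hv => sum_congr rfl fun w hw => ?_
    rw [ker_eq J (hu v hv) (hu w hw), mul_sum]
    refine sum_congr rfl fun l _ => ?_
    rw [mul_sum]
    refine sum_congr rfl fun l' _ => ?_
    ring
  have h2 : ((∑ l ∈ range J, ∑ l' ∈ range J, ‖Su A f u ((l : ℤ) - l')‖ ^ 2 : ℝ) : ℂ) =
      ∑ l ∈ range J, ∑ l' ∈ range J, ∑ v ∈ A, ∑ w ∈ A,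
        ((f v : ℂ) * u v ^ ((l : ℤ) - l')) * (f w * conj (u w ^ ((l : ℤ) - l'))) := by
    push_cast
    refine sum_congr rfl fun l _ => sum_congr rfl fun l' _ => ?_
    rw [← Complex.ofReal_pow, ← Complex.normSq_eq_norm_sq, Complex.normSq_eq_conj_mul_self, mul_comm]
    unfold Su
    rw [map_sum, sum_mul_sum]
    refine sum_congr rfl fun v _ => sum_congr rfl fun w _ => ?_
    rw [map_mul, Complex.conj_ofReal]
  have h3 : ((∑ v ∈ A, ∑ w ∈ A, f v * f w * ker u J v w : ℝ) : ℂ) =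
      ((∑ l ∈ range J, ∑ l' ∈ range J, ‖Su A f u ((l : ℤ) - l')‖ ^ 2 : ℝ) : ℂ) := by
    rw [h1, h2]
    calc _ = ∑ v ∈ A, ∑ l ∈ range J, ∑ w ∈ A, ∑ l' ∈ range J,
          ((f v : ℂ) * u v ^ ((l : ℤ) - l')) * (f w * conj (u w ^ ((l : ℤ) - l'))) :=
          sum_congr rfl fun v _ => sum_comm
      _ = ∑ l ∈ range J, ∑ v ∈ A, ∑ w ∈ A, ∑ l' ∈ range J,
          ((f v : ℂ) * u v ^ ((l : ℤ) - l')) * (f w * conj (u w ^ ((l : ℤ) - l'))) := sum_comm
      _ = ∑ l ∈ range J, ∑ v ∈ A, ∑ l' ∈ range J, ∑ w ∈ A,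
          ((f v : ℂ) * u v ^ ((l : ℤ) - l')) * (f w * conj (u w ^ ((l : ℤ) - l'))) :=
          sum_congr rfl fun l _ => sum_congr rfl fun v _ => sum_comm
      _ = _ := sum_congr rfl fun l _ => sum_comm
  exact_mod_cast h3

lemma dbl_le (g : ℤ → ℝ) (hg : ∀ k, 0 ≤ g k) (J M : ℕ) (h : J ≤ M) :
    ∑ l ∈ range J, ∑ l' ∈ range J, g ((l : ℤ) - l') ≤
      J * (g 0 + ∑ k ∈ (Icc (-(M : ℤ)) M).filter (fun k => k ≠ 0), g k) := by
  have h1 : ∀ l ∈ range J, ∑ l' ∈ range J, g ((l : ℤ) - l') ≤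
      g 0 + ∑ k ∈ (Icc (-(M : ℤ)) M).filter (fun k => k ≠ 0), g k := by
    intro l hl
    rw [mem_range] at hl
    have hinj : Set.InjOn (fun l' : ℕ => (l : ℤ) - l') (range J) := by
      intro x _ y _ hxy
      simp only at hxy
      omega
    rw [← sum_image (f := g) (g := fun l' : ℕ => (l : ℤ) - l') hinj]
    have hsub : (range J).image (fun l' : ℕ => (l : ℤ) - l') ⊆ Icc (-(M : ℤ)) M := by
      intro k hk
      rw [mem_image] at hk
      obtain ⟨l', hl', rfl⟩ := hk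
      rw [mem_range] at hl'
      rw [mem_Icc]
      constructor <;> omega
    refine (sum_le_sum_of_subset_of_nonneg hsub (fun k _ _ => hg k)).trans (le_of_eq ?_)
    have h0 : (0 : ℤ) ∈ Icc (-(M : ℤ)) M := by rw [mem_Icc]; constructor <;> omega
    rw [← add_sum_erase _ _ h0]
    congr 1
    refine sum_congr ?_ fun _ _ => rfl
    ext k
    simp only [mem_erase, mem_filter]
    tauto
  refine (sum_le_sum h1).trans (le_of_eq ?_)
  rw [sum_const, card_range, nsmul_eq_mul]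

lemma le_dbl (g : ℤ → ℝ) (hg : ∀ k, 0 ≤ g k) (J : ℕ) :
    J * g 0 ≤ ∑ l ∈ range J, ∑ l' ∈ range J, g ((l : ℤ) - l') := by
  have h1 : ∀ l ∈ range J, g 0 ≤ ∑ l' ∈ range J, g ((l : ℤ) - l') := by
    intro l hl
    have := single_le_sum (f := fun l' : ℕ => g ((l : ℤ) - l')) (fun l' _ => hg _) hl
    simpa using this
  refine (le_of_eq ?_).trans (sum_le_sum h1)
  rw [sum_const, card_range, nsmul_eq_mul]

lemma ker_le {u : α → ℂ} (J : ℕ) {v w : α} (hv : ‖u v‖ = 1) (hw : ‖u w‖ = 1) :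
    ker u J v w ≤ (J : ℝ) ^ 2 := by
  unfold ker
  have h1 : ‖∑ l ∈ range J, (u v * conj (u w)) ^ l‖ ≤ J := by
    refine (norm_sum_le _ _).trans (le_of_eq ?_)
    simp [hv, hw]
  exact pow_le_pow_left₀ (norm_nonneg _) h1 2

lemma ker_sub {u : α → ℂ} (J : ℕ) {v w : α} (hv : ‖u v‖ = 1) (hw : ‖u w‖ = 1) :
    ker u J v w * ‖u v * conj (u w) - 1‖ ^ 2 ≤ 4 := by
  set ρ : ℂ := u v * conj (u w) with hρ
  have hρ1 : ‖ρ‖ = 1 := by rw [hρ, norm_mul, RCLike.norm_conj, hv, hw, one_mul]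
  have h1 : (∑ l ∈ range J, ρ ^ l) * (ρ - 1) = ρ ^ J - 1 := geom_sum_mul _ _
  have h4 : ‖ρ ^ J - 1‖ ≤ 2 := by
    refine (norm_sub_le _ _).trans ?_
    rw [norm_pow, hρ1]
    norm_num
  have h5 : ‖∑ l ∈ range J, ρ ^ l‖ * ‖ρ - 1‖ ≤ 2 := by
    have := congrArg (fun z : ℂ => ‖z‖) h1
    simp only [norm_mul] at this
    rw [this]
    exact h4
  unfold ker
  rw [← hρ]
  calc ‖∑ l ∈ range J, ρ ^ l‖ ^ 2 * ‖ρ - 1‖ ^ 2 =
      (‖∑ l ∈ range J, ρ ^ l‖ * ‖ρ - 1‖) ^ 2 := by rw [mul_pow]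
    _ ≤ 2 ^ 2 := pow_le_pow_left₀ (by positivity) h5 2
    _ = 4 := by norm_num

/-- the phase -/
def ep (θ : ℝ) : ℂ := Complex.exp (Complex.I * ((2 * Real.pi * θ : ℝ) : ℂ))

lemma norm_ep (θ : ℝ) : ‖ep θ‖ = 1 := by
  unfold ep
  rw [mul_comm]
  exact Complex.norm_exp_ofReal_mul_I _

lemma ep_sub (θ θ' : ℝ) : ep θ * conj (ep θ') = ep (θ - θ') := by
  unfold ep
  rw [← Complex.exp_conj, ← Complex.exp_add]
  congr 1
  rw [map_mul, Complex.conj_I, Complex.conj_ofReal]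
  push_cast
  ring

lemma ep_add_one (θ : ℝ) : ep (θ + 1) = ep θ := by
  unfold ep
  have : Complex.I * ((2 * Real.pi * (θ + 1) : ℝ) : ℂ) =
      Complex.I * ((2 * Real.pi * θ : ℝ) : ℂ) + 2 * Real.pi * Complex.I := by
    push_cast; ring
  rw [this, Complex.exp_add, Complex.exp_two_pi_mul_I, mul_one]

lemma ep_sub_one (θ : ℝ) : ep (θ - 1) = ep θ := by
  have := ep_add_one (θ - 1)
  rwa [sub_add_cancel, eq_comm] at this

lemma le_norm_ep {θ : ℝ} (h : |θ| ≤ 1 / 2) : 4 * |θ| ≤ ‖ep θ - 1‖ := by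
  unfold ep
  rw [Complex.norm_exp_I_mul_ofReal_sub_one, Real.norm_eq_abs, abs_mul, abs_two]
  have h1 : 2 * Real.pi * θ / 2 = Real.pi * θ := by ring
  rw [h1]
  have hpi := Real.pi_pos
  have h2 : |Real.pi * θ| ≤ Real.pi / 2 := by
    rw [abs_mul, abs_of_pos hpi]
    nlinarith
  have h3 := Real.mul_abs_le_abs_sin h2
  rw [abs_mul, abs_of_pos hpi] at h3
  have h4 : 2 / Real.pi * (Real.pi * |θ|) = 2 * |θ| := by field_simp
  rw [h4] at h3
  linarith

/-- `|P - Q|` and `log (P / Q)` -/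
lemma log_aux {P Q R : ℝ} (hP : 0 < P) (hQ : 0 < Q) (hR : 1 < R) (hPQ : Q ≤ P)
    (h : |Real.log (P / Q)| ≤ Real.log R / 2) :
    (P - Q) ^ 2 ≤ P * Q * R * Real.log (P / Q) ^ 2 := by
  set y : ℝ := P / Q with hy
  have hPy : P = Q * y := by rw [hy]; field_simp
  have hy1 : 1 ≤ y := by rw [hy, le_div_iff₀ hQ, one_mul]; exact hPQ
  have hy0 : 0 < y := by linarith
  have hl0 : 0 ≤ Real.log y := Real.log_nonneg hy1
  rw [abs_of_nonneg hl0] at h
  have hyR : y ^ 2 ≤ R := by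
    have h1 : Real.log (y ^ 2) ≤ Real.log R := by
      rw [Real.log_pow]; push_cast; linarith
    exact (Real.log_le_log_iff (by positivity) (by linarith)).1 h1
  have h2 : y - 1 ≤ y * Real.log y := by
    have h3 := Real.add_one_le_exp (-Real.log y)
    rw [Real.exp_neg, Real.exp_log hy0] at h3
    have h4 : y * (-Real.log y + 1) ≤ y * y⁻¹ := mul_le_mul_of_nonneg_left h3 hy0.le
    rw [mul_inv_cancel₀ hy0.ne'] at h4
    linarith
  have h5 : (y - 1) ^ 2 ≤ (y * Real.log y) ^ 2 := pow_le_pow_left₀ (by linarith) h2 2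
  rw [mul_pow] at h5
  have h6 : (y - 1) ^ 2 ≤ R * Real.log y ^ 2 :=
    h5.trans (mul_le_mul_of_nonneg_right hyR (sq_nonneg _))
  calc (P - Q) ^ 2 = Q ^ 2 * (y - 1) ^ 2 := by rw [hPy]; ring
    _ ≤ (P * Q) * (y - 1) ^ 2 := by
        refine mul_le_mul_of_nonneg_right ?_ (sq_nonneg _)
        rw [sq]; exact mul_le_mul_of_nonneg_right hPQ hQ.le
    _ ≤ (P * Q) * (R * Real.log y ^ 2) := mul_le_mul_of_nonneg_left h6 (by positivity)
    _ = P * Q * R * Real.log y ^ 2 := by ring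

lemma log_main {P Q R : ℝ} (hP : 0 < P) (hQ : 0 < Q) (hR : 1 < R)
    (h : |Real.log (P / Q)| ≤ Real.log R / 2) :
    (P - Q) ^ 2 ≤ P * Q * R * Real.log (P / Q) ^ 2 := by
  rcases le_total Q P with h1 | h1
  · exact log_aux hP hQ hR h1 h
  · have h2 : Real.log (Q / P) = -Real.log (P / Q) := by
      rw [← Real.log_inv, inv_div]
    have h3 := log_aux hQ hP hR h1 (by rw [h2, abs_neg]; exact h)
    rw [h2, neg_sq] at h3
    calc (P - Q) ^ 2 = (Q - P) ^ 2 := by ring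
      _ ≤ Q * P * R * Real.log (P / Q) ^ 2 := h3
      _ = P * Q * R * Real.log (P / Q) ^ 2 := by ring

/-- the sum over the far vectors -/
lemma far_sum (A : Finset α) (g : α → ℤ) (K m : ℕ) (hK : 0 < K)
    (h : ∀ c : ℤ, (A.filter (fun w => g w = c)).card ≤ m) :
    ∑ w ∈ A.filter (fun w => ¬ |g w| ≤ K), (((g w : ℤ) : ℝ) ^ 2)⁻¹ ≤ 2 * m / K := by
  set M : ℕ := K + ∑ w ∈ A, (g w).natAbs with hM
  set A' := A.filter (fun w => ¬ |g w| ≤ K) with hA'
  have hmaps : ∀ w ∈ A', (g w).natAbs ∈ Ioc K M := by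
    intro w hw
    rw [hA', mem_filter] at hw
    rw [mem_Ioc]
    constructor
    · have := hw.2
      rw [Int.abs_eq_natAbs] at this
      omega
    · have : (g w).natAbs ≤ ∑ w ∈ A, (g w).natAbs :=
        single_le_sum (f := fun w => (g w).natAbs) (fun _ _ => Nat.zero_le _) hw.1
      omega
  rw [← sum_fiberwise_of_maps_to hmaps]
  have h1 : ∀ i ∈ Ioc K M, ∑ w ∈ A'.filter (fun w => (g w).natAbs = i),
      (((g w : ℤ) : ℝ) ^ 2)⁻¹ ≤ 2 * m * ((i : ℝ) ^ 2)⁻¹ := by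
    intro i _
    have h2 : ∀ w ∈ A'.filter (fun w => (g w).natAbs = i),
        (((g w : ℤ) : ℝ) ^ 2)⁻¹ = ((i : ℝ) ^ 2)⁻¹ := by
      intro w hw
      rw [mem_filter] at hw
      have h3 : ((g w : ℤ) : ℝ) ^ 2 = (i : ℝ) ^ 2 := by
        have : (g w) ^ 2 = (i : ℤ) ^ 2 := by
          rw [← hw.2]; exact (Int.natAbs_sq _).symm
        exact_mod_cast this
      rw [h3]
    rw [sum_congr rfl h2, sum_const, nsmul_eq_mul]
    refine mul_le_mul_of_nonneg_right ?_ (by positivity)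
    have h4 : A'.filter (fun w => (g w).natAbs = i) ⊆
        A.filter (fun w => g w = (i : ℤ)) ∪ A.filter (fun w => g w = -(i : ℤ)) := by
      intro w hw
      rw [mem_filter, hA', mem_filter] at hw
      rw [mem_union, mem_filter, mem_filter]
      have h5 := hw.2
      rcases Int.natAbs_eq (g w) with h6 | h6
      · left; exact ⟨hw.1.1, by rw [h6, h5]⟩
      · right; exact ⟨hw.1.1, by rw [h6, h5]⟩
    have h5 := (card_le_card h4).trans (card_union_le _ _)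
    have h6 := h (i : ℤ)
    have h7 := h (-(i : ℤ))
    have : (A'.filter (fun w => (g w).natAbs = i)).card ≤ 2 * m := by omega
    exact_mod_cast this
  refine (sum_le_sum h1).trans ?_
  rw [← mul_sum]
  have h2 : ∑ i ∈ Ioc K M, ((i : ℝ) ^ 2)⁻¹ ≤ (K : ℝ)⁻¹ - (M : ℝ)⁻¹ :=
    sum_Ioc_inv_sq_le_sub (by omega) (by omega)
  have h3 : (0 : ℝ) ≤ (M : ℝ)⁻¹ := by positivity
  have h4 : ∑ i ∈ Ioc K M, ((i : ℝ) ^ 2)⁻¹ ≤ (K : ℝ)⁻¹ := by linarith
  calc 2 * (m : ℝ) * ∑ i ∈ Ioc K M, ((i : ℝ) ^ 2)⁻¹ ≤ 2 * m * (K : ℝ)⁻¹ :=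
        mul_le_mul_of_nonneg_left h4 (by positivity)
    _ = 2 * m / K := by rw [div_eq_mul_inv]

end FejM

open FejM

/-- the logarithmic coordinate -/
def Lg {F : Fm} (μ : Au F) (v : V) : ℝ :=
  Real.log (x1 F v / x2 F v) / Real.log (x1 F μ.e / x2 F μ.e)

lemma dir_eq {F : Fm} (μ : Au F) (v : V) : dir μ v = ep (Lg μ v) := rfl

theorem specFEJ [MA.Sg] (hBAS : SpecBAS) (hRED : SpecRED) (hLOG : SpecLOG) (hPRS : SpecPRS) :
    SpecFEJ := by
  intro F μ hF hP C hC κ hκ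
  obtain ⟨-, hCP, -, -, -, hann, -, -, hf, -, -⟩ := hBAS F μ hF
  obtain ⟨-, -, hqE, -, -, hPE, -, -⟩ := hRED F μ hF
  obtain ⟨hR1, hxpos, hxx, hxc, hxm, hxC⟩ := hLOG F μ hF
  obtain ⟨-, ⟨c₀, hc₀, hup⟩, hfib⟩ := hPRS F μ hF
  obtain ⟨cf, hcf⟩ := hfib C hC
  set R : ℝ := x1 F μ.e / x2 F μ.e with hR
  have hlR : 0 < Real.log R := Real.log_pos hR1
  have hR0 : 0 < R := by linarith
  obtain ⟨H₀, hH₀⟩ := hP C (κ ^ 2) (by positivity)
  obtain ⟨H, hHH, hH2⟩ : ∃ H : ℕ, H₀ ≤ H ∧ 2 ≤ H :=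
    ⟨max H₀ 2, le_max_left _ _, le_max_right _ _⟩
  have hH : 0 < H := by omega
  have hHe := hH₀ H hHH hH
  have hCr : (0 : ℝ) < C := by exact_mod_cast hC
  have hHr : (0 : ℝ) < H := by exact_mod_cast hH
  obtain ⟨kk, hkk⟩ : ∃ kk : ℝ, kk = ((-F.a : ℤ) : ℝ) := ⟨_, rfl⟩
  have hk0 : 0 < kk := by
    rw [hkk]
    have := hF.2.1
    exact_mod_cast (by omega : (0 : ℤ) < -F.a)
  have hA0 : (0 : ℝ) < F.A := by exact_mod_cast hF.1
  set B : ℝ := C ^ 2 * R * Real.log R ^ 2 / (16 * kk) with hB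
  have hB0 : 0 < B := by rw [hB]; positivity
  obtain ⟨K₀, hK₀⟩ := exists_nat_gt (24 * c₀ * C * B * cf * H / κ ^ 2)
  set K : ℕ := K₀ + 1 with hKdef
  have hKr : (0 : ℝ) < K := by rw [hKdef]; positivity
  have hK : 24 * c₀ * C * B * cf * H ≤ κ ^ 2 * K := by
    have h1 : (K₀ : ℝ) ≤ K := by rw [hKdef]; push_cast; linarith
    have h2 := hK₀.trans_le h1
    rw [div_lt_iff₀ (by positivity)] at h2
    linarith
  refine ⟨K, κ ^ 2, by omega, by positivity, ?_⟩
  filter_upwards [hHe, eventually_ge_atTop H] with X hS hXH hbad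
  have hX0 : 0 < X := by omega
  have hXr : (0 : ℝ) < X := by exact_mod_cast hX0
  set A : Finset V := ann μ X (C * X) with hA
  set J : ℕ := X / H with hJdef
  have h2J : 2 * J ≤ X := by
    have h1 : J * H ≤ X := Nat.div_mul_le_self X H
    calc 2 * J = J * 2 := by ring
      _ ≤ J * H := Nat.mul_le_mul_left _ hH2
      _ ≤ X := h1
  have h4J : X ≤ 2 * H * J := by
    have h1 : X < H * (J + 1) := by
      have := Nat.lt_mul_div_succ X hH
      rw [hJdef]; exact this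
    have h2 : H * (J + 1) = H * J + H := by ring
    have h3 : 2 * H * J = 2 * (H * J) := by ring
    have h4 : 1 ≤ J := by
      rw [hJdef]; exact Nat.div_pos hXH hH
    have h5 : H ≤ H * J := Nat.le_mul_of_pos_right _ h4
    omega
  have hJ0 : 0 < J := by
    rw [hJdef]; exact Nat.div_pos hXH hH
  have hJr : (0 : ℝ) < J := by exact_mod_cast hJ0
  have h2Jr : 2 * (J : ℝ) ≤ X := by exact_mod_cast h2J
  have h4Jr : (X : ℝ) ≤ 2 * H * J := by exact_mod_cast h4J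
  have hmem : ∀ v ∈ A, Cn μ v ∧ Pos F v ∧ (0 : ℝ) ≤ F.q v ∧ (F.q v : ℝ) ≤ C * X := by
    intro v hv
    rw [hA, hann] at hv
    refine ⟨hv.2.1, hCP v hv.2.1, ?_, ?_⟩
    · have : (0 : ℤ) ≤ F.q v := by have := hv.2.2.1; omega
      exact_mod_cast this
    · have := hv.2.2.2
      exact_mod_cast this
  have hu : ∀ v ∈ A, ‖dir μ v‖ = 1 := fun v _ => by rw [dir_eq]; exact norm_ep _
  -- the logarithmic coordinates
  have hL01 : ∀ v ∈ A, 0 ≤ Lg μ v ∧ Lg μ v < 1 := by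
    intro v hv
    obtain ⟨h1, h2, -, -⟩ := hmem v hv
    obtain ⟨h3, h4⟩ := (hxC v h2).1 h1
    unfold Lg
    refine ⟨div_nonneg (Real.log_nonneg h3) hlR.le, ?_⟩
    rw [div_lt_one hlR]
    exact Real.log_lt_log (by linarith) h4
  have hLm : ∀ v, Pos F v → Lg μ (μ.m v) = Lg μ v + 1 := by
    intro v hv
    obtain ⟨h1, h2⟩ := hxpos v hv
    have h3 : x1 F v / x2 F v ≠ 0 := (div_pos h1 h2).ne'
    unfold Lg
    rw [hxm v hv, Real.log_mul hR0.ne' h3, ← hR]
    field_simp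
    ring
  have hmP : ∀ v, Pos F v → Pos F (μ.m v) := by
    intro v hv
    have h1 := hPE 1 v hv
    rwa [zpow_one] at h1
  have hnE : ∀ v, (μ.E ^ (-1 : ℤ)) v = μ.n v := by
    intro v
    rw [zpow_neg_one]
    rfl
  have hnP : ∀ v, Pos F v → Pos F (μ.n v) := by
    intro v hv
    have h1 := hPE (-1) v hv
    rwa [hnE] at h1
  have hmn : ∀ v, μ.m (μ.n v) = v := fun v => μ.E.right_inv v
  have hLn : ∀ v, Pos F v → Lg μ (μ.n v) = Lg μ v - 1 := by
    intro v hv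
    have h1 := hLm (μ.n v) (hnP v hv)
    rw [hmn] at h1
    linarith
  have hqm : ∀ v, F.q (μ.m v) = F.q v := by
    intro v
    have h1 := hqE 1 v
    rwa [zpow_one] at h1
  have hqn : ∀ v, F.q (μ.n v) = F.q v := by
    intro v
    have h1 := hqE (-1) v
    rwa [hnE] at h1
  -- the far kernel
  have hkey : ∀ v ∈ A, ∀ v' ∈ A, ∀ w, Pos F w → (F.q w : ℝ) ≤ C * X → (0 : ℝ) ≤ F.q w →
      |Lg μ v - Lg μ w| ≤ 1 / 2 → dir μ v * conj (dir μ v') = ep (Lg μ v - Lg μ w) →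
      ker (dir μ) J v v' * ((cross v w : ℤ) : ℝ) ^ 2 ≤ B * X ^ 2 := by
    intro v hv v' hv' w hw hqw hqw0 hθ he
    obtain ⟨-, hvP, hqv0, hqv⟩ := hmem v hv
    obtain ⟨a1, a2⟩ := hxpos v hvP
    obtain ⟨b1, b2⟩ := hxpos w hw
    set θ : ℝ := Lg μ v - Lg μ w with hθdef
    have e1 : Real.log ((x1 F v * x2 F w) / (x1 F w * x2 F v)) = θ * Real.log R := by
      have h1 : (x1 F v * x2 F w) / (x1 F w * x2 F v) =
          (x1 F v / x2 F v) / (x1 F w / x2 F w) := by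
        field_simp
      rw [h1, Real.log_div (div_pos a1 a2).ne' (div_pos b1 b2).ne', hθdef]
      unfold Lg
      rw [← hR]
      field_simp
    have h1 := log_main (mul_pos a1 b2) (mul_pos b1 a2) hR1 (by
      rw [e1, abs_mul, abs_of_pos hlR]
      have := mul_le_mul_of_nonneg_right hθ hlR.le
      linarith)
    rw [e1] at h1
    have e2 : (x1 F v * x2 F w - x1 F w * x2 F v) ^ 2 =
        4 * (F.A : ℝ) ^ 2 * (kk * ((cross v w : ℤ) : ℝ) ^ 2) := by
      rw [hxc v w, hxc w v]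
      have h2 : F.b w v = F.b v w := by simp only [Fm.b]; ring
      have h3 : cross w v = -cross v w := by simp only [cross]; ring
      rw [h2, h3, ← hkk]
      have h4 : Real.sqrt kk ^ 2 = kk := Real.sq_sqrt hk0.le
      push_cast
      calc (_ : ℝ) = 4 * (F.A : ℝ) ^ 2 * (Real.sqrt kk ^ 2 * ((cross v w : ℤ) : ℝ) ^ 2) := by ring
        _ = _ := by rw [h4]
    have e3 : (x1 F v * x2 F w) * (x1 F w * x2 F v) = (F.A : ℝ) ^ 2 * (F.q v * F.q w) := by
      have h2 := hxx v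
      have h3 := hxx w
      push_cast at h2 h3
      calc (x1 F v * x2 F w) * (x1 F w * x2 F v) = (x1 F v * x2 F v) * (x1 F w * x2 F w) := by ring
        _ = _ := by rw [h2, h3]; ring
    rw [e2, e3] at h1
    have hA2 : (0 : ℝ) < (F.A : ℝ) ^ 2 := by positivity
    have h2 : 4 * (kk * ((cross v w : ℤ) : ℝ) ^ 2) ≤
        (F.q v * F.q w) * R * (θ * Real.log R) ^ 2 := by
      have h3 : (F.A : ℝ) ^ 2 * (4 * (kk * ((cross v w : ℤ) : ℝ) ^ 2)) ≤
          (F.A : ℝ) ^ 2 * ((F.q v * F.q w) * R * (θ * Real.log R) ^ 2) := by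
        calc (F.A : ℝ) ^ 2 * (4 * (kk * ((cross v w : ℤ) : ℝ) ^ 2)) =
            4 * (F.A : ℝ) ^ 2 * (kk * ((cross v w : ℤ) : ℝ) ^ 2) := by ring
          _ ≤ _ := h1
          _ = _ := by ring
      exact le_of_mul_le_mul_left h3 hA2
    have h3 : 4 * (kk * ((cross v w : ℤ) : ℝ) ^ 2) ≤
        ((C * X) ^ 2 * R * Real.log R ^ 2) * θ ^ 2 := by
      refine h2.trans ?_
      have h4 : (F.q v : ℝ) * F.q w ≤ (C * X) ^ 2 := by
        rw [sq]; exact mul_le_mul hqv hqw hqw0 (by positivity)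
      calc ((F.q v : ℝ) * F.q w) * R * (θ * Real.log R) ^ 2 =
          ((F.q v : ℝ) * F.q w) * (R * (θ * Real.log R) ^ 2) := by ring
        _ ≤ (C * X) ^ 2 * (R * (θ * Real.log R) ^ 2) :=
            mul_le_mul_of_nonneg_right h4 (by positivity)
        _ = _ := by ring
    have h4 := ker_sub J (hu v hv) (hu v' hv')
    rw [he] at h4
    have h5 := le_norm_ep hθ
    have hk := ker_nonneg (dir μ) J v v'
    have h6 : ker (dir μ) J v v' * (4 * θ ^ 2) ≤ 1 := by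
      have h7 : (4 * |θ|) ^ 2 ≤ ‖ep θ - 1‖ ^ 2 := pow_le_pow_left₀ (by positivity) h5 2
      rw [mul_pow, sq_abs] at h7
      have h8 := mul_le_mul_of_nonneg_left h7 hk
      nlinarith
    have h7 : ker (dir μ) J v v' * (4 * (kk * ((cross v w : ℤ) : ℝ) ^ 2)) * 4 ≤
        (C * X) ^ 2 * R * Real.log R ^ 2 := by
      have h8 := mul_le_mul_of_nonneg_left h3 hk
      calc ker (dir μ) J v v' * (4 * (kk * ((cross v w : ℤ) : ℝ) ^ 2)) * 4 ≤
          ker (dir μ) J v v' * (((C * X) ^ 2 * R * Real.log R ^ 2) * θ ^ 2) * 4 :=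
            mul_le_mul_of_nonneg_right h8 (by norm_num)
        _ = ((C * X) ^ 2 * R * Real.log R ^ 2) * (ker (dir μ) J v v' * (4 * θ ^ 2)) := by ring
        _ ≤ ((C * X) ^ 2 * R * Real.log R ^ 2) * 1 :=
            mul_le_mul_of_nonneg_left h6 (by positivity)
        _ = _ := mul_one _
    have h8 : B * X ^ 2 = (C * X) ^ 2 * R * Real.log R ^ 2 / (16 * kk) := by
      rw [hB]; ring
    rw [h8, le_div_iff₀ (by positivity)]
    calc ker (dir μ) J v v' * ((cross v w : ℤ) : ℝ) ^ 2 * (16 * kk) =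
        ker (dir μ) J v v' * (4 * (kk * ((cross v w : ℤ) : ℝ) ^ 2)) * 4 := by ring
      _ ≤ _ := h7
  have hker : ∀ v ∈ A, ∀ v' ∈ A, ¬ nb μ K v v' → ker (dir μ) J v v' ≤
      B * X ^ 2 * ((((cross v v' : ℤ) : ℝ) ^ 2)⁻¹ + (((cross v (μ.m v') : ℤ) : ℝ) ^ 2)⁻¹ +
        (((cross v (μ.n v') : ℤ) : ℝ) ^ 2)⁻¹) := by
    intro v hv v' hv' hnb
    unfold nb at hnb
    push Not at hnb
    obtain ⟨n1, n2, n3⟩ := hnb
    obtain ⟨-, hvP, -, -⟩ := hmem v hv
    obtain ⟨-, hvP', hq0', hq'⟩ := hmem v' hv'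
    obtain ⟨l1, l2⟩ := hL01 v hv
    obtain ⟨l3, l4⟩ := hL01 v' hv'
    have hBX : 0 < B * X ^ 2 := by positivity
    have gen : ∀ c : ℤ, (K : ℤ) < |c| → ker (dir μ) J v v' * ((c : ℤ) : ℝ) ^ 2 ≤ B * X ^ 2 →
        ker (dir μ) J v v' ≤ B * X ^ 2 * (((c : ℤ) : ℝ) ^ 2)⁻¹ := by
      intro c hc h
      have hc0 : c ≠ 0 := by
        rintro rfl
        rw [abs_zero] at hc
        have : (0 : ℤ) ≤ K := by positivity
        omega
      have hcr : ((c : ℤ) : ℝ) ≠ 0 := by exact_mod_cast hc0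
      have hc2 : 0 < ((c : ℤ) : ℝ) ^ 2 := by positivity
      rw [← div_eq_mul_inv, le_div_iff₀ hc2]
      exact h
    have p1 : 0 ≤ B * X ^ 2 * (((cross v v' : ℤ) : ℝ) ^ 2)⁻¹ := by positivity
    have p2 : 0 ≤ B * X ^ 2 * (((cross v (μ.m v') : ℤ) : ℝ) ^ 2)⁻¹ := by positivity
    have p3 : 0 ≤ B * X ^ 2 * (((cross v (μ.n v') : ℤ) : ℝ) ^ 2)⁻¹ := by positivity
    rw [mul_add, mul_add]
    rcases le_or_gt |Lg μ v - Lg μ v'| (1 / 2) with hc | hc
    · have h1 := gen _ n1 (hkey v hv v' hv' v' hvP' hq' hq0' hc (by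
        rw [dir_eq, dir_eq, ep_sub]))
      linarith
    · rcases lt_abs.1 hc with hc1 | hc1
      · have h1 := gen _ n2 (hkey v hv v' hv' (μ.m v') (hmP v' hvP') (by rw [hqm]; exact hq')
          (by rw [hqm]; exact hq0') (by
            rw [hLm v' hvP', abs_le]
            constructor <;> linarith) (by
            rw [dir_eq, dir_eq, ep_sub, hLm v' hvP', ← ep_sub_one]
            congr 1
            ring))
        linarith
      · have h1 := gen _ n3 (hkey v hv v' hv' (μ.n v') (hnP v' hvP') (by rw [hqn]; exact hq')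
          (by rw [hqn]; exact hq0') (by
            rw [hLn v' hvP', abs_le]
            constructor <;> linarith) (by
            rw [dir_eq, dir_eq, ep_sub, hLn v' hvP', ← ep_add_one]
            congr 1
            ring))
        linarith
  set W : ℝ := B * X ^ 2 * (2 * (cf : ℝ) / K + 2 * (cf : ℝ) / K + 2 * (cf : ℝ) / K) with hWdef
  have hfar : ∀ v ∈ A, ∑ w ∈ A.filter (fun w => ¬ nb μ K v w), ker (dir μ) J v w ≤ W := by
    intro v hv
    have h1 : ∀ w ∈ A.filter (fun w => ¬ nb μ K v w), ker (dir μ) J v w ≤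
        B * X ^ 2 * ((((cross v w : ℤ) : ℝ) ^ 2)⁻¹ + (((cross v (μ.m w) : ℤ) : ℝ) ^ 2)⁻¹ +
        (((cross v (μ.n w) : ℤ) : ℝ) ^ 2)⁻¹) := by
      intro w hw
      rw [mem_filter] at hw
      exact hker v hv w hw.1 hw.2
    refine (sum_le_sum h1).trans ?_
    rw [← mul_sum, hWdef]
    refine mul_le_mul_of_nonneg_left ?_ (by positivity)
    rw [sum_add_distrib, sum_add_distrib]
    have sub : ∀ g : V → ℤ, (∀ w, ¬ nb μ K v w → ¬ |g w| ≤ K) →
        (∀ i : ℤ, (A.filter (fun w => g w = i)).card ≤ cf) →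
        ∑ w ∈ A.filter (fun w => ¬ nb μ K v w), (((g w : ℤ) : ℝ) ^ 2)⁻¹ ≤ 2 * cf / K := by
      intro g hg hg2
      refine le_trans (sum_le_sum_of_subset_of_nonneg ?_ (fun _ _ _ => by positivity))
        (far_sum A g K cf (by omega) hg2)
      intro w hw
      rw [mem_filter] at hw ⊢
      exact ⟨hw.1, hg w hw.2⟩
    refine add_le_add (add_le_add ?_ ?_) ?_
    · exact sub (fun w => cross v w) (fun w hw h => hw (Or.inl h))
        (fun i => (hcf X hX0 i v hv).1)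
    · exact sub (fun w => cross v (μ.m w)) (fun w hw h => hw (Or.inr (Or.inl h)))
        (fun i => (hcf X hX0 i v hv).2.1)
    · exact sub (fun w => cross v (μ.n w)) (fun w hw h => hw (Or.inr (Or.inr h)))
        (fun i => (hcf X hX0 i v hv).2.2)
  -- the sums
  set f' : V → ℝ := fun v => ((F.f v : ℤ) : ℝ) with hf'
  have hval : ∀ v, f' v = 1 ∨ f' v = -1 := by
    intro v
    rcases hf v with h | h
    · left; simp only [hf', h]; norm_num
    · right; simp only [hf', h]; norm_num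
  have hT1 := sum_ker A f' (dir μ) hu J
  have hT0 := sum_ker A (fun _ => 1) (dir μ) hu J
  have hup1 : ∑ v ∈ A, ∑ w ∈ A, f' v * f' w * ker (dir μ) J v w ≤
      J * (‖Su A f' (dir μ) 0‖ ^ 2 + κ ^ 2 * X ^ 2) := by
    rw [hT1]
    refine (dbl_le (fun k => ‖Su A f' (dir μ) k‖ ^ 2) (fun k => by positivity) J (X / H)
      le_rfl).trans ?_
    refine mul_le_mul_of_nonneg_left ?_ hJr.le
    refine add_le_add le_rfl ?_
    refine le_trans (le_of_eq ?_) hS
    refine sum_congr rfl fun k _ => ?_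
    unfold Su
    simp only [hf', Complex.ofReal_intCast]
  have hlow0 : J * (A.card : ℝ) ^ 2 ≤ ∑ v ∈ A, ∑ w ∈ A, ker (dir μ) J v w := by
    have h1 : ∑ v ∈ A, ∑ w ∈ A, ker (dir μ) J v w =
        ∑ v ∈ A, ∑ w ∈ A, (1 : ℝ) * 1 * ker (dir μ) J v w := by simp
    rw [h1, hT0]
    refine le_trans (le_of_eq ?_)
      (le_dbl (fun k => ‖Su A (fun _ => 1) (dir μ) k‖ ^ 2) (fun k => by positivity) J)
    unfold Su
    simp
  have hdiff : ∑ v ∈ A, ∑ w ∈ A, ker (dir μ) J v w -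
      ∑ v ∈ A, ∑ w ∈ A, f' v * f' w * ker (dir μ) J v w ≤
      2 * ((J : ℝ) ^ 2 * (κ ^ 2 * X) + A.card * W) := by
    have h1 : ∀ v ∈ A, ∀ w ∈ A, ker (dir μ) J v w - f' v * f' w * ker (dir μ) J v w ≤
        2 * ((J : ℝ) ^ 2 * (if nb μ K v w ∧ F.f v ≠ F.f w then 1 else 0) +
          (if ¬ nb μ K v w then ker (dir μ) J v w else 0)) := by
      intro v hv w hw
      have hk0 := ker_nonneg (dir μ) J v w
      have hk1 := ker_le J (hu v hv) (hu w hw)
      have hJ2 : (0 : ℝ) ≤ (J : ℝ) ^ 2 := by positivity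
      by_cases hc : nb μ K v w
      · by_cases he : F.f v = F.f w
        · have h2 : f' v * f' w = 1 := by
            have h3 : f' v = f' w := by simp only [hf', he]
            rw [h3]
            rcases hval w with h | h <;> rw [h] <;> norm_num
          rw [h2]
          simp [he, hc]
        · have h2 : -1 ≤ f' v * f' w := by
            rcases hval v with h | h <;> rcases hval w with h' | h' <;> rw [h, h'] <;> norm_num
          rw [if_pos ⟨hc, he⟩, if_neg (not_not.2 hc)]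
          nlinarith
      · have h2 : -1 ≤ f' v * f' w := by
          rcases hval v with h | h <;> rcases hval w with h' | h' <;> rw [h, h'] <;> norm_num
        rw [if_neg (fun h => hc h.1), if_pos hc]
        nlinarith
    rw [← sum_sub_distrib]
    have h2 : ∑ v ∈ A, (∑ w ∈ A, ker (dir μ) J v w - ∑ w ∈ A, f' v * f' w * ker (dir μ) J v w) ≤
        ∑ v ∈ A, ∑ w ∈ A, 2 * ((J : ℝ) ^ 2 * (if nb μ K v w ∧ F.f v ≠ F.f w then 1 else 0) +
          (if ¬ nb μ K v w then ker (dir μ) J v w else 0)) := by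
      refine sum_le_sum fun v hv => ?_
      rw [← sum_sub_distrib]
      exact sum_le_sum fun w hw => h1 v hv w hw
    refine h2.trans ?_
    have h3 : ∑ v ∈ A, ∑ w ∈ A, 2 * ((J : ℝ) ^ 2 * (if nb μ K v w ∧ F.f v ≠ F.f w then 1 else 0) +
          (if ¬ nb μ K v w then ker (dir μ) J v w else 0)) =
        2 * ((J : ℝ) ^ 2 * (∑ v ∈ A, ∑ w ∈ A,
          (if nb μ K v w ∧ F.f v ≠ F.f w then (1 : ℝ) else 0)) +
          ∑ v ∈ A, ∑ w ∈ A, (if ¬ nb μ K v w then ker (dir μ) J v w else 0)) := by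
      simp only [← mul_sum, sum_add_distrib]
    rw [h3]
    refine mul_le_mul_of_nonneg_left (add_le_add ?_ ?_) (by norm_num)
    · refine mul_le_mul_of_nonneg_left ?_ (by positivity)
      refine le_trans (le_of_eq ?_) hbad
      rw [← sum_product' A A (fun v w => if nb μ K v w ∧ F.f v ≠ F.f w then (1 : ℝ) else 0),
        sum_boole]
    · have h4 : ∀ v ∈ A, ∑ w ∈ A, (if ¬ nb μ K v w then ker (dir μ) J v w else 0) ≤ W := by
        intro v hv
        rw [← sum_filter]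
        exact hfar v hv
      refine (sum_le_sum h4).trans (le_of_eq ?_)
      rw [sum_const, nsmul_eq_mul]
  -- the two counts
  set p : ℝ := ((A.filter (fun v => F.f v ≠ -1)).card : ℝ) with hp
  set m : ℝ := ((A.filter (fun v => F.f v ≠ 1)).card : ℝ) with hm
  have hpm : (A.card : ℝ) = p + m := by
    have h1 : ∀ v ∈ A, (1 : ℝ) = (if F.f v ≠ -1 then 1 else 0) + (if F.f v ≠ 1 then 1 else 0) := by
      intro v _
      rcases hf v with h | h <;> rw [h] <;> norm_num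
    have h2 := sum_congr rfl h1
    rw [sum_add_distrib, sum_boole, sum_boole, sum_const, nsmul_eq_mul, mul_one] at h2
    exact h2
  have hS0 : ‖Su A f' (dir μ) 0‖ ^ 2 = (p - m) ^ 2 := by
    have h1 : ∀ v ∈ A, f' v = (if F.f v ≠ -1 then 1 else 0) - (if F.f v ≠ 1 then 1 else 0) := by
      intro v _
      simp only [hf']
      rcases hf v with h | h <;> rw [h] <;> norm_num
    have h2 := sum_congr rfl h1
    rw [sum_sub_distrib, sum_boole, sum_boole] at h2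
    have h3 : Su A f' (dir μ) 0 = ((p - m : ℝ) : ℂ) := by
      rw [hp, hm, ← h2]
      unfold Su
      simp
    rw [h3, Complex.norm_real, Real.norm_eq_abs, sq_abs]
  have hn : (A.card : ℝ) ≤ c₀ * (C * X) := by
    have := hup X (C * X) (Nat.mul_pos hC hX0)
    push_cast at this
    exact this
  have hfin : p ≤ κ * X ∨ m ≤ κ * X := by
    refine SG.fej_arith (n := (A.card : ℝ)) (J := J) (W := W) hpm (by positivity) (by positivity) hJr
      hXr.le hκ h2Jr ?_ ?_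
    · have hW0 : 0 ≤ W := by rw [hWdef]; positivity
      have h1 : (A.card : ℝ) * W ≤ c₀ * (C * X) * W := mul_le_mul_of_nonneg_right hn hW0
      have h2 : 2 * (c₀ * (C * X) * W) = (24 * c₀ * C * B * cf * H) * X ^ 3 / (2 * K * H) := by
        rw [hWdef]; field_simp; ring
      have h3 : (24 * c₀ * C * B * cf * H) * (X : ℝ) ^ 3 / (2 * K * H) ≤
          (κ ^ 2 * K) * X ^ 3 / (2 * K * H) := by
        refine div_le_div_of_nonneg_right ?_ (by positivity)
        exact mul_le_mul_of_nonneg_right hK (by positivity)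
      have h4 : (κ ^ 2 * K) * (X : ℝ) ^ 3 / (2 * K * H) = κ ^ 2 * X ^ 3 / (2 * H) := by
        field_simp
      have h5 : κ ^ 2 * (X : ℝ) ^ 3 / (2 * H) ≤ J * (κ ^ 2 * X ^ 2) := by
        rw [div_le_iff₀ (by positivity)]
        calc κ ^ 2 * (X : ℝ) ^ 3 = (κ ^ 2 * X ^ 2) * X := by ring
          _ ≤ (κ ^ 2 * X ^ 2) * (2 * H * J) := mul_le_mul_of_nonneg_left h4Jr (by positivity)
          _ = _ := by ring
      linarith
    · rw [← hS0]
      linarith
  rcases hfin with h | h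
  · exact ⟨-1, Or.inr rfl, h⟩
  · exact ⟨1, Or.inl rfl, h⟩

end

end Pool.Agent.Lib.MP391708.SR
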