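import Pool.Agent.Lib.MP_391708_nt.SR.Spec

/-!
# The coordinates `x1`, `x2` and the reduction to the cone

`x1 v * x2 w = A (b v w - √(-a) cross v w)`.  The automorphism multiplies `x1` by `x1 e / A` and `x2` by
`x2 e / A`, so it multiplies `x1 / x2` by `R = x1 e / x2 e > 1`, and the cone is `1 ≤ x1 / x2 < R`.
-/

set_option autoImplicit false

namespace Pool.Agent.Lib.MP391708.SR

open Finset Filter Topology
open Pool.Agent.Lib.MP391708.Eqd (V cross)
open Pool.Agent.Lib.MP391708.SG (Fm lam prim)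
open Pool.Agent.Lib.MP391708.MA (Sg)

namespace LG

variable {F : Fm}

lemma sq_s (h : Idf F) : Real.sqrt (((-F.a : ℤ) : ℝ)) ^ 2 = ((-F.a : ℤ) : ℝ) := by
  apply Real.sq_sqrt
  have := h.2.1
  exact_mod_cast (by omega : (0 : ℤ) ≤ -F.a)

lemma s_pos (h : Idf F) : 0 < Real.sqrt (((-F.a : ℤ) : ℝ)) := by
  apply Real.sqrt_pos.2
  have := h.2.1
  exact_mod_cast (by omega : (0 : ℤ) < -F.a)

lemma A_pos (h : Idf F) : (0 : ℝ) < (F.A : ℝ) := by exact_mod_cast h.1

/-- the product formula -/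
lemma x1_mul_x2 (h : Idf F) (v w : V) : x1 F v * x2 F w = (F.A : ℝ) * (((F.b v w : ℤ) : ℝ) -
    Real.sqrt (((-F.a : ℤ) : ℝ)) * ((cross v w : ℤ) : ℝ)) := by
  have hs := sq_s h
  have ha : ((-F.a : ℤ) : ℝ) = (F.B : ℝ) ^ 2 - F.A * F.C := by
    simp only [Fm.a]; push_cast; ring
  rw [ha] at hs
  simp only [x1, x2, Fm.b, cross]
  rw [ha]
  push_cast
  linear_combination (-(v.2 : ℝ) * w.2) * hs

lemma b_self (v : V) : F.b v v = F.q v := by simp only [Fm.b, Fm.q]; ring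

lemma cross_self (v : V) : cross v v = 0 := by simp only [cross]; ring

lemma b_comm (v w : V) : F.b v w = F.b w v := by simp only [Fm.b]; ring

lemma cross_comm (v w : V) : cross v w = -cross w v := by simp only [cross]; ring

lemma x1_mul_x2_self (h : Idf F) (v : V) : x1 F v * x2 F v = ((F.A * F.q v : ℤ) : ℝ) := by
  rw [x1_mul_x2 h, b_self, cross_self]
  push_cast
  ring

lemma x1_one : x1 F (1, 0) = F.A := by simp [x1]

lemma x2_one : x2 F (1, 0) = F.A := by simp [x2]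

lemma x1_add_x2 (v : V) : x1 F v + x2 F v = 2 * ((F.A * v.1 + F.B * v.2 : ℤ) : ℝ) := by
  simp only [x1, x2]; ring

lemma x1_sub_x2 (v : V) : x1 F v - x2 F v = 2 * Real.sqrt (((-F.a : ℤ) : ℝ)) * (v.2 : ℝ) := by
  simp only [x1, x2]; ring

lemma pos_iff (h : Idf F) (v : V) : Pos F v ↔ 0 < x1 F v ∧ 0 < x2 F v := by
  have hA := A_pos h
  have h1 := x1_mul_x2_self h v
  have h2 := x1_add_x2 (F := F) v
  have hq : (0 < F.q v) ↔ (0 : ℝ) < ((F.A * F.q v : ℤ) : ℝ) := by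
    constructor
    · intro h0
      exact_mod_cast mul_pos h.1 h0
    · intro h0
      have h3 : (0 : ℤ) < F.A * F.q v := by exact_mod_cast h0
      exact (mul_pos_iff_of_pos_left h.1).1 h3
  have hl : (0 < F.A * v.1 + F.B * v.2) ↔ (0 : ℝ) < 2 * ((F.A * v.1 + F.B * v.2 : ℤ) : ℝ) := by
    constructor
    · intro h0
      have : (0 : ℝ) < ((F.A * v.1 + F.B * v.2 : ℤ) : ℝ) := by exact_mod_cast h0
      linarith
    · intro h0
      have : (0 : ℝ) < ((F.A * v.1 + F.B * v.2 : ℤ) : ℝ) := by linarith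
      exact_mod_cast this
  unfold Pos
  rw [hq, hl, ← h1, ← h2]
  constructor
  · rintro ⟨h3, h4⟩
    rcases pos_and_pos_or_neg_and_neg_of_mul_pos h3 with h5 | h5
    · exact h5
    · linarith [h5.1, h5.2]
  · rintro ⟨h3, h4⟩
    exact ⟨mul_pos h3 h4, by linarith⟩

variable (μ : Au F)

lemma b_m (v w : V) : F.b (μ.m v) (μ.m w) = F.b v w := μ.inv v w

lemma cross_m (v w : V) : cross (μ.m v) (μ.m w) = cross v w := by
  have h := μ.det
  simp only [Au.m, cross]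
  linear_combination (v.1 * w.2 - v.2 * w.1) * h

lemma m_one : μ.m (1, 0) = μ.e := by
  simp [Au.m, Au.e]

lemma q_e : F.q μ.e = F.A := by
  have h := b_m μ (1, 0) (1, 0)
  rw [m_one, b_self, b_self] at h
  rw [h]
  simp [Fm.q]

lemma e_pos (h : Idf F) : Pos F μ.e := by
  refine ⟨by rw [q_e]; exact h.1, ?_⟩
  simpa [Au.e] using μ.bpos

lemma x1_e_pos (h : Idf F) : 0 < x1 F μ.e := ((pos_iff h _).1 (e_pos μ h)).1

lemma x2_e_pos (h : Idf F) : 0 < x2 F μ.e := ((pos_iff h _).1 (e_pos μ h)).2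

lemma x2_lt_x1 (h : Idf F) : x2 F μ.e < x1 F μ.e := by
  have h1 := x1_sub_x2 (F := F) μ.e
  have h2 : (0 : ℝ) < ((μ.e.2 : ℤ) : ℝ) := by
    have := μ.rpos
    exact_mod_cast this
  have h3 := mul_pos (mul_pos two_pos (s_pos h)) h2
  linarith

lemma one_lt_R (h : Idf F) : 1 < x1 F μ.e / x2 F μ.e := by
  rw [one_lt_div (x2_e_pos μ h)]
  exact x2_lt_x1 μ h

lemma x1_m (h : Idf F) (v : V) : x1 F (μ.m v) * x2 F μ.e = x1 F v * F.A := by
  have h1 := x1_mul_x2 h (μ.m v) (μ.m (1, 0))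
  rw [b_m, cross_m, ← x1_mul_x2 h, m_one, x2_one] at h1
  exact h1

lemma x2_m (h : Idf F) (v : V) : x1 F μ.e * x2 F (μ.m v) = F.A * x2 F v := by
  have h1 := x1_mul_x2 h (μ.m (1, 0)) (μ.m v)
  rw [b_m, cross_m, ← x1_mul_x2 h, m_one, x1_one] at h1
  exact h1

lemma pos_m (h : Idf F) (v : V) : Pos F (μ.m v) ↔ Pos F v := by
  have hA := A_pos h
  have he1 := x1_e_pos μ h
  have he2 := x2_e_pos μ h
  have h1 := x1_m μ h v
  have h2 := x2_m μ h v
  rw [pos_iff h, pos_iff h]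
  constructor
  · rintro ⟨h3, h4⟩
    constructor
    · have : 0 < x1 F v * F.A := by rw [← h1]; exact mul_pos h3 he2
      exact (mul_pos_iff_of_pos_right hA).1 this
    · have : 0 < F.A * x2 F v := by rw [← h2]; exact mul_pos he1 h4
      exact (mul_pos_iff_of_pos_left hA).1 this
  · rintro ⟨h3, h4⟩
    constructor
    · have : 0 < x1 F (μ.m v) * x2 F μ.e := by rw [h1]; exact mul_pos h3 hA
      exact (mul_pos_iff_of_pos_right he2).1 this
    · have : 0 < x1 F μ.e * x2 F (μ.m v) := by rw [h2]; exact mul_pos hA h4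
      exact (mul_pos_iff_of_pos_left he1).1 this

lemma ratio_m (h : Idf F) (v : V) (hv : Pos F v) :
    x1 F (μ.m v) / x2 F (μ.m v) = x1 F μ.e / x2 F μ.e * (x1 F v / x2 F v) := by
  have hA := A_pos h
  have he1 := x1_e_pos μ h
  have he2 := x2_e_pos μ h
  have hv2 := ((pos_iff h _).1 hv).2
  have hm2 := ((pos_iff h _).1 ((pos_m μ h v).2 hv)).2
  have h1 := x1_m μ h v
  have h2 := x2_m μ h v
  rw [div_mul_div_comm, div_eq_div_iff hm2.ne' (mul_pos he2 hv2).ne']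
  have h3 : F.A * (x1 F (μ.m v) * (x2 F μ.e * x2 F v)) =
      F.A * (x1 F μ.e * x1 F v * x2 F (μ.m v)) := by
    calc F.A * (x1 F (μ.m v) * (x2 F μ.e * x2 F v))
        = (x1 F (μ.m v) * x2 F μ.e) * (F.A * x2 F v) := by ring
      _ = (x1 F v * F.A) * (x1 F μ.e * x2 F (μ.m v)) := by rw [h1, h2]
      _ = _ := by ring
  exact mul_left_cancel₀ hA.ne' h3

lemma cross_e (h : Idf F) (v : V) : x1 F μ.e * x2 F v - x1 F v * x2 F μ.e =
    2 * (F.A : ℝ) * Real.sqrt (((-F.a : ℤ) : ℝ)) * ((cross v μ.e : ℤ) : ℝ) := by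
  rw [x1_mul_x2 h, x1_mul_x2 h, b_comm μ.e v, cross_comm μ.e v]
  push_cast
  ring

lemma cn_iff (h : Idf F) (v : V) (hv : Pos F v) :
    Cn μ v ↔ 1 ≤ x1 F v / x2 F v ∧ x1 F v / x2 F v < x1 F μ.e / x2 F μ.e := by
  have hA := A_pos h
  have hs := s_pos h
  have he2 := x2_e_pos μ h
  have hv2 := ((pos_iff h _).1 hv).2
  unfold Cn
  apply and_congr
  · rw [one_le_div hv2]
    have h1 := x1_sub_x2 (F := F) v
    have h2s : (0 : ℝ) < 2 * Real.sqrt (((-F.a : ℤ) : ℝ)) := mul_pos two_pos hs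
    constructor
    · intro h0
      have h2 : (0 : ℝ) ≤ (v.2 : ℝ) := by exact_mod_cast h0
      have h3 := mul_nonneg h2s.le h2
      linarith
    · intro h0
      have h3 : (0 : ℝ) ≤ 2 * Real.sqrt (((-F.a : ℤ) : ℝ)) * (v.2 : ℝ) := by linarith
      have h4 : (0 : ℝ) ≤ (v.2 : ℝ) := nonneg_of_mul_nonneg_right h3 h2s
      exact_mod_cast h4
  · rw [div_lt_div_iff₀ hv2 he2]
    have h1 := cross_e μ h v
    have h2s : (0 : ℝ) < 2 * (F.A : ℝ) * Real.sqrt (((-F.a : ℤ) : ℝ)) :=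
      mul_pos (mul_pos two_pos hA) hs
    constructor
    · intro h0
      have h2 : (0 : ℝ) < ((cross v μ.e : ℤ) : ℝ) := by exact_mod_cast h0
      have h3 := mul_pos h2s h2
      linarith
    · intro h0
      have h3 : (0 : ℝ) < 2 * (F.A : ℝ) * Real.sqrt (((-F.a : ℤ) : ℝ)) *
          ((cross v μ.e : ℤ) : ℝ) := by linarith
      have h4 : (0 : ℝ) < ((cross v μ.e : ℤ) : ℝ) := (mul_pos_iff_of_pos_left h2s).1 h3
      exact_mod_cast h4

lemma cn_pos (h : Idf F) (v : V) (hv : Cn μ v) : Pos F v := by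
  have hA := A_pos h
  have he1 := x1_e_pos μ h
  have he2 := x2_e_pos μ h
  have hr : (0 : ℝ) < (μ.r : ℝ) := by exact_mod_cast μ.rpos
  have hc : (0 : ℝ) < ((cross v μ.e : ℤ) : ℝ) := by exact_mod_cast hv.2
  have hv2 : (0 : ℝ) ≤ (v.2 : ℝ) := by exact_mod_cast hv.1
  rw [pos_iff h]
  constructor
  · have h1 : (μ.r : ℝ) * x1 F v = ((cross v μ.e : ℤ) : ℝ) * F.A + (v.2 : ℝ) * x1 F μ.e := by
      simp only [x1, cross, Au.e]; push_cast; ring
    have h2 : 0 < (μ.r : ℝ) * x1 F v := by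
      rw [h1]
      exact add_pos_of_pos_of_nonneg (mul_pos hc hA) (mul_nonneg hv2 he1.le)
    exact (mul_pos_iff_of_pos_left hr).1 h2
  · have h1 : (μ.r : ℝ) * x2 F v = ((cross v μ.e : ℤ) : ℝ) * F.A + (v.2 : ℝ) * x2 F μ.e := by
      simp only [x2, cross, Au.e]; push_cast; ring
    have h2 : 0 < (μ.r : ℝ) * x2 F v := by
      rw [h1]
      exact add_pos_of_pos_of_nonneg (mul_pos hc hA) (mul_nonneg hv2 he2.le)
    exact (mul_pos_iff_of_pos_left hr).1 h2

end LG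

/-- LOG -/
theorem specLOG : SpecLOG := by
  intro F μ h
  refine ⟨LG.one_lt_R μ h, fun v hv => (LG.pos_iff h v).1 hv, LG.x1_mul_x2_self h,
    LG.x1_mul_x2 h, LG.ratio_m μ h, LG.cn_iff μ h⟩

end Pool.Agent.Lib.MP391708.SR
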