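import Pool.Agent.Lib.MP_391708_nt.SR.Spec
import Pool.Agent.Lib.MP_391708_nt.SG.LOW

/-!
# LOW: lower bound for the number of critical pairs with `2 q ≤ 3 b`, indefinite forms

For a coprime pair `(c, c')` in the box `(Y, 11/10 Y] × (3/4 Y, 33/40 Y]` take `v = (κ c + d, c)`,
`w = (κ c' + d', c')`, where `c d' - d c' = 1`, `0 ≤ d < c`, and `κ` is a large integer (so that `v` is in
the cone and the form is almost constant).  Then `cross v w = -1` and `c b(v, w) = c' q(v) + O(c)`.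
-/

set_option autoImplicit false

namespace Pool.Agent.Lib.MP391708.SR

open Finset Filter Topology
open Pool.Agent.Lib.MP391708.Eqd (V cross)
open Pool.Agent.Lib.MP391708.SG (Fm lam prim)
open scoped Classical

noncomputable section

namespace LowM

variable {F : Fm}

/-- the pair of vectors of a coprime pair -/
def vw (κ : ℤ) (x : ℕ × ℕ) : V × V :=
  ((κ * x.1 + (Eqd.Low.bz x.1 x.2).1, (x.1 : ℤ)), (κ * x.2 + (Eqd.Low.bz x.1 x.2).2, (x.2 : ℤ)))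

lemma vw_inj {κ : ℤ} {x y : ℕ × ℕ} (h : vw κ x = vw κ y) : x = y := by
  unfold vw at h
  simp only [Prod.mk.injEq] at h
  exact Prod.ext (by exact_mod_cast h.1.2) (by exact_mod_cast h.2.2)

/-- the constants: `P` the value of the form at `(κ, 1)`, `L = A (κ + 1) + |B|` -/
structure Cst (F : Fm) (p r κ P L : ℤ) : Prop where
  A0 : 0 < F.A
  κ1 : 1 ≤ κ
  cone : p < κ * r
  P20 : 20 ≤ P
  κP : 20 * κ ≤ P
  L0 : 1 ≤ L
  LP : 20 * L ≤ P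
  hP : P = F.A * κ ^ 2 + 2 * F.B * κ + F.C
  hL : L = F.A * (κ + 1) + |F.B|
  pos : 0 ≤ F.A * κ + F.B
  small : 20 * (2 * (F.A * κ + F.B) + F.A) ≤ P

lemma consts (hA : 0 < F.A) {p r : ℤ} (hr : 0 < r) : ∃ κ P L : ℤ, Cst F p r κ P L := by
  obtain ⟨β, hβ⟩ : ∃ β : ℤ, β = |F.B| := ⟨_, rfl⟩
  obtain ⟨g, hg⟩ : ∃ g : ℤ, g = |F.C| := ⟨_, rfl⟩
  obtain ⟨p', hp'⟩ : ∃ p' : ℤ, p' = |p| := ⟨_, rfl⟩
  have hB0 : 0 ≤ β := by rw [hβ]; exact abs_nonneg _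
  have hg0 : 0 ≤ g := by rw [hg]; exact abs_nonneg _
  have hp0 : 0 ≤ p' := by rw [hp']; exact abs_nonneg _
  have hB1 : -β ≤ F.B := by rw [hβ]; exact neg_abs_le _
  have hB2 : F.B ≤ β := by rw [hβ]; exact le_abs_self _
  have hC1 : -g ≤ F.C := by rw [hg]; exact neg_abs_le _
  have hp1 : p ≤ p' := by rw [hp']; exact le_abs_self _
  obtain ⟨κ, hκ⟩ : ∃ κ : ℤ, κ = 100 * (1 + β + g + p') := ⟨_, rfl⟩
  obtain ⟨A, hAd⟩ : ∃ A : ℤ, A = F.A := ⟨_, rfl⟩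
  rw [← hAd] at hA
  have hA1 : 1 ≤ A := hA
  have hκ100 : 100 ≤ κ := by linarith
  have hβκ : 100 * β ≤ κ := by linarith
  have hgκ : 100 * g ≤ κ := by linarith
  -- `A κ² ≥ 100 A κ + 100 β κ + 100 g κ`
  have h1 : 100 * (A * κ) + 100 * (β * κ) + 100 * (g * κ) ≤ A * κ ^ 2 := by
    have e1 : A * κ ^ 2 = A * κ * (100 * (1 + β + g + p')) := by rw [← hκ]; ring
    have e2 : 1 * (κ * β) ≤ A * (κ * β) := mul_le_mul_of_nonneg_right hA1 (by positivity)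
    have e3 : 1 * (κ * g) ≤ A * (κ * g) := mul_le_mul_of_nonneg_right hA1 (by positivity)
    have e4 : 0 ≤ A * κ * p' := by positivity
    rw [e1]
    nlinarith
  have hAκ : 100 * A ≤ A * κ := by nlinarith
  have hκA : κ ≤ A * κ := by nlinarith
  have h2 : -(β * κ) ≤ F.B * κ := by nlinarith
  have h2' : F.B * κ ≤ β * κ := by nlinarith
  have h3 : 0 ≤ g * κ := by positivity
  have h3' : 0 ≤ β * κ := by positivity
  have h4 : β ≤ β * κ := by nlinarith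
  have h5 : g ≤ g * κ := by nlinarith
  refine ⟨κ, F.A * κ ^ 2 + 2 * F.B * κ + F.C, F.A * (κ + 1) + |F.B|, ?_⟩
  rw [← hβ, ← hAd]
  refine ⟨by rw [← hAd]; exact hA, by linarith, ?_, by linarith, by linarith, by nlinarith,
    by linarith, by rw [← hAd], by rw [← hAd, hβ], by rw [← hAd]; linarith, by
      rw [← hAd]; linarith⟩
  nlinarith

variable {p r κ P L : ℤ}

/-- sizes of `q v` and `b v w` -/
lemma sizes (hc : Cst F p r κ P L) {x : ℕ × ℕ} (hx : 0 < x.1) (hcop : Nat.Coprime x.1 x.2) :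
    cross (vw κ x).1 (vw κ x).2 = -1 ∧
    P * (x.1 : ℤ) ^ 2 ≤ F.q (vw κ x).1 ∧ 20 * F.q (vw κ x).1 ≤ 21 * (P * (x.1 : ℤ) ^ 2) ∧
    (x.2 : ℤ) * F.q (vw κ x).1 ≤ F.b (vw κ x).1 (vw κ x).2 * x.1 ∧
    F.b (vw κ x).1 (vw κ x).2 * x.1 ≤ (x.2 : ℤ) * F.q (vw κ x).1 + L * x.1 := by
  obtain ⟨a1, a2⟩ := Eqd.Low.bz_spec hx hcop
  obtain ⟨d, hd⟩ : ∃ d : ℤ, d = ((Eqd.Low.bz x.1 x.2).1 : ℤ) := ⟨_, rfl⟩
  obtain ⟨d', hd'⟩ : ∃ d' : ℤ, d' = ((Eqd.Low.bz x.1 x.2).2 : ℤ) := ⟨_, rfl⟩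
  obtain ⟨c, hcd⟩ : ∃ c : ℤ, c = (x.1 : ℤ) := ⟨_, rfl⟩
  obtain ⟨c', hcd'⟩ : ∃ c' : ℤ, c' = (x.2 : ℤ) := ⟨_, rfl⟩
  have b1 : d < c := by rw [hd, hcd]; exact_mod_cast a1
  have b0 : 0 ≤ d := by rw [hd]; positivity
  have b2 : c * d' = 1 + d * c' := by rw [hd, hcd, hd', hcd']; exact_mod_cast a2
  have hv : vw κ x = ((κ * c + d, c), (κ * c' + d', c')) := by
    unfold vw; rw [hd, hcd, hd', hcd']
  rw [hv, ← hcd, ← hcd']
  have hA := hc.A0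
  have hs0 := hc.pos
  have hB1 := neg_abs_le F.B
  have hB2 := le_abs_self F.B
  have hc0 : 0 < c := by linarith
  have hq : F.q (κ * c + d, c) = P * c ^ 2 + d * (2 * c * (F.A * κ + F.B) + F.A * d) := by
    rw [hc.hP]; unfold Fm.q; ring
  have hcr : cross (κ * c + d, c) (κ * c' + d', c') = -1 := by
    unfold cross; linear_combination -b2
  have hb : F.b (κ * c + d, c) (κ * c' + d', c') * c =
      c' * F.q (κ * c + d, c) + (F.A * (κ * c + d) + F.B * c) := by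
    unfold Fm.b Fm.q
    linear_combination (F.A * (κ * c + d) + F.B * c) * b2
  have hd1 : F.A * d ≤ F.A * c := mul_le_mul_of_nonneg_left b1.le hA.le
  have hd2 : 0 ≤ F.A * d := mul_nonneg hA.le b0
  have hw0 : 0 ≤ 2 * c * (F.A * κ + F.B) + F.A * d := by positivity
  have hw2 : d * (2 * c * (F.A * κ + F.B) + F.A * d) ≤ c * (c * (2 * (F.A * κ + F.B) + F.A)) :=
    mul_le_mul b1.le (by linarith) hw0 hc0.le
  have hw3 : 0 ≤ d * (2 * c * (F.A * κ + F.B) + F.A * d) := mul_nonneg b0 hw0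
  have hw4 : 20 * (2 * (F.A * κ + F.B) + F.A) * c ^ 2 ≤ P * c ^ 2 :=
    mul_le_mul_of_nonneg_right hc.small (sq_nonneg c)
  have he1 : F.A * (κ * c + d) + F.B * c ≤ L * c := by
    rw [hc.hL]
    have : F.B * c ≤ |F.B| * c := mul_le_mul_of_nonneg_right hB2 hc0.le
    linarith
  have he2 : 0 ≤ F.A * (κ * c + d) + F.B * c := by
    have : 0 ≤ (F.A * κ + F.B) * c := mul_nonneg hs0 hc0.le
    linarith
  refine ⟨hcr, ?_, ?_, ?_, ?_⟩
  · rw [hq]; linarith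
  · rw [hq]; linarith
  · rw [hb]; linarith
  · rw [hb]; linarith

lemma mem_bx (μ : Au F) {v : V} {N : ℕ} (h1 : 0 ≤ v.1) (h2 : v.1 ≤ 6 * N) (h3 : 0 ≤ v.2)
    (h4 : v.2 ≤ 6 * N) : v ∈ bx μ (6 * N) := by
  obtain ⟨K, hK⟩ : ∃ K : ℤ, K = (1 + |F.A| + |F.B| + |F.C|) * (1 + |μ.p| + |μ.r|) := ⟨_, rfl⟩
  have hK1 : 1 ≤ K := by
    rw [hK]
    have e1 : 1 ≤ 1 + |F.A| + |F.B| + |F.C| := by linarith [abs_nonneg F.A, abs_nonneg F.B, abs_nonneg F.C, abs_nonneg μ.p, abs_nonneg μ.r]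
    have e2 : 1 ≤ 1 + |μ.p| + |μ.r| := by linarith [abs_nonneg F.A, abs_nonneg F.B, abs_nonneg F.C, abs_nonneg μ.p, abs_nonneg μ.r]
    nlinarith
  unfold bx
  rw [← hK, mem_product, mem_Icc, mem_Icc]
  have hN : (0 : ℤ) ≤ N := Int.natCast_nonneg N
  push_cast
  refine ⟨⟨?_, ?_⟩, ?_, ?_⟩ <;> nlinarith

/-- the coordinates and the cone -/
lemma bounds {μ : Au F} (hc : Cst F μ.p μ.r κ P L) {x : ℕ × ℕ} (hx : 0 < x.1) (hx2 : 0 < x.2)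
    (hcop : Nat.Coprime x.1 x.2) : Cn μ (vw κ x).1 ∧ 0 ≤ (vw κ x).1.1 ∧
      (vw κ x).1.1 ≤ (κ + 1) * x.1 ∧ 0 ≤ (vw κ x).2.1 ∧ (vw κ x).2.1 ≤ (κ + 1) * x.2 := by
  obtain ⟨a1, a2⟩ := Eqd.Low.bz_spec hx hcop
  obtain ⟨d, hd⟩ : ∃ d : ℤ, d = ((Eqd.Low.bz x.1 x.2).1 : ℤ) := ⟨_, rfl⟩
  obtain ⟨d', hd'⟩ : ∃ d' : ℤ, d' = ((Eqd.Low.bz x.1 x.2).2 : ℤ) := ⟨_, rfl⟩
  obtain ⟨c, hcd⟩ : ∃ c : ℤ, c = (x.1 : ℤ) := ⟨_, rfl⟩
  obtain ⟨c', hcd'⟩ : ∃ c' : ℤ, c' = (x.2 : ℤ) := ⟨_, rfl⟩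
  have b1 : d < c := by rw [hd, hcd]; exact_mod_cast a1
  have b0 : 0 ≤ d := by rw [hd]; positivity
  have b0' : 0 ≤ d' := by rw [hd']; positivity
  have b2 : c * d' = 1 + d * c' := by rw [hd, hcd, hd', hcd']; exact_mod_cast a2
  have hc0 : 0 < c := by linarith
  have hc'0 : 0 < c' := by rw [hcd']; exact_mod_cast hx2
  have hv : vw κ x = ((κ * c + d, c), (κ * c' + d', c')) := by
    unfold vw; rw [hd, hcd, hd', hcd']
  have hκ := hc.κ1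
  have hr := μ.rpos
  have hd'c' : d' ≤ c' := by
    have h1 : (d + 1) * c' ≤ c * c' := mul_le_mul_of_nonneg_right (by linarith) hc'0.le
    have h2 : c * d' ≤ c * c' := by linarith
    exact le_of_mul_le_mul_left h2 hc0
  rw [hv, ← hcd, ← hcd']
  refine ⟨⟨hc0.le, ?_⟩, ?_, ?_, ?_, ?_⟩
  · show 0 < (κ * c + d) * μ.r - c * μ.p
    have h1 : 0 < c * (κ * μ.r - μ.p) := mul_pos hc0 (by linarith [hc.cone])
    have h2 : 0 ≤ d * μ.r := mul_nonneg b0 hr.le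
    linarith
  · show 0 ≤ κ * c + d
    have : 0 ≤ κ * c := mul_nonneg (by linarith) hc0.le
    linarith
  · show κ * c + d ≤ (κ + 1) * c
    linarith
  · show 0 ≤ κ * c' + d'
    have : 0 ≤ κ * c' := mul_nonneg (by linarith) hc'0.le
    linarith
  · show κ * c' + d' ≤ (κ + 1) * c'
    linarith

lemma vw_mem {μ : Au F} (hc : Cst F μ.p μ.r κ P L) {Y N : ℕ} (hY : 10 ≤ Y)
    (h1 : 18 * (N : ℝ) ≤ 10 * (P * (Y : ℝ) ^ 2)) (h2 : (P : ℝ) * (Y : ℝ) ^ 2 ≤ 2 * N)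
    (h3 : 100 * (P : ℝ) ≤ N)
    {x : ℕ × ℕ} (hx1 : Y < x.1) (hx1' : (x.1 : ℝ) ≤ 11 / 10 * Y)
    (hx2 : 3 / 4 * (Y : ℝ) < x.2) (hx2' : (x.2 : ℝ) ≤ 3 / 4 * (11 / 10) * Y)
    (hcop : Nat.Coprime x.1 x.2) :
    vw κ x ∈ (G1 μ N).filter (fun x => 2 * F.q x.1 ≤ 3 * F.b x.1 x.2) := by
  have hx0 : 0 < x.1 := by omega
  have hx20 : 0 < x.2 := by
    have h0 : (0 : ℝ) < x.2 := lt_of_le_of_lt (by positivity) hx2
    exact_mod_cast h0
  obtain ⟨s1, s2, s3, s4, s5⟩ := sizes hc hx0 hcop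
  obtain ⟨r1, r2, r3, r4, r5⟩ := bounds hc hx0 hx20 hcop
  obtain ⟨q, hq⟩ : ∃ q : ℝ, q = ((F.q (vw κ x).1 : ℤ) : ℝ) := ⟨_, rfl⟩
  obtain ⟨b, hb⟩ : ∃ b : ℝ, b = ((F.b (vw κ x).1 (vw κ x).2 : ℤ) : ℝ) := ⟨_, rfl⟩
  obtain ⟨c, hcd⟩ : ∃ c : ℝ, c = (x.1 : ℝ) := ⟨_, rfl⟩
  obtain ⟨c', hcd'⟩ : ∃ c' : ℝ, c' = (x.2 : ℝ) := ⟨_, rfl⟩
  obtain ⟨p, hp⟩ : ∃ p : ℝ, p = (P : ℝ) := ⟨_, rfl⟩
  obtain ⟨l, hl⟩ : ∃ l : ℝ, l = (L : ℝ) := ⟨_, rfl⟩
  obtain ⟨y, hy⟩ : ∃ y : ℝ, y = (Y : ℝ) := ⟨_, rfl⟩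
  obtain ⟨n, hn⟩ : ∃ n : ℝ, n = (N : ℝ) := ⟨_, rfl⟩
  have t2 : p * c ^ 2 ≤ q := by rw [hp, hcd, hq]; exact_mod_cast s2
  have t3 : 20 * q ≤ 21 * (p * c ^ 2) := by rw [hp, hcd, hq]; exact_mod_cast s3
  have t4 : c' * q ≤ b * c := by rw [hcd', hcd, hq, hb]; exact_mod_cast s4
  have t5 : b * c ≤ c' * q + l * c := by rw [hcd', hcd, hq, hb, hl]; exact_mod_cast s5
  have u1 : y < c := by rw [hy, hcd]; exact_mod_cast hx1
  rw [← hcd, ← hy] at hx1'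
  rw [← hcd', ← hy] at hx2 hx2'
  rw [← hp, ← hy, ← hn] at h1
  rw [← hp, ← hy, ← hn] at h2
  rw [← hp, ← hn] at h3
  have hl1 : 1 ≤ l := by rw [hl]; exact_mod_cast hc.L0
  have hpl : 20 * l ≤ p := by rw [hp, hl]; exact_mod_cast hc.LP
  have hy10 : 10 ≤ y := by rw [hy]; exact_mod_cast hY
  have hc0 : 0 < c := by linarith
  have hp0 : 0 < p := by linarith
  have hc'0 : 0 < c' := by nlinarith
  have hc2 : 100 ≤ c ^ 2 := by nlinarith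
  have hq1 : 20 * l ≤ q := by
    have e1 : p * 100 ≤ p * c ^ 2 := mul_le_mul_of_nonneg_left hc2 hp0.le
    linarith
  have hq0 : 0 < q := by linarith
  -- `b < q`
  have k1 : b < q := by
    have : b * c < q * c := by
      have e1 : c / 10 * q ≤ (c - c') * q := by
        apply mul_le_mul_of_nonneg_right _ hq0.le
        linarith
      have e2 : l * c < c / 10 * q := by nlinarith
      nlinarith
    exact lt_of_mul_lt_mul_right this hc0.le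
  have k2 : 2 * q ≤ 3 * b := by
    have : 2 * q * c ≤ 3 * b * c := by
      have e1 : 2 * c * q ≤ 3 * c' * q := by
        apply mul_le_mul_of_nonneg_right _ hq0.le
        linarith
      linarith
    exact le_of_mul_le_mul_right this hc0
  have cc1 : 3 / 4 * y ^ 2 ≤ c * c' := by
    calc 3 / 4 * y ^ 2 = y * (3 / 4 * y) := by ring
      _ ≤ c * c' := mul_le_mul u1.le hx2.le (by positivity) hc0.le
  have cc2 : c * c' ≤ 363 / 400 * y ^ 2 := by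
    calc c * c' ≤ (11 / 10 * y) * (3 / 4 * (11 / 10) * y) :=
          mul_le_mul hx1' hx2' hc'0.le (by positivity)
      _ = 363 / 400 * y ^ 2 := by ring
  have k3 : n < b := by
    have e1 : p * (c * c') ≤ b := by
      have : (p * (c * c')) * c ≤ b * c := by
        have : c' * (p * c ^ 2) ≤ c' * q := mul_le_mul_of_nonneg_left t2 hc'0.le
        nlinarith
      exact le_of_mul_le_mul_right this hc0
    have e2 : p * (3 / 4 * y ^ 2) ≤ p * (c * c') := mul_le_mul_of_nonneg_left cc1 hp0.le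
    nlinarith
  have k4 : b ≤ 2 * n := by
    have e1 : b ≤ 21 / 20 * (p * (c * c')) + l := by
      have : b * c ≤ (21 / 20 * (p * (c * c')) + l) * c := by
        have : c' * q ≤ c' * (21 / 20 * (p * c ^ 2)) :=
          mul_le_mul_of_nonneg_left (by linarith) hc'0.le
        nlinarith
      exact le_of_mul_le_mul_right this hc0
    have e2 : p * (c * c') ≤ p * (363 / 400 * y ^ 2) := mul_le_mul_of_nonneg_left cc2 hp0.le
    nlinarith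
  have hcc : c' ≤ c := by linarith
  have hcc' : (x.2 : ℤ) ≤ (x.1 : ℤ) := by
    rw [hcd, hcd'] at hcc
    exact_mod_cast hcc
  rw [hb, hq] at k1 k2
  rw [hb, hn] at k3 k4
  have m1 : F.b (vw κ x).1 (vw κ x).2 < F.q (vw κ x).1 := by exact_mod_cast k1
  have m2 : 2 * F.q (vw κ x).1 ≤ 3 * F.b (vw κ x).1 (vw κ x).2 := by exact_mod_cast k2
  have m3 : (N : ℤ) < F.b (vw κ x).1 (vw κ x).2 := by exact_mod_cast k3
  have m4 : F.b (vw κ x).1 (vw κ x).2 ≤ 2 * N := by exact_mod_cast k4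
  have hN0 : (0 : ℤ) ≤ N := Int.natCast_nonneg N
  -- everything is at most `6 N`
  have hx1z : (1 : ℤ) ≤ x.1 := by exact_mod_cast hx0
  have hx2z : (1 : ℤ) ≤ x.2 := by exact_mod_cast hx20
  have hbig : (κ + 1) * x.1 ≤ 6 * N := by
    have e1 : P * (x.1 : ℤ) ^ 2 ≤ 6 * N := by linarith
    have e2 : (κ + 1) * x.1 ≤ P * x.1 := by
      apply mul_le_mul_of_nonneg_right _ (by linarith)
      linarith [hc.κP, hc.κ1]
    have e3 : P * (x.1 : ℤ) ≤ P * (x.1 : ℤ) ^ 2 := by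
      apply mul_le_mul_of_nonneg_left _ (by linarith [hc.P20])
      nlinarith
    linarith
  have hbig2 : (κ + 1) * x.2 ≤ (κ + 1) * x.1 :=
    mul_le_mul_of_nonneg_left hcc' (by linarith [hc.κ1])
  have hbig3 : 1 * (x.1 : ℤ) ≤ (κ + 1) * x.1 :=
    mul_le_mul_of_nonneg_right (by linarith [hc.κ1]) (by linarith)
  have v2 : (vw κ x).1.2 = (x.1 : ℤ) := rfl
  have w2 : (vw κ x).2.2 = (x.2 : ℤ) := rfl
  rw [mem_filter]
  refine ⟨?_, m2⟩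
  unfold G1
  rw [mem_filter, mem_product]
  refine ⟨⟨mem_bx μ r2 (by linarith) (by rw [v2]; linarith) (by rw [v2]; linarith),
    mem_bx μ r4 (by linarith) (by rw [w2]; linarith) (by rw [w2]; linarith)⟩, r1, s1, m3, m4, m1,
    by linarith⟩

end LowM

open LowM

theorem specLOW : SpecLOW := by
  intro F μ hF
  obtain ⟨κ, P, L, hc⟩ := consts hF.1 (p := μ.p) μ.rpos
  obtain ⟨p, hp⟩ : ∃ p : ℕ, (p : ℤ) = P :=
    ⟨P.toNat, Int.toNat_of_nonneg (by linarith [hc.P20])⟩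
  have hp20 : 20 ≤ p := by
    have : (20 : ℤ) ≤ p := by rw [hp]; exact hc.P20
    exact_mod_cast this
  have hpr : (P : ℝ) = (p : ℝ) := by rw [← hp]; push_cast; rfl
  have hp0 : (0 : ℝ) < p := by
    have : (20 : ℝ) ≤ p := by exact_mod_cast hp20
    linarith
  set t : ℝ := 3 / 4 with ht
  set ρ : ℝ := 11 / 10 with hρ
  set k : ℝ := 1 / 10 with hk
  set K₁ : ℝ := k + t * k + 1 with hK₁
  set K₂ : ℝ := 2 * K₁ * Real.sqrt ρ + ρ with hK₂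
  obtain ⟨Y₀, hY₀⟩ : ∃ Y₀ : ℕ, ∀ Y : ℕ, Y₀ ≤ Y → 32 * K₂ / (t * k ^ 2) ≤ Real.sqrt Y := by
    have hlim : Tendsto (fun Y : ℕ => (Y : ℝ)) atTop atTop := tendsto_natCast_atTop_atTop
    exact eventually_atTop.mp ((Real.tendsto_sqrt_atTop.comp hlim).eventually_ge_atTop _)
  refine ⟨t * k ^ 2 / 32 * (9 / 5 / p), by rw [ht, hk]; positivity, ?_⟩
  filter_upwards [SG.LowM.choose_Y hp20 (Y₀ + 100)] with N hN
  obtain ⟨Y, hYY, g1, g2, g3⟩ := hN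
  have hYr : (100 : ℝ) ≤ Y := by
    have : 100 ≤ Y := by omega
    exact_mod_cast this
  have hcnt := Eqd.Low.count_le (t := t) (ρ := ρ) (κ := k) (K₁ := K₁) (K₂ := K₂)
    (by rw [ht]; norm_num) (by rw [hρ]; norm_num) (by rw [hk, hρ]; norm_num) hK₁ hK₂ (Y := Y)
    (by omega) (by rw [hk]; linarith) (by rw [hk, ht]; linarith) (hY₀ Y (by omega))
  have hcard : ((Ioc Y ⌊ρ * (Y : ℝ)⌋₊ ×ˢ Ioc ⌊t * (Y : ℝ)⌋₊ ⌊t * ρ * (Y : ℝ)⌋₊).filter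
        (fun x => Nat.Coprime x.1 x.2)).card ≤
      ((G1 μ N).filter (fun x => 2 * F.q x.1 ≤ 3 * F.b x.1 x.2)).card := by
    refine card_le_card_of_injOn (vw κ) ?_ ?_
    · intro x hx
      rw [mem_coe, mem_filter, mem_product, mem_Ioc, mem_Ioc] at hx
      obtain ⟨⟨⟨hx1, hx2⟩, hx3, hx4⟩, hx5⟩ := hx
      rw [mem_coe]
      refine vw_mem hc (Y := Y) (by omega) (by rw [hpr]; exact g1)
        (by rw [hpr]; exact g2) (by rw [hpr]; exact g3) hx1 ?_ ?_ ?_ hx5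
      · exact (Nat.cast_le.mpr hx2).trans (Nat.floor_le (by positivity))
      · exact (Nat.floor_lt (by positivity)).mp hx3
      · exact (Nat.cast_le.mpr hx4).trans (Nat.floor_le (by positivity))
    · intro x _ y _ hxy
      exact vw_inj hxy
  have hcard' : (((Ioc Y ⌊ρ * (Y : ℝ)⌋₊ ×ˢ Ioc ⌊t * (Y : ℝ)⌋₊ ⌊t * ρ * (Y : ℝ)⌋₊).filter
        (fun x => Nat.Coprime x.1 x.2)).card : ℝ) ≤
      (((G1 μ N).filter (fun x => 2 * F.q x.1 ≤ 3 * F.b x.1 x.2)).card : ℝ) := by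
    exact_mod_cast hcard
  refine le_trans ?_ (hcnt.trans hcard')
  have e1 : t * k ^ 2 / 32 * (9 / 5 / p) * (N : ℝ) = t * k ^ 2 / 32 * (9 / 5 / p * N) := by ring
  rw [e1]
  apply mul_le_mul_of_nonneg_left _ (by rw [ht, hk]; norm_num)
  have e2 : 9 / 5 / (p : ℝ) * N = (9 / 5 * N) / p := by ring
  rw [e2, div_le_iff₀ hp0]
  linarith [mul_comm (p : ℝ) ((Y : ℝ) ^ 2)]

end

end Pool.Agent.Lib.MP391708.SR
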