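import Pool.Agent.Lib.MP_391708_nt.SR.Spec

/-!
# Group S for indefinite forms: many bad edges, and the seeds
-/

set_option autoImplicit false

namespace Pool.Agent.Lib.MP391708.SR

open Finset Filter Topology
open Pool.Agent.Lib.MP391708.Eqd (V cross)
open Pool.Agent.Lib.MP391708.SG (Fm lam prim)
open scoped Classical

theorem specMIN [MA.Sg] (hCHN : SpecCHN) (hFEJ : SpecFEJ) (hALP : SpecALP) : SpecMIN := by
  rintro F μ hF hP ⟨x, y, hxy, hl⟩
  obtain ⟨C, c, hC, hc, hA⟩ := hALP F μ hF x y hxy hl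
  obtain ⟨K, δ, hK, hδ, hE⟩ := hFEJ F μ hF hP C hC (c / 2) (by positivity)
  obtain ⟨D, c', hD, hL⟩ := hCHN F μ hF C K hC hK
  refine ⟨D, δ / (c' + 1), hD, by positivity, ?_⟩
  filter_upwards [hA, hE, hL, eventually_gt_atTop 0] with X h1 h2 h3 hX
  by_contra hcon
  have hXr : (0 : ℝ) < X := by exact_mod_cast hX
  have h3' : (((ann μ X (C * X) ×ˢ ann μ X (C * X)).filter (fun x =>
      nb μ K x.1 x.2 ∧ F.f x.1 ≠ F.f x.2)).card : ℝ) ≤ c' * ((Eb μ (X / D) (D * X)).card : ℝ) := by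
    exact_mod_cast h3
  have h4 : (c' : ℝ) * ((Eb μ (X / D) (D * X)).card : ℝ) ≤ c' * (δ / (c' + 1) * X) :=
    mul_le_mul_of_nonneg_left (not_le.1 hcon).le (by positivity)
  have h5 : (c' : ℝ) * (δ / (c' + 1) * X) ≤ δ * X := by
    have h6 : (c' : ℝ) * (δ / (c' + 1) * X) = (c' / (c' + 1)) * (δ * X) := by ring
    rw [h6]
    have h7 : (c' : ℝ) / (c' + 1) ≤ 1 := by
      rw [div_le_one (by positivity)]; linarith
    calc (c' : ℝ) / (c' + 1) * (δ * X) ≤ 1 * (δ * X) :=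
          mul_le_mul_of_nonneg_right h7 (by positivity)
      _ = δ * X := one_mul _
  obtain ⟨e, he, h6⟩ := h2 (h3'.trans (h4.trans h5))
  have h7 := h1 e he
  have h8 : c * X ≤ c / 2 * X := h7.trans h6
  nlinarith [mul_pos hc hXr]

theorem specSEED [MA.Sg] (hDYA : SpecDYA) (hMIN : SpecMIN) (hTRI : SpecTRI) (hLOW : SpecLOW) :
    SpecSEED := by
  rintro F μ hF hA hP s ⟨x, y, hxy, hs⟩
  have h1 : s = 1 ∨ s = -1 := by
    rw [← hs]
    exact MA.gs_eq_or _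
  rcases h1 with rfl | rfl
  · exact hTRI F μ hF hA (hLOW F μ hF)
  · exact hDYA F μ hF hA (hMIN F μ hF hP ⟨x, y, hxy, hs⟩)

end Pool.Agent.Lib.MP391708.SR
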