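import Pool.Agent.Lib.MP_391708_nt.SR.Spec
import Pool.Agent.Lib.MP_391708_nt.Eqd.Low

/-!
# PRS: sizes of the annuli, pairs with a given cross product (indefinite forms)
-/

set_option autoImplicit false

namespace Pool.Agent.Lib.MP391708.SR

open Finset Filter Topology
open Pool.Agent.Lib.MP391708.Eqd (V cross)
open Pool.Agent.Lib.MP391708.SG (Fm lam prim)
open scoped Classical

noncomputable section

namespace PRS

/-! ### given cross product -/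

lemma same_cross {v v' v'' : V} (s t : ℤ) (hst : s * v.1 + t * v.2 = 1)
    (hc : cross v v' = cross v v'') :
    v'.1 - v''.1 = (s * (v'.1 - v''.1) + t * (v'.2 - v''.2)) * v.1 ∧
      v'.2 - v''.2 = (s * (v'.1 - v''.1) + t * (v'.2 - v''.2)) * v.2 := by
  unfold cross at hc
  constructor
  · linear_combination (-(v'.1 - v''.1)) * hst - t * hc
  · linear_combination (-(v'.2 - v''.2)) * hst + s * hc

/-- vectors of size `≤ √(B X)` with a given cross product with a primitive vector of size `≥ √(X/c₁)` -/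
lemma card_line {v : V} (hv : prim v) {X B c₁ i : ℤ} (hX : 0 < X) (hB : 0 < B) (hc₁ : 0 < c₁)
    (hvX : X ≤ c₁ * (v.1 ^ 2 + v.2 ^ 2)) (S : Finset V)
    (hS : ∀ w ∈ S, cross v w = i ∧ w.1 ^ 2 + w.2 ^ 2 ≤ B * X) :
    S.card ≤ (8 * B * c₁ + 1).toNat := by
  rcases S.eq_empty_or_nonempty with rfl | ⟨w₀, hw₀⟩
  · simp
  obtain ⟨s, t, hst⟩ := hv
  have hcard : (Icc (-(4 * B * c₁)) (4 * B * c₁)).card = (8 * B * c₁ + 1).toNat := by
    rw [Int.card_Icc]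
    congr 1
    ring
  rw [← hcard]
  have hN0 : 0 < v.1 ^ 2 + v.2 ^ 2 := by
    by_contra h
    push Not at h
    have : c₁ * (v.1 ^ 2 + v.2 ^ 2) ≤ 0 := mul_nonpos_of_nonneg_of_nonpos hc₁.le h
    linarith
  refine card_le_card_of_injOn (fun w => s * (w.1 - w₀.1) + t * (w.2 - w₀.2)) ?_ ?_
  · intro w hw
    obtain ⟨hc, hn⟩ := hS w (mem_coe.1 hw)
    obtain ⟨hc0, hn0⟩ := hS w₀ hw₀
    obtain ⟨e1, e2⟩ := same_cross (v := v) (v' := w) (v'' := w₀) s t hst (hc.trans hc0.symm)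
    rw [mem_coe, mem_Icc]
    simp only
    generalize s * (w.1 - w₀.1) + t * (w.2 - w₀.2) = k at e1 e2
    have h1 : (w.1 - w₀.1) ^ 2 + (w.2 - w₀.2) ^ 2 ≤ 4 * (B * X) := by
      nlinarith [sq_nonneg (w.1 + w₀.1), sq_nonneg (w.2 + w₀.2)]
    rw [e1, e2] at h1
    have h2 : k ^ 2 * (v.1 ^ 2 + v.2 ^ 2) ≤ (4 * B * c₁) * (v.1 ^ 2 + v.2 ^ 2) := by
      have h3 : B * X ≤ B * (c₁ * (v.1 ^ 2 + v.2 ^ 2)) := mul_le_mul_of_nonneg_left hvX hB.le
      nlinarith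
    have h4 : k ^ 2 ≤ 4 * B * c₁ := le_of_mul_le_mul_right h2 hN0
    have hBc : 0 < B * c₁ := mul_pos hB hc₁
    constructor <;> nlinarith [sq_nonneg (k - 1), sq_nonneg (k + 1)]
  · intro w hw w' hw' hk
    simp only at hk
    obtain ⟨hc, -⟩ := hS w (mem_coe.1 hw)
    obtain ⟨hc', -⟩ := hS w' (mem_coe.1 hw')
    obtain ⟨hc0, -⟩ := hS w₀ hw₀
    obtain ⟨e1, e2⟩ := same_cross (v := v) (v' := w) (v'' := w₀) s t hst (hc.trans hc0.symm)
    obtain ⟨e3, e4⟩ := same_cross (v := v) (v' := w') (v'' := w₀) s t hst (hc'.trans hc0.symm)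
    rw [hk] at e1 e2
    refine Prod.ext ?_ ?_
    · linarith
    · linarith

lemma q_le (F : Fm) (v : V) : F.q v ≤ (|F.A| + |F.B| + |F.C|) * (v.1 ^ 2 + v.2 ^ 2) := by
  unfold Fm.q
  have hA := le_abs_self F.A
  have hC := le_abs_self F.C
  have hB1 := le_abs_self F.B
  have hB2 := neg_abs_le F.B
  have hA0 := abs_nonneg F.A
  have hB0 := abs_nonneg F.B
  have hC0 := abs_nonneg F.C
  have h1 : F.A * v.1 ^ 2 ≤ |F.A| * v.1 ^ 2 := mul_le_mul_of_nonneg_right hA (sq_nonneg _)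
  have h2 : F.C * v.2 ^ 2 ≤ |F.C| * v.2 ^ 2 := mul_le_mul_of_nonneg_right hC (sq_nonneg _)
  have h3 : 2 * F.B * v.1 * v.2 ≤ |F.B| * (v.1 ^ 2 + v.2 ^ 2) := by
    have h4 : 0 ≤ (|F.B| - F.B) * (v.1 + v.2) ^ 2 := mul_nonneg (by linarith) (sq_nonneg _)
    have h5 : 0 ≤ (|F.B| + F.B) * (v.1 - v.2) ^ 2 := mul_nonneg (by linarith) (sq_nonneg _)
    nlinarith
  nlinarith [mul_nonneg hA0 (sq_nonneg v.2), mul_nonneg hC0 (sq_nonneg v.1)]

lemma m_le {F : Fm} (μ : Au F) (v : V) : (μ.m v).1 ^ 2 + (μ.m v).2 ^ 2 ≤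
    (μ.p ^ 2 + μ.q ^ 2 + μ.r ^ 2 + μ.s ^ 2) * (v.1 ^ 2 + v.2 ^ 2) := by
  unfold Au.m
  simp only
  nlinarith [sq_nonneg (μ.p * v.2 - μ.q * v.1), sq_nonneg (μ.r * v.2 - μ.s * v.1)]

lemma n_le {F : Fm} (μ : Au F) (v : V) : (μ.n v).1 ^ 2 + (μ.n v).2 ^ 2 ≤
    (μ.p ^ 2 + μ.q ^ 2 + μ.r ^ 2 + μ.s ^ 2) * (v.1 ^ 2 + v.2 ^ 2) := by
  unfold Au.n
  simp only
  nlinarith [sq_nonneg (μ.s * v.2 + μ.q * v.1), sq_nonneg (μ.p * v.1 + μ.r * v.2)]

/-! ### upper bound -/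

lemma card_upper {F : Fm} (μ : Au F) {c : ℤ} (hc : 0 < c)
    (h : ∀ v, Cn μ v → v.1 ^ 2 + v.2 ^ 2 ≤ c * F.q v)
    (hann : ∀ v (X Z : ℕ), v ∈ ann μ X Z ↔ prim v ∧ Cn μ v ∧ (X : ℤ) < F.q v ∧ F.q v ≤ Z)
    (X Z : ℕ) (hZ : 0 < Z) : ((ann μ X Z).card : ℝ) ≤ (9 * (c : ℝ)) * Z := by
  set T : ℕ := c.toNat * Z with hT
  have hTc : ((T : ℕ) : ℤ) = c * Z := by
    rw [hT]; push_cast
    rw [Int.toNat_of_nonneg hc.le]
  have hT1 : 1 ≤ T := by
    have : (1 : ℤ) ≤ (T : ℤ) := by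
      rw [hTc]
      have : (1 : ℤ) ≤ Z := by exact_mod_cast hZ
      nlinarith
    exact_mod_cast this
  set s : ℕ := Nat.sqrt T with hs
  have hs1 : 1 ≤ s := by
    rw [hs]; exact Nat.le_sqrt.2 (by omega)
  have hs2 : s * s ≤ T := Nat.sqrt_le T
  have hsub : ann μ X Z ⊆ Icc (-(s : ℤ)) s ×ˢ Icc (-(s : ℤ)) s := by
    intro v hv
    obtain ⟨-, hcn, -, hv⟩ := (hann v X Z).1 hv
    have h1 := h v hcn
    have h1' : v.1 ^ 2 + v.2 ^ 2 ≤ c * Z := h1.trans (mul_le_mul_of_nonneg_left hv hc.le)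
    have key : ∀ t : ℤ, t ^ 2 ≤ c * Z → t ∈ Icc (-(s : ℤ)) s := by
      intro t ht
      have h2 : t.natAbs * t.natAbs ≤ T := by
        have : ((t.natAbs * t.natAbs : ℕ) : ℤ) ≤ (T : ℤ) := by
          rw [Int.natAbs_mul_self, hTc]
          nlinarith
        exact_mod_cast this
      have h3 : t.natAbs ≤ s := Nat.le_sqrt.2 h2
      rw [mem_Icc]
      omega
    rw [mem_product]
    exact ⟨key _ (by linarith [sq_nonneg v.2]), key _ (by linarith [sq_nonneg v.1])⟩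
  have h1 := card_le_card hsub
  rw [card_product, Int.card_Icc] at h1
  have h2 : ((s : ℤ) + 1 - -(s : ℤ)).toNat = 2 * s + 1 := by omega
  rw [h2] at h1
  have h3 : (2 * s + 1) * (2 * s + 1) ≤ 9 * T := by nlinarith
  have h4 : (ann μ X Z).card ≤ 9 * T := h1.trans h3
  have h5 : ((T : ℕ) : ℝ) = (c : ℝ) * Z := by
    have := congrArg (fun z : ℤ => (z : ℝ)) hTc
    push_cast at this ⊢
    exact this
  calc ((ann μ X Z).card : ℝ) ≤ ((9 * T : ℕ) : ℝ) := by exact_mod_cast h4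
    _ = (9 * (c : ℝ)) * Z := by push_cast; rw [h5]; ring

/-! ### lower bound -/

lemma box_mem {F : Fm} (μ : Au F) (hA : 0 < F.A)
    (hann : ∀ v (X Z : ℕ), v ∈ ann μ X Z ↔ prim v ∧ Cn μ v ∧ (X : ℤ) < F.q v ∧ F.q v ≤ Z)
    {X m K x y : ℕ} (hX0 : 0 < X)
    (h1 : 100 * F.A * (m : ℤ) ^ 2 ≤ X) (h2 : (X : ℤ) < 100 * F.A * ((m : ℤ) + 1) ^ 2)
    (hKB : 100 * |F.B| ≤ K) (hKC : 100 * |F.C| ≤ K) (hKp : 100 * |μ.p| ≤ K) (hK1 : 1 ≤ K)
    (hx1 : 11 * (m + 1) < x) (hx2 : x ≤ 13 * m)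
    (hy : K * y ≤ m) (hcop : Nat.Coprime x y) :
    ((x : ℤ), (y : ℤ)) ∈ ann μ X (2 * X) := by
  have hx1' : 11 * ((m : ℤ) + 1) < x := by exact_mod_cast hx1
  have hx2' : (x : ℤ) ≤ 13 * m := by exact_mod_cast hx2
  have hy' : (K : ℤ) * y ≤ m := by exact_mod_cast hy
  have hm0 : (0 : ℤ) ≤ m := Int.natCast_nonneg m
  have hx0 : (0 : ℤ) ≤ x := Int.natCast_nonneg x
  have hy0 : (0 : ℤ) ≤ y := Int.natCast_nonneg y
  have hK1' : (1 : ℤ) ≤ K := by exact_mod_cast hK1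
  have hB : 100 * (|F.B| * y) ≤ m := by
    have := mul_le_mul_of_nonneg_right hKB hy0
    linarith
  have hCy : 100 * (|F.C| * y) ≤ m := by
    have := mul_le_mul_of_nonneg_right hKC hy0
    linarith
  have hpy : 100 * (|μ.p| * y) ≤ m := by
    have := mul_le_mul_of_nonneg_right hKp hy0
    linarith
  have hym : (y : ℤ) ≤ m := by
    have : (y : ℤ) ≤ K * y := by nlinarith
    linarith
  have hmX : 100 * (m : ℤ) ^ 2 ≤ X := by
    have : 100 * (m : ℤ) ^ 2 ≤ 100 * F.A * (m : ℤ) ^ 2 := by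
      have : 0 ≤ (m : ℤ) ^ 2 := sq_nonneg _
      nlinarith
    linarith
  have hX0' : (0 : ℤ) < X := by exact_mod_cast hX0
  have hBxy : 100 * (|F.B| * (x * y)) ≤ 13 * (m : ℤ) ^ 2 := by
    have : (x : ℤ) * (100 * (|F.B| * y)) ≤ (13 * m) * m :=
      mul_le_mul hx2' hB (by positivity) (by positivity)
    nlinarith
  have hBxy1 : -(|F.B| * (x * y)) ≤ F.B * (x * y) ∧ F.B * (x * y) ≤ |F.B| * (x * y) := by
    have hxy : (0 : ℤ) ≤ x * y := by positivity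
    constructor
    · have := mul_le_mul_of_nonneg_right (neg_abs_le F.B) hxy
      linarith
    · exact mul_le_mul_of_nonneg_right (le_abs_self F.B) hxy
  have hCyy : 100 * (|F.C| * y ^ 2) ≤ (m : ℤ) ^ 2 := by
    have : (y : ℤ) * (100 * (|F.C| * y)) ≤ m * m := mul_le_mul hym hCy (by positivity) hm0
    nlinarith
  have hCyy1 : -(|F.C| * (y : ℤ) ^ 2) ≤ F.C * (y : ℤ) ^ 2 ∧
      F.C * (y : ℤ) ^ 2 ≤ |F.C| * (y : ℤ) ^ 2 := by
    have hyy : (0 : ℤ) ≤ (y : ℤ) ^ 2 := by positivity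
    constructor
    · have := mul_le_mul_of_nonneg_right (neg_abs_le F.C) hyy
      linarith
    · exact mul_le_mul_of_nonneg_right (le_abs_self F.C) hyy
  have hAx1 : 121 * (X : ℤ) ≤ 100 * (F.A * (x : ℤ) ^ 2) := by
    have e1 : (11 * ((m : ℤ) + 1)) ^ 2 ≤ (x : ℤ) ^ 2 := by
      apply pow_le_pow_left₀ (by positivity) hx1'.le
    have e2 : F.A * (11 * ((m : ℤ) + 1)) ^ 2 ≤ F.A * (x : ℤ) ^ 2 :=
      mul_le_mul_of_nonneg_left e1 hA.le
    nlinarith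
  have hAx2 : 100 * (F.A * (x : ℤ) ^ 2) ≤ 169 * X := by
    have e1 : (x : ℤ) ^ 2 ≤ (13 * (m : ℤ)) ^ 2 := pow_le_pow_left₀ hx0 hx2' 2
    have e2 : F.A * (x : ℤ) ^ 2 ≤ F.A * (13 * (m : ℤ)) ^ 2 := mul_le_mul_of_nonneg_left e1 hA.le
    nlinarith
  rw [hann]
  have hqe : F.q ((x : ℤ), (y : ℤ)) = F.A * (x : ℤ) ^ 2 + 2 * (F.B * (x * y)) +
      F.C * (y : ℤ) ^ 2 := by
    unfold Fm.q; ring
  rw [hqe]
  refine ⟨?_, ⟨hy0, ?_⟩, ?_, ?_⟩
  · exact Nat.isCoprime_iff_coprime.2 hcop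
  · have hr := μ.rpos
    have e1 : μ.p * y ≤ |μ.p| * y := mul_le_mul_of_nonneg_right (le_abs_self _) hy0
    have e2 : (x : ℤ) ≤ x * μ.r := by nlinarith
    have e3 : cross ((x : ℤ), (y : ℤ)) μ.e = x * μ.r - y * μ.p := by
      unfold cross Au.e
      ring
    rw [e3]
    nlinarith
  · linarith [hBxy1.1, hCyy1.1]
  · push_cast
    linarith [hBxy1.2, hCyy1.2]

lemma real_bound {m K : ℝ} (hK : 1 ≤ K) (hm : (592 * K) ^ 2 ≤ m) (P Q R : ℝ)
    (hP : m ≤ P) (hP2 : P ≤ 2 * m) (hQ : m / (2 * K) ≤ Q) (hQ2 : Q ≤ m)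
    (hR : R ≤ 3 / 4 * P * Q + (P + Q) * (2 * Real.sqrt (13 * m)) + 13 * m) :
    m ^ 2 / (16 * K) ≤ P * Q - R := by
  have hK0 : 0 < K := by linarith
  have hm1 : 1 ≤ m := by nlinarith
  have hm0 : 0 < m := by linarith
  have hs0 : 0 ≤ Real.sqrt m := Real.sqrt_nonneg m
  have hs : Real.sqrt m * Real.sqrt m = m := Real.mul_self_sqrt hm0.le
  have hs1 : 592 * K ≤ Real.sqrt m := by
    have := Real.sqrt_le_sqrt hm
    rwa [Real.sqrt_sq (by positivity)] at this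
  have h13 : Real.sqrt (13 * m) ≤ 4 * Real.sqrt m := by
    rw [Real.sqrt_mul (by norm_num)]
    refine mul_le_mul_of_nonneg_right ?_ hs0
    rw [Real.sqrt_le_left (by norm_num)]
    norm_num
  have hs1' : 1 ≤ Real.sqrt m := by nlinarith
  have hPQ : m * (m / (2 * K)) ≤ P * Q :=
    mul_le_mul hP hQ (by positivity) (by linarith)
  have hPQ2 : (P + Q) * (2 * Real.sqrt (13 * m)) ≤ (3 * m) * (2 * (4 * Real.sqrt m)) := by
    refine mul_le_mul (by linarith) (by linarith) (by positivity) (by positivity)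
  have hmm : 13 * m ≤ 13 * (m * Real.sqrt m) := by nlinarith
  have hfin : 37 * (m * Real.sqrt m) ≤ m ^ 2 / (16 * K) := by
    rw [le_div_iff₀ (by positivity)]
    have : m * Real.sqrt m * (592 * K) ≤ m * Real.sqrt m * Real.sqrt m :=
      mul_le_mul_of_nonneg_left hs1 (by positivity)
    calc 37 * (m * Real.sqrt m) * (16 * K) = m * Real.sqrt m * (592 * K) := by ring
      _ ≤ m * Real.sqrt m * Real.sqrt m := this
      _ = m ^ 2 := by rw [mul_assoc, hs]; ring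
  have h8 : m * (m / (2 * K)) = 8 * (m ^ 2 / (16 * K)) := by
    field_simp
    ring
  rw [h8] at hPQ
  have : 0 ≤ m ^ 2 / (16 * K) := by positivity
  nlinarith

theorem card_lower {F : Fm} (μ : Au F) (hA : 0 < F.A)
    (hann : ∀ v (X Z : ℕ), v ∈ ann μ X Z ↔ prim v ∧ Cn μ v ∧ (X : ℤ) < F.q v ∧ F.q v ≤ Z) :
    ∃ c : ℝ, 0 < c ∧ ∀ᶠ X : ℕ in atTop, c * X ≤ ((ann μ X (2 * X)).card : ℝ) := by
  obtain ⟨A, hAe⟩ : ∃ A : ℕ, (A : ℤ) = F.A := ⟨F.A.toNat, Int.toNat_of_nonneg hA.le⟩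
  have hA0 : 0 < A := by
    have : (0 : ℤ) < (A : ℤ) := by rw [hAe]; exact hA
    exact_mod_cast this
  set K : ℕ := 100 * (F.B.natAbs + F.C.natAbs + μ.p.natAbs + 1) with hK
  have hK1 : 1 ≤ K := by omega
  have hB0 := abs_nonneg F.B
  have hC0 := abs_nonneg F.C
  have hp0 := abs_nonneg μ.p
  have hKB : 100 * |F.B| ≤ (K : ℤ) := by
    rw [hK]; push_cast
    linarith
  have hKC : 100 * |F.C| ≤ (K : ℤ) := by
    rw [hK]; push_cast
    linarith
  have hKp : 100 * |μ.p| ≤ (K : ℤ) := by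
    rw [hK]; push_cast
    linarith
  refine ⟨1 / (16 * K) / (400 * A), by positivity, ?_⟩
  filter_upwards [eventually_ge_atTop (100 * A * ((592 * K) ^ 2 * (592 * K) ^ 2))] with X hX
  set m : ℕ := Nat.sqrt (X / (100 * A)) with hm
  have hmM : (592 * K) ^ 2 ≤ m := by
    rw [hm, Nat.le_sqrt, Nat.le_div_iff_mul_le (by positivity)]
    nlinarith
  have hm1 : 592 * K ≤ m := by nlinarith
  have hmm : m * m ≤ X / (100 * A) := Nat.sqrt_le _
  have h1 : 100 * A * (m * m) ≤ X := by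
    have := (Nat.le_div_iff_mul_le (by positivity)).1 hmm
    nlinarith
  have h2 : X < 100 * A * ((m + 1) * (m + 1)) := by
    have h3 : X / (100 * A) < (m + 1) * (m + 1) := Nat.lt_succ_sqrt _
    have := (Nat.div_lt_iff_lt_mul (by positivity)).1 h3
    nlinarith
  have hX0 : 0 < X := by
    have : 0 < 100 * A * (m * m) := by
      have : 0 < m := by omega
      positivity
    omega
  have h1' : 100 * F.A * (m : ℤ) ^ 2 ≤ X := by
    rw [← hAe]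
    have : ((100 * A * (m * m) : ℕ) : ℤ) ≤ X := by exact_mod_cast h1
    push_cast at this
    nlinarith
  have h2' : (X : ℤ) < 100 * F.A * ((m : ℤ) + 1) ^ 2 := by
    rw [← hAe]
    have : (X : ℤ) < ((100 * A * ((m + 1) * (m + 1)) : ℕ) : ℤ) := by exact_mod_cast h2
    push_cast at this
    nlinarith
  -- the injection
  set Bx := Ioc (11 * (m + 1)) (13 * m) ×ˢ Ioc 0 (m / K) with hBx
  have hinj : (Bx.filter (fun x => Nat.Coprime x.1 x.2)).card ≤ (ann μ X (2 * X)).card := by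
    refine card_le_card_of_injOn (fun x => ((x.1 : ℤ), (x.2 : ℤ))) ?_ ?_
    · intro x hx
      rw [mem_coe, mem_filter, hBx, mem_product, mem_Ioc, mem_Ioc] at hx
      obtain ⟨⟨⟨a1, a2⟩, a3, a4⟩, a5⟩ := hx
      refine box_mem (K := K) μ hA hann hX0 h1' h2' hKB hKC hKp hK1 a1 a2 ?_ a5
      exact (Nat.mul_le_mul_left K a4).trans (Nat.mul_div_le m K)
    · intro x _ y _ hxy
      simp only [Prod.mk.injEq, Nat.cast_inj] at hxy
      exact Prod.ext hxy.1 hxy.2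
  have hsplit : (Bx.filter (fun x => Nat.Coprime x.1 x.2)).card +
      (Bx.filter (fun x => ¬ Nat.Coprime x.1 x.2)).card = Bx.card :=
    card_filter_add_card_filter_not _
  have hcard : Bx.card = (13 * m - 11 * (m + 1)) * (m / K) := by
    rw [hBx, card_product, Nat.card_Ioc, Nat.card_Ioc, Nat.sub_zero]
  have hR := Eqd.Low.card_noncop (11 * (m + 1)) (13 * m) 0 (m / K)
  rw [Nat.sub_zero] at hR
  have hKR : (1 : ℝ) ≤ (K : ℝ) := by exact_mod_cast hK1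
  have hdiv : (m : ℝ) / (2 * K) ≤ ((m / K : ℕ) : ℝ) := by
    have e1 : m < K * (m / K) + K := by
      have := Nat.div_add_mod m K
      have := Nat.mod_lt m (show 0 < K by omega)
      omega
    have e2 : (m : ℝ) < K * ((m / K : ℕ) : ℝ) + K := by exact_mod_cast e1
    rw [div_le_iff₀ (by positivity)]
    have e3 : (592 * (K : ℝ)) ≤ m := by exact_mod_cast hm1
    nlinarith
  have key := real_bound (m := m) (K := K) hKR (by exact_mod_cast hmM)
    (((13 * m - 11 * (m + 1) : ℕ) : ℝ)) (((m / K : ℕ) : ℝ))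
    (((Bx.filter (fun x => ¬ Nat.Coprime x.1 x.2)).card : ℝ))
    (by
      have : m ≤ 13 * m - 11 * (m + 1) := by omega
      exact_mod_cast this)
    (by
      have : 13 * m - 11 * (m + 1) ≤ 2 * m := by omega
      exact_mod_cast this)
    hdiv
    (by exact_mod_cast Nat.div_le_self m K)
    (by
      have e := hR
      push_cast at e ⊢
      exact e)
  have hsplit' : ((Bx.filter (fun x => Nat.Coprime x.1 x.2)).card : ℝ) =
      ((13 * m - 11 * (m + 1) : ℕ) : ℝ) * ((m / K : ℕ) : ℝ) -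
        ((Bx.filter (fun x => ¬ Nat.Coprime x.1 x.2)).card : ℝ) := by
    have := hsplit
    rw [hcard] at this
    have h3 : (((Bx.filter (fun x => Nat.Coprime x.1 x.2)).card +
      (Bx.filter (fun x => ¬ Nat.Coprime x.1 x.2)).card : ℕ) : ℝ) =
        (((13 * m - 11 * (m + 1)) * (m / K) : ℕ) : ℝ) := by rw [this]
    push_cast at h3 ⊢
    linarith
  rw [← hsplit'] at key
  have hXm : (X : ℝ) ≤ 400 * A * (m : ℝ) ^ 2 := by
    have e1 : X ≤ 400 * A * (m * m) := by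
      have : (m + 1) * (m + 1) ≤ 4 * (m * m) := by nlinarith
      have := Nat.mul_le_mul_left (100 * A) this
      nlinarith
    have e2 : (X : ℝ) ≤ ((400 * A * (m * m) : ℕ) : ℝ) := by exact_mod_cast e1
    push_cast at e2
    nlinarith
  have hfin : 1 / (16 * K) / (400 * A) * (X : ℝ) ≤ (m : ℝ) ^ 2 / (16 * K) := by
    have hA0' : (0 : ℝ) < A := by exact_mod_cast hA0
    have : 1 / (16 * K) / (400 * A) * (X : ℝ) ≤ 1 / (16 * K) / (400 * A) * (400 * A * (m : ℝ) ^ 2) :=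
      mul_le_mul_of_nonneg_left hXm (by positivity)
    refine this.trans (le_of_eq ?_)
    field_simp
  refine hfin.trans (key.trans ?_)
  exact_mod_cast hinj

end PRS

theorem specPRS [MA.Sg] (hBAS : SpecBAS) : SpecPRS := by
  intro F μ hF
  obtain ⟨-, -, -, -, ⟨c, hc, hsq⟩, hann, -⟩ := hBAS F μ hF
  refine ⟨PRS.card_lower μ hF.1 hann, ⟨9 * (c : ℝ), ?_, fun X Z hZ =>
    PRS.card_upper μ hc hsq hann X Z hZ⟩, ?_⟩
  · have : (0 : ℝ) < (c : ℝ) := by exact_mod_cast hc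
    positivity
  intro C hC
  obtain ⟨c₁, hc₁⟩ : ∃ c₁ : ℤ, c₁ = |F.A| + |F.B| + |F.C| := ⟨_, rfl⟩
  obtain ⟨M, hM⟩ : ∃ M : ℤ, M = μ.p ^ 2 + μ.q ^ 2 + μ.r ^ 2 + μ.s ^ 2 + 1 := ⟨_, rfl⟩
  have hM0 : 1 ≤ M := by
    rw [hM]
    nlinarith [sq_nonneg μ.p, sq_nonneg μ.q, sq_nonneg μ.r, sq_nonneg μ.s]
  have hc₁0 : 0 < c₁ := by
    rw [hc₁]
    have := abs_pos.2 hF.1.ne'
    have := abs_nonneg F.B
    have := abs_nonneg F.C
    linarith
  have hC0 : (0 : ℤ) < C := by exact_mod_cast hC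
  obtain ⟨B, hB⟩ : ∃ B : ℤ, B = c * C * M := ⟨_, rfl⟩
  have hcC : 0 < c * C := mul_pos hc hC0
  have hB0 : 0 < B := by rw [hB]; positivity
  refine ⟨(8 * B * c₁ + 1).toNat, fun X hX i v hv => ?_⟩
  obtain ⟨hp, -, hXv, -⟩ := (hann v X (C * X)).1 hv
  have hX0 : (0 : ℤ) < X := by exact_mod_cast hX
  have hvX : (X : ℤ) ≤ c₁ * (v.1 ^ 2 + v.2 ^ 2) := by
    rw [hc₁]
    exact hXv.le.trans (PRS.q_le F v)
  have hsize : ∀ w ∈ ann μ X (C * X), w.1 ^ 2 + w.2 ^ 2 ≤ c * C * X := by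
    intro w hw
    obtain ⟨-, hcn, -, hwZ⟩ := (hann w X (C * X)).1 hw
    refine (hsq w hcn).trans ?_
    push_cast at hwZ
    calc c * F.q w ≤ c * (C * X) := mul_le_mul_of_nonneg_left hwZ hc.le
      _ = c * C * X := by ring
  have hcCX : 0 < c * C * X := mul_pos hcC hX0
  refine ⟨?_, ?_, ?_⟩
  · refine PRS.card_line (i := i) hp hX0 hB0 hc₁0 hvX _ fun w hw => ?_
    rw [mem_filter] at hw
    refine ⟨hw.2, (hsize w hw.1).trans ?_⟩
    rw [hB]
    nlinarith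
  · rw [← card_image_of_injective _ μ.E.injective]
    refine PRS.card_line (i := i) hp hX0 hB0 hc₁0 hvX _ fun w hw => ?_
    rw [mem_image] at hw
    obtain ⟨w', hw', rfl⟩ := hw
    rw [mem_filter] at hw'
    refine ⟨hw'.2, ?_⟩
    have e : μ.E w' = μ.m w' := rfl
    rw [e]
    have h1 := PRS.m_le μ w'
    have h2 := hsize w' hw'.1
    have h3 : (μ.p ^ 2 + μ.q ^ 2 + μ.r ^ 2 + μ.s ^ 2) * (w'.1 ^ 2 + w'.2 ^ 2) ≤
        M * (c * C * X) := by
      refine mul_le_mul (by rw [hM]; linarith) h2 (by positivity) (by linarith)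
    rw [hB]
    nlinarith
  · have hn : Function.Injective μ.n := μ.E.symm.injective
    rw [← card_image_of_injective _ hn]
    refine PRS.card_line (i := i) hp hX0 hB0 hc₁0 hvX _ fun w hw => ?_
    rw [mem_image] at hw
    obtain ⟨w', hw', rfl⟩ := hw
    rw [mem_filter] at hw'
    refine ⟨hw'.2, ?_⟩
    have h1 := PRS.n_le μ w'
    have h2 := hsize w' hw'.1
    have h3 : (μ.p ^ 2 + μ.q ^ 2 + μ.r ^ 2 + μ.s ^ 2) * (w'.1 ^ 2 + w'.2 ^ 2) ≤
        M * (c * C * X) := by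
      refine mul_le_mul (by rw [hM]; linarith) h2 (by positivity) (by linarith)
    rw [hB]
    nlinarith

end

end Pool.Agent.Lib.MP391708.SR
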