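import Pool.Agent.Lib.MP_391708_nt.SR.LOG

/-!
# Reduction to the cone
-/

set_option autoImplicit false

namespace Pool.Agent.Lib.MP391708.SR

open Finset Filter Topology
open Pool.Agent.Lib.MP391708.Eqd (V cross)
open Pool.Agent.Lib.MP391708.SG (Fm lam prim)
open Pool.Agent.Lib.MP391708.MA (Sg)

namespace RD

variable {F : Fm} (μ : Au F)

/-- the permutations preserving `cross`, `b` and `Pos` -/
def G (F : Fm) : Subgroup (Equiv.Perm V) where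
  carrier := {g | (∀ v w, cross (g v) (g w) = cross v w) ∧ (∀ v w, F.b (g v) (g w) = F.b v w) ∧
    ∀ v, Pos F (g v) ↔ Pos F v}
  mul_mem' := by
    rintro g g' ⟨h1, h2, h3⟩ ⟨h1', h2', h3'⟩
    refine ⟨fun v w => ?_, fun v w => ?_, fun v => ?_⟩
    · rw [Equiv.Perm.mul_apply, Equiv.Perm.mul_apply, h1, h1']
    · rw [Equiv.Perm.mul_apply, Equiv.Perm.mul_apply, h2, h2']
    · rw [Equiv.Perm.mul_apply, h3, h3']
  one_mem' := ⟨fun v w => rfl, fun v w => rfl, fun v => Iff.rfl⟩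
  inv_mem' := by
    rintro g ⟨h1, h2, h3⟩
    have hg : ∀ v, g (g⁻¹ v) = v := fun v => g.apply_symm_apply v
    refine ⟨fun v w => ?_, fun v w => ?_, fun v => ?_⟩
    · rw [← h1 (g⁻¹ v) (g⁻¹ w), hg, hg]
    · rw [← h2 (g⁻¹ v) (g⁻¹ w), hg, hg]
    · rw [← h3 (g⁻¹ v), hg]

lemma E_apply (v : V) : μ.E v = μ.m v := rfl

lemma E_mem (h : Idf F) : μ.E ∈ G F := by
  refine ⟨fun v w => ?_, fun v w => ?_, fun v => ?_⟩
  · rw [E_apply, E_apply, LG.cross_m]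
  · rw [E_apply, E_apply, LG.b_m]
  · rw [E_apply, LG.pos_m μ h]

lemma zpow_mem (h : Idf F) (j : ℤ) : μ.E ^ j ∈ G F := (G F).zpow_mem (E_mem μ h) j

lemma prim_iff (v : V) : prim v ↔ ∃ w : V, cross v w = 1 := by
  unfold prim
  constructor
  · rintro ⟨a, b, hab⟩
    refine ⟨(-b, a), ?_⟩
    simp only [cross]
    linarith
  · rintro ⟨w, hw⟩
    refine ⟨w.2, -w.1, ?_⟩
    simp only [cross] at hw
    linarith

lemma ratio_zpow (h : Idf F) (v : V) (hv : Pos F v) (j : ℤ) :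
    x1 F ((μ.E ^ j) v) / x2 F ((μ.E ^ j) v) = (x1 F μ.e / x2 F μ.e) ^ j * (x1 F v / x2 F v) := by
  have hR : (0 : ℝ) < x1 F μ.e / x2 F μ.e := zero_lt_one.trans (LG.one_lt_R μ h)
  induction j using Int.induction_on with
  | zero => simp
  | succ i ih =>
    have hp : Pos F ((μ.E ^ (i : ℤ)) v) := ((zpow_mem μ h i).2.2 v).2 hv
    have h1 : (μ.E ^ ((i : ℤ) + 1)) v = μ.m ((μ.E ^ (i : ℤ)) v) := by
      rw [add_comm, zpow_add, zpow_one]; rfl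
    rw [h1, LG.ratio_m μ h _ hp, ih, zpow_add₀ hR.ne', zpow_one]
    ring
  | pred i ih =>
    have hp : Pos F ((μ.E ^ (-(i : ℤ) - 1)) v) := ((zpow_mem μ h _).2.2 v).2 hv
    have h1 : (μ.E ^ (-(i : ℤ))) v = μ.m ((μ.E ^ (-(i : ℤ) - 1)) v) := by
      have : (μ.E ^ (-(i : ℤ))) = μ.E * (μ.E ^ (-(i : ℤ) - 1)) := by
        rw [← zpow_one_add]
        congr 1
        ring
      rw [this]; rfl
    have h2 := LG.ratio_m μ h _ hp
    rw [← h1, ih] at h2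
    rw [zpow_sub_one₀ hR.ne', ← inv_mul_cancel_left₀ hR.ne'
      (x1 F ((μ.E ^ (-(i : ℤ) - 1)) v) / x2 F ((μ.E ^ (-(i : ℤ) - 1)) v)), ← h2]
    ring

lemma exists_cn (h : Idf F) (v : V) (hv : Pos F v) : ∃ j : ℤ, Cn μ ((μ.E ^ j) v) := by
  have hR1 := LG.one_lt_R μ h
  have hR : (0 : ℝ) < x1 F μ.e / x2 F μ.e := zero_lt_one.trans hR1
  obtain ⟨h1, h2⟩ := (LG.pos_iff h v).1 hv
  obtain ⟨n, hn1, hn2⟩ := exists_mem_Ico_zpow (div_pos h1 h2) hR1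
  refine ⟨-n, ?_⟩
  have hp : Pos F ((μ.E ^ (-n)) v) := ((zpow_mem μ h _).2.2 v).2 hv
  rw [LG.cn_iff μ h _ hp, ratio_zpow μ h v hv, zpow_neg]
  have hRn : (0 : ℝ) < (x1 F μ.e / x2 F μ.e) ^ n := zpow_pos hR n
  constructor
  · rw [inv_mul_eq_div, one_le_div hRn]
    exact hn1
  · rw [inv_mul_eq_div, div_lt_iff₀ hRn]
    rw [zpow_add_one₀ hR.ne'] at hn2
    linarith [mul_comm ((x1 F μ.e / x2 F μ.e) ^ n) (x1 F μ.e / x2 F μ.e)]

lemma cn_uniq (h : Idf F) (v : V) (i j : ℤ) (hi : Cn μ ((μ.E ^ i) v)) (hj : Cn μ ((μ.E ^ j) v)) :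
    i = j := by
  have hR1 := LG.one_lt_R μ h
  have hR : (0 : ℝ) < x1 F μ.e / x2 F μ.e := zero_lt_one.trans hR1
  have hv : Pos F v := ((zpow_mem μ h i).2.2 v).1 (LG.cn_pos μ h _ hi)
  have hpi : Pos F ((μ.E ^ i) v) := ((zpow_mem μ h _).2.2 v).2 hv
  have hpj : Pos F ((μ.E ^ j) v) := ((zpow_mem μ h _).2.2 v).2 hv
  rw [LG.cn_iff μ h _ hpi, ratio_zpow μ h v hv] at hi
  rw [LG.cn_iff μ h _ hpj, ratio_zpow μ h v hv] at hj
  obtain ⟨h1, h2⟩ := (LG.pos_iff h v).1 hv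
  have ht : 0 < x1 F v / x2 F v := div_pos h1 h2
  set R := x1 F μ.e / x2 F μ.e with hRdef
  set t := x1 F v / x2 F v with htdef
  have key : ∀ i j : ℤ, 1 ≤ R ^ i * t → R ^ j * t < R → j ≤ i := by
    intro i j h1 h2
    have h3 : R ^ j * t < R ^ (i + 1) * t := by
      rw [zpow_add_one₀ hR.ne']
      calc R ^ j * t < R := h2
        _ = 1 * R := (one_mul _).symm
        _ ≤ (R ^ i * t) * R := mul_le_mul_of_nonneg_right h1 hR.le
        _ = _ := by ring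
    have h4 : R ^ j < R ^ (i + 1) := lt_of_mul_lt_mul_right h3 ht.le
    have h5 := (zpow_lt_zpow_iff_right₀ hR1).1 h4
    omega
  have := key i j hi.1 hj.2
  have := key j i hj.1 hi.2
  omega

end RD

variable [Sg]

/-- RED -/
theorem specRED : SpecRED := by
  intro F μ h
  have hq : ∀ (j : ℤ) (v : V), F.q ((μ.E ^ j) v) = F.q v := fun j v => by
    rw [← LG.b_self, ← LG.b_self, (RD.zpow_mem μ h j).2.1]
  refine ⟨fun j v w => (RD.zpow_mem μ h j).1 v w, fun j v w => (RD.zpow_mem μ h j).2.1 v w,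
    hq, fun j v => ?_, fun j v hv => ?_, fun j v hv => ((RD.zpow_mem μ h j).2.2 v).2 hv,
    fun v hv => RD.exists_cn μ h v hv, fun v i j hi hj => RD.cn_uniq μ h v i j hi hj⟩
  · simp only [Fm.f]
    rw [hq]
  · rw [RD.prim_iff] at hv ⊢
    obtain ⟨w, hw⟩ := hv
    exact ⟨(μ.E ^ j) w, by rw [(RD.zpow_mem μ h j).1, hw]⟩

end Pool.Agent.Lib.MP391708.SR
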