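import Pool.Agent.Lib.MP_391708_nt.SR.SM

/-!
# Module TRI: the triangle gives seeds with the sign `+1` (indefinite forms)
-/

set_option autoImplicit false

namespace Pool.Agent.Lib.MP391708.SR

open Finset Filter Topology
open Pool.Agent.Lib.MP391708.Eqd (V cross)
open Pool.Agent.Lib.MP391708.SG (Fm lam prim)
open scoped Classical

namespace TRIM

lemma cross_left (v w : V) : cross (v + w) w = cross v w := by
  simp only [cross, Prod.fst_add, Prod.snd_add]; ring

lemma cross_right (v w : V) : cross (v + w) v = -cross v w := by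
  simp only [cross, Prod.fst_add, Prod.snd_add]; ring

lemma b_left (F : Fm) (v w : V) : F.b (v + w) w = F.b v w + F.q w := by
  simp only [Fm.b, Fm.q, Prod.fst_add, Prod.snd_add]; ring

lemma b_right (F : Fm) (v w : V) : F.b (v + w) v = F.q v + F.b v w := by
  simp only [Fm.b, Fm.q, Prod.fst_add, Prod.snd_add]; ring

lemma q_add (F : Fm) (v w : V) : F.q (v + w) = F.q v + 2 * F.b v w + F.q w := by
  simp only [Fm.b, Fm.q, Prod.fst_add, Prod.snd_add]; ring

/-- three maps, injective on `S` -/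
lemma three {α : Type} [DecidableEq α] (S U : Finset α) (g₁ g₂ : α → α)
    (h₁ : Set.InjOn g₁ S) (h₂ : Set.InjOn g₂ S)
    (h : ∀ x ∈ S, x ∈ U ∨ g₁ x ∈ U ∨ g₂ x ∈ U) : S.card ≤ 3 * U.card := by
  have hsub : S ⊆ U ∪ (S.filter (fun x => g₁ x ∈ U) ∪ S.filter (fun x => g₂ x ∈ U)) := by
    intro x hx
    rw [mem_union, mem_union, mem_filter, mem_filter]
    rcases h x hx with h' | h' | h'
    · exact Or.inl h'
    · exact Or.inr (Or.inl ⟨hx, h'⟩)
    · exact Or.inr (Or.inr ⟨hx, h'⟩)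
  have c₁ : (S.filter (fun x => g₁ x ∈ U)).card ≤ U.card :=
    Finset.card_le_card_of_injOn g₁ (fun x hx => (mem_filter.1 hx).2)
      (h₁.mono (fun x hx => (mem_filter.1 hx).1))
  have c₂ : (S.filter (fun x => g₂ x ∈ U)).card ≤ U.card :=
    Finset.card_le_card_of_injOn g₂ (fun x hx => (mem_filter.1 hx).2)
      (h₂.mono (fun x hx => (mem_filter.1 hx).1))
  have c₃ := card_le_card hsub
  have c₄ := card_union_le U (S.filter (fun x => g₁ x ∈ U) ∪ S.filter (fun x => g₂ x ∈ U))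
  have c₅ := card_union_le (S.filter (fun x => g₁ x ∈ U)) (S.filter (fun x => g₂ x ∈ U))
  omega

/-- the sizes in the triangle -/
lemma sizes {N a b p r : ℤ} (ha : a < 0) (haN : -(4 * a) ≤ N) (h1 : N < b) (h3 : b < p)
    (h4 : 2 * p ≤ 3 * b) (hr : 0 < r) (hpr : p * r = b ^ 2 + a) : b < 2 * r ∧ r ≤ b := by
  have hb : 0 < b := by linarith
  constructor
  · by_contra h
    push Not at h
    nlinarith
  · by_contra h
    push Not at h
    nlinarith

end TRIM

theorem specTRI [MA.Sg] (hBAS : SpecBAS) (hRED : SpecRED) : SpecTRI := by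
  intro F μ hF hAmb hlow
  obtain ⟨hmul, hCP, -, hPw, -, -, hG1, -, hf, -, hlam⟩ := hBAS F μ hF
  obtain ⟨hEc, hEb, hEq, -, -, hEP, hex, huq⟩ := hRED F μ hF
  obtain ⟨t, ht⟩ := hAmb
  obtain ⟨c, hc, hev⟩ := hlow
  have ht' : F.A * t = 2 * F.B := ht.symm
  have ha : F.a < 0 := hF.2.1
  have hA0 : F.A ≠ 0 := hF.1.ne'
  -- the power which moves to the cone
  choose! J hJ using hex
  have hE0 : ∀ v : V, (μ.E ^ (0 : ℤ)) v = v := fun v => by rw [zpow_zero]; rfl
  have huq' : ∀ (v v' : V) (i j : ℤ), Cn μ v → Cn μ v' → (μ.E ^ i) v = (μ.E ^ j) v' →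
      i = j ∧ v = v' := by
    intro v v' i j hv hv' h
    have h1 : v = (μ.E ^ (-i + j)) v' := by
      rw [zpow_add, Equiv.Perm.mul_apply, ← h, ← Equiv.Perm.mul_apply, ← zpow_add,
        neg_add_cancel, zpow_zero]
      rfl
    have h2 : -i + j = 0 := huq v' (-i + j) 0 (by rw [← h1]; exact hv) (by rw [hE0]; exact hv')
    refine ⟨by omega, ?_⟩
    rw [h1, h2, hE0]
  -- the maps
  obtain ⟨g₁, hg₁⟩ : ∃ g : V × V → V × V, g = fun x =>
      ((μ.E ^ J (x.1 + x.2)) (x.1 + x.2), (μ.E ^ J (x.1 + x.2)) x.2) := ⟨_, rfl⟩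
  obtain ⟨g₂, hg₂⟩ : ∃ g : V × V → V × V, g = fun x =>
      ((μ.E ^ J (sg t (x.1 + x.2))) (sg t (x.1 + x.2)),
        (μ.E ^ J (sg t (x.1 + x.2))) (sg t x.1)) := ⟨_, rfl⟩
  have i₁ : ∀ x x' : V × V, Cn μ x.1 → Cn μ x'.1 → g₁ x = g₁ x' → x = x' := by
    rintro ⟨v, w⟩ ⟨v', w'⟩ hv hv' h
    simp only at hv hv'
    simp only [hg₁, Prod.mk.injEq] at h
    obtain ⟨e1, e2⟩ := h
    generalize J (v + w) = i at e1 e2
    generalize J (v' + w') = j at e1 e2
    rw [μ.E_add, μ.E_add, e2] at e1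
    obtain ⟨rfl, rfl⟩ := huq' v v' i j hv hv' (add_right_cancel e1)
    rw [(μ.E ^ i).injective e2]
  have i₂ : ∀ x x' : V × V, Cn μ x.1 → Cn μ x'.1 → g₂ x = g₂ x' → x = x' := by
    rintro ⟨v, w⟩ ⟨v', w'⟩ hv hv' h
    simp only at hv hv'
    simp only [hg₂, Prod.mk.injEq] at h
    obtain ⟨e1, e2⟩ := h
    generalize J (sg t (v + w)) = i at e1 e2
    generalize J (sg t (v' + w')) = j at e1 e2
    have e3 : (μ.E ^ (-i)) v = (μ.E ^ (-j)) v' := by
      apply sg_inj t
      rw [μ.sg_E hA0 ht', μ.sg_E hA0 ht', neg_neg, neg_neg]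
      exact e2
    obtain ⟨e4, rfl⟩ := huq' v v' (-i) (-j) hv hv' e3
    have e5 : i = j := by omega
    subst e5
    have e6 := sg_inj t ((μ.E ^ i).injective e1)
    rw [add_left_cancel e6]
  obtain ⟨P, hP⟩ : ∃ P : ℕ → Finset (V × V), P = fun M =>
      (G1 μ M).filter (fun x => lam (F.b x.1 x.2 ^ 2 + F.a) = 1) := ⟨_, rfl⟩
  have hPm : ∀ (M : ℕ) (v w : V), (v, w) ∈ P M ↔ (Cn μ v ∧ cross v w = -1 ∧ (M : ℤ) < F.b v w ∧
      F.b v w ≤ 2 * M ∧ F.b v w < F.q v ∧ F.q v ≤ 3 * F.b v w) ∧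
        lam (F.b v w ^ 2 + F.a) = 1 := by
    intro M v w
    rw [hP, mem_filter, hG1]
  have key : ∀ N : ℕ, 4 * F.a.natAbs ≤ N →
      ((G1 μ N).filter (fun x => 2 * F.q x.1 ≤ 3 * F.b x.1 x.2)).card ≤
        3 * (P N ∪ (P (2 * N) ∪ P (4 * N))).card := by
    intro N hN
    have haN : -(4 * F.a) ≤ N := by omega
    have hS : ∀ x ∈ (G1 μ N).filter (fun x => 2 * F.q x.1 ≤ 3 * F.b x.1 x.2), Cn μ x.1 := by
      intro x hx
      rw [mem_filter, hG1] at hx
      exact hx.1.1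
    refine TRIM.three _ _ g₁ g₂ (fun x hx x' hx' h => i₁ x x' (hS x hx) (hS x' hx') h)
      (fun x hx x' hx' h => i₂ x x' (hS x hx) (hS x' hx') h) ?_
    rintro ⟨v, w⟩ hx
    rw [mem_filter, hG1] at hx
    obtain ⟨⟨hcn, hcr, hb1, hb2, hq1, -⟩, hq2⟩ := hx
    simp only at hcn hcr hb1 hb2 hq1 hq2
    have hb0 : 0 < F.b v w := by
      have : (0 : ℤ) ≤ N := Int.natCast_nonneg N
      linarith
    have hvP := hCP v hcn
    have hpr : F.q v * F.q w = F.b v w ^ 2 + F.a := by rw [hmul, hcr]; ring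
    have hr : 0 < F.q w := by
      have h1 : 0 < F.b v w ^ 2 + F.a := by nlinarith
      rw [← hpr] at h1
      exact (pos_iff_pos_of_mul_pos h1).1 hvP.1
    have hwP := hPw v w hvP hr hb0
    have huP := pos_add hvP hwP hb0
    have hsP := pos_sg ht' huP
    obtain ⟨hr1, hr2⟩ := TRIM.sizes ha haN hb1 hq1 hq2 hr hpr
    have l1 := hlam v w (Or.inr hcr)
    have hcr1 : cross (v + w) w = -1 := by rw [TRIM.cross_left, hcr]
    have hcr2 : cross (v + w) v = 1 := by rw [TRIM.cross_right, hcr]; norm_num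
    have l2 := hlam (v + w) w (Or.inr hcr1)
    have l3 := hlam (v + w) v (Or.inl hcr2)
    have hb3 := TRIM.b_left F v w
    have hb4 := TRIM.b_right F v w
    have hq3 := TRIM.q_add F v w
    have cases : lam (F.b v w ^ 2 + F.a) = 1 ∨ lam (F.b (v + w) w ^ 2 + F.a) = 1 ∨
        lam (F.b (v + w) v ^ 2 + F.a) = 1 := by
      rw [← l1, ← l2, ← l3]
      rcases hf v with e1 | e1 <;> rcases hf w with e2 | e2 <;> rcases hf (v + w) with e3 | e3 <;>
        simp [e1, e2, e3]
    rcases cases with hl | hl | hl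
    · left
      rw [mem_union, hPm]
      left
      exact ⟨⟨hcn, hcr, hb1, hb2, hq1, by linarith⟩, hl⟩
    · right; left
      have c1 := hJ _ huP
      rw [hg₁, mem_union, mem_union]
      simp only
      generalize J (v + w) = j at c1 ⊢
      have e1 := hEb j (v + w) w
      have e2 := hEq j (v + w)
      have e3 : cross ((μ.E ^ j) (v + w)) ((μ.E ^ j) w) = -1 := by rw [hEc, hcr1]
      by_cases hle : F.b (v + w) w ≤ 2 * N
      · left
        rw [hPm, e1, e2]
        exact ⟨⟨c1, e3, by linarith, hle, by linarith, by linarith⟩, hl⟩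
      · right; left
        push Not at hle
        rw [hPm, e1, e2]
        push_cast
        exact ⟨⟨c1, e3, by linarith, by linarith, by linarith, by linarith⟩, hl⟩
    · right; right
      have c1 := hJ _ hsP
      rw [hg₂, mem_union, mem_union]
      simp only
      generalize J (sg t (v + w)) = j at c1 ⊢
      have e1 : F.b ((μ.E ^ j) (sg t (v + w))) ((μ.E ^ j) (sg t v)) = F.b (v + w) v := by
        rw [hEb, b_sg ht']
      have e2 : F.q ((μ.E ^ j) (sg t (v + w))) = F.q (v + w) := by rw [hEq, q_sg ht']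
      have e3 : cross ((μ.E ^ j) (sg t (v + w))) ((μ.E ^ j) (sg t v)) = -1 := by
        rw [hEc, cross_sg, hcr2]
      by_cases hle : F.b (v + w) v ≤ 4 * N
      · right; left
        rw [hPm, e1, e2]
        push_cast
        exact ⟨⟨c1, e3, by linarith, by linarith, by linarith, by linarith⟩, hl⟩
      · right; right
        push Not at hle
        rw [hPm, e1, e2]
        push_cast
        exact ⟨⟨c1, e3, by linarith, by linarith, by linarith, by linarith⟩, hl⟩
  refine ⟨8, c / 36, by norm_num, by positivity, ?_⟩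
  obtain ⟨N₁, hN₁⟩ := eventually_atTop.1 hev
  refine eventually_atTop.2 ⟨4 * (N₁ + 4 * F.a.natAbs + 1), fun N hN => ?_⟩
  obtain ⟨M, hM⟩ : ∃ M : ℕ, M = N / 4 := ⟨_, rfl⟩
  have hM1 : N₁ ≤ M := by omega
  have hM2 : 4 * F.a.natAbs ≤ M := by omega
  have hM3 : 4 * M ≤ N := by omega
  have hM4 : N ≤ 8 * M := by omega
  have h1 := hN₁ M hM1
  have h2 := key M hM2
  have h3 := card_union_le (P M) (P (2 * M) ∪ P (4 * M))
  have h4 := card_union_le (P (2 * M)) (P (4 * M))
  have h5 : c * M ≤ 3 * (((P M).card : ℝ) + (P (2 * M)).card + (P (4 * M)).card) := by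
    refine le_trans h1 ?_
    have : ((G1 μ M).filter (fun x => 2 * F.q x.1 ≤ 3 * F.b x.1 x.2)).card ≤
        3 * ((P M).card + (P (2 * M)).card + (P (4 * M)).card) := by omega
    exact_mod_cast this
  have hcM : 0 ≤ c * M := by positivity
  have goal : c * M / 9 ≤ (P M).card ∨ c * M / 9 ≤ (P (2 * M)).card ∨
      c * M / 9 ≤ (P (4 * M)).card := by
    by_contra h
    push Not at h
    obtain ⟨a1, a2, a3⟩ := h
    linarith
  have fin : ∀ k : ℕ, 1 ≤ k → k ≤ 4 → c * M / 9 ≤ ((P (k * M)).card : ℝ) →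
      ∃ N' : ℕ, N ≤ 8 * N' ∧ N' ≤ N ∧ c / 36 * N' ≤
        (((G1 μ N').filter (fun x => lam (F.b x.1 x.2 ^ 2 + F.a) = 1)).card : ℝ) := by
    intro k hk1 hk4 hk
    refine ⟨k * M, ?_, ?_, ?_⟩
    · nlinarith
    · nlinarith
    · rw [hP] at hk
      refine le_trans ?_ hk
      push_cast
      have hk' : (k : ℝ) ≤ 4 := by exact_mod_cast hk4
      have : c / 36 * (k * M) = k * (c * M) / 36 := by ring
      rw [this]
      nlinarith
  rcases goal with h | h | h
  · exact fin 1 le_rfl (by norm_num) (by rw [one_mul]; exact h)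
  · exact fin 2 (by norm_num) (by norm_num) h
  · exact fin 4 (by norm_num) le_rfl h

end Pool.Agent.Lib.MP391708.SR
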