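import Pool.Agent.Lib.MP_391708_nt.SR.BAS
import Pool.Agent.Lib.MP_391708_nt.SR.RED
import Pool.Agent.Lib.MP_391708_nt.SR.LOG
import Pool.Agent.Lib.MP_391708_nt.SR.CHN
import Pool.Agent.Lib.MP_391708_nt.SR.PRS
import Pool.Agent.Lib.MP_391708_nt.SR.FEJ
import Pool.Agent.Lib.MP_391708_nt.SR.ALP
import Pool.Agent.Lib.MP_391708_nt.SR.MIN
import Pool.Agent.Lib.MP_391708_nt.SR.DYA
import Pool.Agent.Lib.MP_391708_nt.SR.TRI
import Pool.Agent.Lib.MP_391708_nt.SR.LOW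
import Pool.Agent.Lib.MP_391708_nt.SR.BRI
import Pool.Agent.Lib.MP_391708_nt.MAR.Main

/-!
# Group S for indefinite forms: the seeds, every sign taken by `x² + a y² > 0`
-/

set_option autoImplicit false

namespace Pool.Agent.Lib.MP391708.SR

open Finset Filter Topology
open Pool.Agent.Lib.MP391708.Eqd (V cross)
open Pool.Agent.Lib.MP391708.SG (Fm lam prim)
open Pool.Agent.Lib.MP391708.MA (Sg gs qn)
open scoped Classical

theorem seed [Sg] : SpecSEED :=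
  specSEED (specDYA specBAS specRED)
    (specMIN (specCHN specBAS specRED) (specFEJ specBAS specRED specLOG (specPRS specBAS))
      (specALP specBAS specRED (specPRS specBAS)))
    (specTRI specBAS specRED) specLOW

/-- **The seeds**, from the mean square over the ideals of the real quadratic field: for every
non-square `k` and every completely multiplicative sign function. -/
theorem seeds_of [Sg] (hM : MAR.SpecMAR) {k : ℕ} (hk : ¬ IsSquare k) : ∃ (F : Fm) (μ : Au F),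
    Idf F ∧ F.a = -(k : ℤ) ∧
    ∀ s : ℤ, (∃ x y : ℤ, 0 < x ^ 2 + F.a * y ^ 2 ∧ lam (x ^ 2 + F.a * y ^ 2) = s) →
      ∃ (T : ℕ) (c : ℝ), 0 < T ∧ 0 < c ∧ ∀ᶠ N : ℕ in atTop, ∃ N' : ℕ, N ≤ T * N' ∧ N' ≤ N ∧
        c * N' ≤ (((G1 μ N').filter (fun x => lam (F.b x.1 x.2 ^ 2 + F.a) = s)).card : ℝ) := by
  obtain ⟨b, c, g, e, s, t, hg, h4, hts, hs, ht, he, h1, h⟩ := hM k hk
  obtain ⟨F, μ, hF, hA, hFa, hP⟩ := specBRI specBAS b c g e s t k hk hg h4 hts hs ht he h1 h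
  exact ⟨F, μ, hF, hFa, seed F μ hF hA hP⟩

/-- **The seeds**: for every non-square `k` and every completely multiplicative sign function. -/
theorem seeds [Sg] {k : ℕ} (hk : ¬ IsSquare k) : ∃ (F : Fm) (μ : Au F),
    Idf F ∧ F.a = -(k : ℤ) ∧
    ∀ s : ℤ, (∃ x y : ℤ, 0 < x ^ 2 + F.a * y ^ 2 ∧ lam (x ^ 2 + F.a * y ^ 2) = s) →
      ∃ (T : ℕ) (c : ℝ), 0 < T ∧ 0 < c ∧ ∀ᶠ N : ℕ in atTop, ∃ N' : ℕ, N ≤ T * N' ∧ N' ≤ N ∧
        c * N' ≤ (((G1 μ N').filter (fun x => lam (F.b x.1 x.2 ^ 2 + F.a) = s)).card : ℝ) :=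
  seeds_of MAR.specMAR hk

end Pool.Agent.Lib.MP391708.SR
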