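import Pool.Agent.Lib.MP_391708_nt.SR.Spec

/-!
# The improper automorphism `v ↦ (v₁ + t v₂, -v₂)`, `A t = 2 B`, and the powers of `μ`
-/

set_option autoImplicit false

namespace Pool.Agent.Lib.MP391708.SR

open Pool.Agent.Lib.MP391708.Eqd (V cross)
open Pool.Agent.Lib.MP391708.SG (Fm)

/-- the improper automorphism -/
def sg (t : ℤ) (v : V) : V := (v.1 + t * v.2, -v.2)

lemma sg_sg (t : ℤ) (v : V) : sg t (sg t v) = v := by
  unfold sg
  ext
  · simp only; ring
  · simp only; ring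

lemma sg_inj (t : ℤ) : Function.Injective (sg t) := fun v w h => by
  rw [← sg_sg t v, h, sg_sg]

/-- as a permutation -/
def sgE (t : ℤ) : Equiv.Perm V := ⟨sg t, sg t, sg_sg t, sg_sg t⟩

lemma sg_add (t : ℤ) (v w : V) : sg t (v + w) = sg t v + sg t w := by
  unfold sg
  ext
  · simp only [Prod.fst_add, Prod.snd_add]; ring
  · simp only [Prod.snd_add]; ring

lemma cross_sg (t : ℤ) (v w : V) : cross (sg t v) (sg t w) = -cross v w := by
  unfold sg cross
  ring

lemma b_sg {F : Fm} {t : ℤ} (h : F.A * t = 2 * F.B) (v w : V) :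
    F.b (sg t v) (sg t w) = F.b v w := by
  unfold sg Fm.b
  simp only
  linear_combination (v.1 * w.2 + v.2 * w.1 + t * v.2 * w.2) * h

lemma q_sg {F : Fm} {t : ℤ} (h : F.A * t = 2 * F.B) (v : V) : F.q (sg t v) = F.q v := by
  unfold sg Fm.q
  simp only
  linear_combination (2 * v.1 * v.2 + t * v.2 ^ 2) * h

lemma pos_sg {F : Fm} {t : ℤ} (h : F.A * t = 2 * F.B) {v : V} (hv : Pos F v) :
    Pos F (sg t v) := by
  refine ⟨by rw [q_sg h]; exact hv.1, ?_⟩
  have e : F.A * (sg t v).1 + F.B * (sg t v).2 = F.A * v.1 + F.B * v.2 := by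
    unfold sg
    simp only
    linear_combination v.2 * h
  rw [e]
  exact hv.2

lemma pos_add {F : Fm} {v w : V} (hv : Pos F v) (hw : Pos F w) (hb : 0 < F.b v w) :
    Pos F (v + w) := by
  refine ⟨?_, ?_⟩
  · have e : F.q (v + w) = F.q v + 2 * F.b v w + F.q w := by
      simp only [Fm.b, Fm.q, Prod.fst_add, Prod.snd_add]; ring
    rw [e]
    have h1 := hv.1
    have h2 := hw.1
    linarith
  · simp only [Prod.fst_add, Prod.snd_add]
    have h1 := hv.2
    have h2 := hw.2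
    linarith

namespace Au

variable {F : Fm} (μ : Au F)

/-- the entries of an automorphism -/
lemma ent : F.A * (μ.s - μ.p) = 2 * F.B * μ.r ∧ F.A * μ.q = -F.C * μ.r := by
  have h1 := μ.inv (1, 0) (1, 0)
  have h2 := μ.inv (1, 0) (0, 1)
  have hd := μ.det
  simp only [Fm.b] at h1 h2
  constructor
  · linear_combination μ.r * h2 - μ.s * h1 + (F.A * μ.p + F.B * μ.r) * hd
  · linear_combination (-μ.q) * h1 + μ.p * h2 - (F.B * μ.p + F.C * μ.r) * hd

lemma sg_m {t : ℤ} (hA : F.A ≠ 0) (h : F.A * t = 2 * F.B) (v : V) :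
    sg t (μ.m v) = μ.n (sg t v) := by
  have hs : μ.s = μ.p + t * μ.r := by
    have h1 := μ.ent.1
    have h2 : F.A * (μ.s - μ.p - t * μ.r) = 0 := by linear_combination h1 - μ.r * h
    rcases mul_eq_zero.1 h2 with h3 | h3
    · exact absurd h3 hA
    · linear_combination h3
  unfold sg m n
  ext
  · simp only
    linear_combination (-v.1) * hs
  · simp only
    linear_combination (-v.2) * hs

/-- `s μ^j = μ^(-j) s` -/
lemma sg_E {t : ℤ} (hA : F.A ≠ 0) (h : F.A * t = 2 * F.B) (j : ℤ) (v : V) :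
    sg t ((μ.E ^ j) v) = (μ.E ^ (-j)) (sg t v) := by
  have h1 : sgE t * μ.E * (sgE t)⁻¹ = μ.E⁻¹ := by
    rw [mul_inv_eq_iff_eq_mul]
    ext1 w
    exact μ.sg_m hA h w
  have h2 : sgE t * μ.E ^ j = μ.E ^ (-j) * sgE t := by
    rw [zpow_neg, ← inv_zpow, ← h1, conj_zpow, inv_mul_cancel_right]
  exact congrArg (fun g : Equiv.Perm V => g v) h2

lemma m_add (v w : V) : μ.m (v + w) = μ.m v + μ.m w := by
  unfold m
  ext
  · simp only [Prod.fst_add, Prod.snd_add]; ring
  · simp only [Prod.fst_add, Prod.snd_add]; ring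

lemma n_add (v w : V) : μ.n (v + w) = μ.n v + μ.n w := by
  unfold n
  ext
  · simp only [Prod.fst_add, Prod.snd_add]; ring
  · simp only [Prod.fst_add, Prod.snd_add]; ring

/-- the powers of `μ` are additive -/
lemma E_add (j : ℤ) (v w : V) : (μ.E ^ j) (v + w) = (μ.E ^ j) v + (μ.E ^ j) w := by
  have hn : ∀ (k : ℕ) (v w : V), (μ.E ^ k) (v + w) = (μ.E ^ k) v + (μ.E ^ k) w := by
    intro k
    induction k with
    | zero => intro v w; simp
    | succ k ih =>
      intro v w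
      rw [pow_succ, Equiv.Perm.mul_apply, Equiv.Perm.mul_apply, Equiv.Perm.mul_apply]
      have : μ.E (v + w) = μ.E v + μ.E w := μ.m_add v w
      rw [this, ih]
  have hn' : ∀ (k : ℕ) (v w : V), (μ.E⁻¹ ^ k) (v + w) = (μ.E⁻¹ ^ k) v + (μ.E⁻¹ ^ k) w := by
    intro k
    induction k with
    | zero => intro v w; simp
    | succ k ih =>
      intro v w
      rw [pow_succ, Equiv.Perm.mul_apply, Equiv.Perm.mul_apply, Equiv.Perm.mul_apply]
      have : μ.E⁻¹ (v + w) = μ.E⁻¹ v + μ.E⁻¹ w := μ.n_add v w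
      rw [this, ih]
  rcases Int.eq_nat_or_neg j with ⟨k, rfl | rfl⟩
  · rw [zpow_natCast]
    exact hn k v w
  · rw [zpow_neg, zpow_natCast, ← inv_pow]
    exact hn' k v w

end Au

end Pool.Agent.Lib.MP391708.SR
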