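import Pool.Agent.Lib.MP_391708_nt.SG.Spec
import Pool.Agent.Lib.MP_391708_nt.MAR.Defs

/-!
# Both signs on a positive proportion of the critical pairs, indefinite forms (`n² - k`)

`F = (A, 2B, C)` with `A > 0` and determinant `a = A C - B² < 0`, `-a` not a square; `q`, `b`, `f` are
those of `SG/Spec.lean`: `q v * q w = (b v w)² + a (cross v w)²`.  `μ : Au F` is a proper automorphism,
`Cn μ` the half-open rational cone between `(1, 0)` and `μ (1, 0)`, a fundamental domain of the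
component `Pos` of `q > 0`.  A critical pair: `x.1` in the cone, `cross = ± 1`, `b < q x.1 ≤ 3 b`.
The only input is `PRIN F μ` (frequencies `k ≠ 0`).

Module `XXX` = `SR/XXX.lean`, theorem `Pool.Agent.Lib.MP391708.SR.specXXX : SpecXXX`.
-/

set_option autoImplicit false

namespace Pool.Agent.Lib.MP391708.SR

open Finset Filter Topology
open Pool.Agent.Lib.MP391708.Eqd (V cross)
open Pool.Agent.Lib.MP391708.SG (Fm lam prim)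
open scoped Classical

noncomputable section

variable [MA.Sg]

/-! ## Definitions -/

/-- indefinite, `A > 0`, `-a` not a square -/
def Idf (F : Fm) : Prop := 0 < F.A ∧ F.a < 0 ∧ ¬ IsSquare (-F.a)

/-- a proper automorphism; `(p, r)`, the image of `(1, 0)`, is above `(1, 0)` in the same component of
`q > 0` -/
structure Au (F : Fm) where
  p : ℤ
  q : ℤ
  r : ℤ
  s : ℤ
  det : p * s - q * r = 1
  inv : ∀ v w : V, F.b (p * v.1 + q * v.2, r * v.1 + s * v.2)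
    (p * w.1 + q * w.2, r * w.1 + s * w.2) = F.b v w
  rpos : 0 < r
  bpos : 0 < F.A * p + F.B * r

namespace Au

variable {F : Fm} (μ : Au F)

/-- the automorphism -/
def m (v : V) : V := (μ.p * v.1 + μ.q * v.2, μ.r * v.1 + μ.s * v.2)

/-- its inverse -/
def n (v : V) : V := (μ.s * v.1 - μ.q * v.2, μ.p * v.2 - μ.r * v.1)

/-- the automorphism as a permutation; its powers are `μ.E ^ j` -/
def E : Equiv.Perm V where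
  toFun := μ.m
  invFun := μ.n
  left_inv := by
    intro v
    have h := μ.det
    ext
    · simp only [m, n]; linear_combination v.1 * h
    · simp only [m, n]; linear_combination v.2 * h
  right_inv := by
    intro v
    have h := μ.det
    ext
    · simp only [m, n]; linear_combination v.1 * h
    · simp only [m, n]; linear_combination v.2 * h

/-- the image of `(1, 0)` -/
def e : V := (μ.p, μ.r)

end Au

/-- the component of `q > 0` containing `(1, 0)` -/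
def Pos (F : Fm) (v : V) : Prop := 0 < F.q v ∧ 0 < F.A * v.1 + F.B * v.2

/-- the half-open cone between `(1, 0)` and `e` -/
def Cn {F : Fm} (μ : Au F) (v : V) : Prop := 0 ≤ v.2 ∧ 0 < cross v μ.e

/-- a box containing all `v` in the cone with `q v ≤ Z`, and all `w` with `|cross v w| = 1`,
`0 < b v w < q v` -/
def bx {F : Fm} (μ : Au F) (Z : ℕ) : Finset V :=
  Icc (-((1 + |F.A| + |F.B| + |F.C|) * (1 + |μ.p| + |μ.r|) * (Z + 1)))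
      ((1 + |F.A| + |F.B| + |F.C|) * (1 + |μ.p| + |μ.r|) * (Z + 1)) ×ˢ
    Icc (-((1 + |F.A| + |F.B| + |F.C|) * (1 + |μ.p| + |μ.r|) * (Z + 1)))
      ((1 + |F.A| + |F.B| + |F.C|) * (1 + |μ.p| + |μ.r|) * (Z + 1))

/-- the primitive vectors of the cone with `X < q v ≤ Z` -/
def ann {F : Fm} (μ : Au F) (X Z : ℕ) : Finset V :=
  (bx μ Z).filter (fun v => prim v ∧ Cn μ v ∧ (X : ℤ) < F.q v ∧ F.q v ≤ Z)

/-- the critical pairs with `N < b ≤ 2 N`, `cross = -1` -/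
def G1 {F : Fm} (μ : Au F) (N : ℕ) : Finset (V × V) :=
  (bx μ (6 * N) ×ˢ bx μ (6 * N)).filter (fun x => Cn μ x.1 ∧
    cross x.1 x.2 = -1 ∧ (N : ℤ) < F.b x.1 x.2 ∧ F.b x.1 x.2 ≤ 2 * N ∧
      F.b x.1 x.2 < F.q x.1 ∧ F.q x.1 ≤ 3 * F.b x.1 x.2)

/-- the bad edges: critical pairs of both orientations with different signs, `Y < b`, `q ≤ Z` -/
def Eb {F : Fm} (μ : Au F) (Y Z : ℕ) : Finset (V × V) :=
  (bx μ Z ×ˢ bx μ Z).filter (fun x => Cn μ x.1 ∧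
    (cross x.1 x.2 = -1 ∨ cross x.1 x.2 = 1) ∧ (Y : ℤ) < F.b x.1 x.2 ∧
      F.b x.1 x.2 < F.q x.1 ∧ F.q x.1 ≤ 3 * F.b x.1 x.2 ∧ F.q x.1 ≤ Z ∧ F.f x.1 ≠ F.f x.2)

/-- the coordinates: `A q v = x1 v * x2 v` -/
def x1 (F : Fm) (v : V) : ℝ :=
  ((F.A * v.1 + F.B * v.2 : ℤ) : ℝ) + Real.sqrt (((-F.a : ℤ) : ℝ)) * (v.2 : ℝ)

def x2 (F : Fm) (v : V) : ℝ :=
  ((F.A * v.1 + F.B * v.2 : ℤ) : ℝ) - Real.sqrt (((-F.a : ℤ) : ℝ)) * (v.2 : ℝ)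

/-- the direction of `v`, `exp (2 π i log (x1 v / x2 v) / log R)`, `R = x1 e / x2 e` -/
def dir {F : Fm} (μ : Au F) (v : V) : ℂ := MAR.ph (x1 F μ.e / x2 F μ.e) (x1 F v / x2 F v)

/-- the input: mean square of the sums with frequencies `0 < |k| ≤ X / H` -/
def PRIN {F : Fm} (μ : Au F) : Prop := ∀ (C : ℕ) (ε : ℝ), 0 < ε → ∃ H₀ : ℕ, ∀ H : ℕ, H₀ ≤ H →
  0 < H → ∀ᶠ X : ℕ in atTop,
    ∑ k ∈ (Icc (-((X / H : ℕ) : ℤ)) ((X / H : ℕ) : ℤ)).filter (fun k => k ≠ 0),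
      ‖∑ v ∈ ann μ X (C * X), (F.f v : ℂ) * dir μ v ^ k‖ ^ 2 ≤ ε * (X : ℝ) ^ 2

/-- ambiguous (true for multiples of norm forms): `v ↦ (v₁ + t v₂, -v₂)`, `A t = 2 B`, is an improper
automorphism fixing `(1, 0)` -/
def Amb (F : Fm) : Prop := F.A ∣ 2 * F.B

/-- close: `v'`, `m v'` or `n v'` has a small cross product with `v` -/
def nb {F : Fm} (μ : Au F) (K : ℕ) (v v' : V) : Prop :=
  |cross v v'| ≤ K ∨ |cross v (μ.m v')| ≤ K ∨ |cross v (μ.n v')| ≤ K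

/-! ## Basic facts -/

/-- BAS. Identities; `Pos` is a convex cone, `b > 0` on it; membership in the boxes:
`v = α (1, 0) + β e` with `α = cross v e / r`, `β = v.2 / r`, `q v ≥ A (α² + β²)`;
`q v w = b v w • v + cross v w • (-B v₁ - C v₂, A v₁ + B v₂)`. -/
def SpecBAS : Prop := ∀ (F : Fm) (μ : Au F), Idf F →
  (∀ v w, F.q v * F.q w = F.b v w ^ 2 + F.a * cross v w ^ 2) ∧
  (∀ v, Cn μ v → Pos F v) ∧ (∀ v w, Pos F v → Pos F w → 0 < F.b v w) ∧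
  (∀ v w, Pos F v → 0 < F.q w → 0 < F.b v w → Pos F w) ∧
  (∃ c : ℤ, 0 < c ∧ ∀ v, Cn μ v → v.1 ^ 2 + v.2 ^ 2 ≤ c * F.q v) ∧
  (∀ v (X Z : ℕ), v ∈ ann μ X Z ↔ prim v ∧ Cn μ v ∧ (X : ℤ) < F.q v ∧ F.q v ≤ Z) ∧
  (∀ x (N : ℕ), x ∈ G1 μ N ↔ Cn μ x.1 ∧ cross x.1 x.2 = -1 ∧ (N : ℤ) < F.b x.1 x.2 ∧
      F.b x.1 x.2 ≤ 2 * N ∧ F.b x.1 x.2 < F.q x.1 ∧ F.q x.1 ≤ 3 * F.b x.1 x.2) ∧
  (∀ x (Y Z : ℕ), x ∈ Eb μ Y Z ↔ Cn μ x.1 ∧ (cross x.1 x.2 = -1 ∨ cross x.1 x.2 = 1) ∧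
      (Y : ℤ) < F.b x.1 x.2 ∧ F.b x.1 x.2 < F.q x.1 ∧ F.q x.1 ≤ 3 * F.b x.1 x.2 ∧
      F.q x.1 ≤ Z ∧ F.f x.1 ≠ F.f x.2) ∧
  (∀ v, F.f v = 1 ∨ F.f v = -1) ∧ (∀ v, F.f (-v) = F.f v) ∧
  (∀ v w, cross v w = 1 ∨ cross v w = -1 → F.f v * F.f w = lam (F.b v w ^ 2 + F.a))

/-- RED. Reduction to the cone: `μ = α + β √(-a)` acts on `x1`, `x2` by `α ± β √(-a)`, `α, β > 0`. -/
def SpecRED : Prop := ∀ (F : Fm) (μ : Au F), Idf F →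
  (∀ (j : ℤ) (v w : V), cross ((μ.E ^ j) v) ((μ.E ^ j) w) = cross v w) ∧
  (∀ (j : ℤ) (v w : V), F.b ((μ.E ^ j) v) ((μ.E ^ j) w) = F.b v w) ∧
  (∀ (j : ℤ) (v : V), F.q ((μ.E ^ j) v) = F.q v) ∧ (∀ (j : ℤ) (v : V), F.f ((μ.E ^ j) v) = F.f v) ∧
  (∀ (j : ℤ) (v : V), prim v → prim ((μ.E ^ j) v)) ∧
  (∀ (j : ℤ) (v : V), Pos F v → Pos F ((μ.E ^ j) v)) ∧
  (∀ v : V, Pos F v → ∃ j : ℤ, Cn μ ((μ.E ^ j) v)) ∧
  (∀ (v : V) (i j : ℤ), Cn μ ((μ.E ^ i) v) → Cn μ ((μ.E ^ j) v) → i = j)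

/-- LOG. The logarithms: `x1`, `x2` are positive on `Pos`, `R > 1`, `x1 v x2 w = A (b - √(-a) cross)`,
the automorphism multiplies `x1 / x2` by `R`, and `1 ≤ x1 / x2 < R` on the cone. -/
def SpecLOG : Prop := ∀ (F : Fm) (μ : Au F), Idf F →
  1 < x1 F μ.e / x2 F μ.e ∧ (∀ v, Pos F v → 0 < x1 F v ∧ 0 < x2 F v) ∧
  (∀ v, x1 F v * x2 F v = ((F.A * F.q v : ℤ) : ℝ)) ∧
  (∀ v w, x1 F v * x2 F w = (F.A : ℝ) * (((F.b v w : ℤ) : ℝ) -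
    Real.sqrt (((-F.a : ℤ) : ℝ)) * ((cross v w : ℤ) : ℝ))) ∧
  (∀ v, Pos F v → x1 F (μ.m v) / x2 F (μ.m v) = x1 F μ.e / x2 F μ.e * (x1 F v / x2 F v)) ∧
  (∀ v, Pos F v → (Cn μ v ↔ 1 ≤ x1 F v / x2 F v ∧ x1 F v / x2 F v < x1 F μ.e / x2 F μ.e))

/-! ## Close pairs -/

/-- CHN (from BAS, RED; port of `SG/Chain.lean`, `SG/CHN.lean`). The pair `(v, w)`,
`w = v', m v', n v'`, is joined by edges in the triangle of `v, w`; the edges are moved to the cone by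
RED (`x.1` in the cone makes the power unique). Integrality: `b < q` if `q v ≥ q w`, `q v > -a`. -/
def SpecCHN : Prop := ∀ (F : Fm) (μ : Au F), Idf F → ∀ C K : ℕ, 0 < C → 0 < K → ∃ D c : ℕ, 0 < D ∧
  ∀ᶠ X : ℕ in atTop,
    ((ann μ X (C * X) ×ˢ ann μ X (C * X)).filter (fun x =>
      nb μ K x.1 x.2 ∧ F.f x.1 ≠ F.f x.2)).card ≤ c * (Eb μ (X / D) (D * X)).card

/-- PRS (from BAS; `LOG`). Sizes, as in `SG`. -/
def SpecPRS : Prop := ∀ (F : Fm) (μ : Au F), Idf F →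
  (∃ c : ℝ, 0 < c ∧ ∀ᶠ X : ℕ in atTop, c * X ≤ ((ann μ X (2 * X)).card : ℝ)) ∧
  (∃ c : ℝ, 0 < c ∧ ∀ X Z : ℕ, 0 < Z → ((ann μ X Z).card : ℝ) ≤ c * Z) ∧
  (∀ C : ℕ, 0 < C → ∃ c : ℕ, ∀ X : ℕ, 0 < X → ∀ i : ℤ, ∀ v ∈ ann μ X (C * X),
    ((ann μ X (C * X)).filter (fun v' => cross v v' = i)).card ≤ c ∧
    ((ann μ X (C * X)).filter (fun v' => cross v (μ.m v') = i)).card ≤ c ∧
    ((ann μ X (C * X)).filter (fun v' => cross v (μ.n v') = i)).card ≤ c)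

/-- FEJ (from BAS, LOG, PRS). `Φ(v, v') = (1/J) |∑_{l < J} (dir v conj (dir v')) ^ l|²` is at most `J` and
at most `C X² / (J c²)`, `c = cross v w`, `w` that one of `v', m v', n v'` with
`|log ratio| ≤ log R / 2`. -/
def SpecFEJ : Prop := ∀ (F : Fm) (μ : Au F), Idf F → PRIN μ → ∀ C : ℕ, 0 < C → ∀ κ : ℝ, 0 < κ →
  ∃ (K : ℕ) (δ : ℝ), 0 < K ∧ 0 < δ ∧ ∀ᶠ X : ℕ in atTop,
    (((ann μ X (C * X) ×ˢ ann μ X (C * X)).filter (fun x =>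
      nb μ K x.1 x.2 ∧ F.f x.1 ≠ F.f x.2)).card : ℝ) ≤ δ * X →
    ∃ e : ℤ, (e = 1 ∨ e = -1) ∧ (((ann μ X (C * X)).filter (fun v => F.f v ≠ e)).card : ℝ) ≤ κ * X

/-- ALP (from BAS, RED, PRS). As in `SG`, with `x + y √(-a)`, `x > 0` (totally positive), norm
`n₀ = x² + a y²`: `m v = (x v₁ - y (B v₁ + C v₂), x v₂ + y (A v₁ + B v₂))`, `q (m v) = n₀ q v`; the
image divided by its content `c ∣ n₀` is moved to the cone. -/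
def SpecALP : Prop := ∀ (F : Fm) (μ : Au F), Idf F → ∀ x y : ℤ, 0 < x ^ 2 + F.a * y ^ 2 →
  lam (x ^ 2 + F.a * y ^ 2) = -1 → ∃ (C : ℕ) (c : ℝ), 0 < C ∧ 0 < c ∧ ∀ᶠ X : ℕ in atTop,
    ∀ e : ℤ, (e = 1 ∨ e = -1) →
      c * X ≤ (((ann μ X (C * X)).filter (fun v => F.f v ≠ e)).card : ℝ)

/-- MIN (from CHN, FEJ, ALP). Many bad edges. -/
def SpecMIN : Prop := ∀ (F : Fm) (μ : Au F), Idf F → PRIN μ →
  (∃ x y : ℤ, 0 < x ^ 2 + F.a * y ^ 2 ∧ lam (x ^ 2 + F.a * y ^ 2) = -1) →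
  ∃ (D : ℕ) (ε : ℝ), 0 < D ∧ 0 < ε ∧ ∀ᶠ X : ℕ in atTop,
    ε * X ≤ ((Eb μ (X / D) (D * X)).card : ℝ)

/-- DYA (from BAS, RED, MIN). Dyadic decomposition of `Y < b < q ≤ D X` and the improper automorphism
(followed by RED): seeds with the sign `-1`. -/
def SpecDYA : Prop := ∀ (F : Fm) (μ : Au F), Idf F → Amb F →
  (∃ (D : ℕ) (ε : ℝ), 0 < D ∧ 0 < ε ∧ ∀ᶠ X : ℕ in atTop,
    ε * X ≤ ((Eb μ (X / D) (D * X)).card : ℝ)) →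
  ∃ (T : ℕ) (c : ℝ), 0 < T ∧ 0 < c ∧ ∀ᶠ N : ℕ in atTop, ∃ N' : ℕ, N ≤ T * N' ∧ N' ≤ N ∧
    c * N' ≤ (((G1 μ N').filter (fun x => lam (F.b x.1 x.2 ^ 2 + F.a) = -1)).card : ℝ)

/-- TRI (from BAS, RED). Seeds with the sign `+1` from the triangles `{x.2, x.1, x.1 + x.2}`, `x` critical
with `2 q x.1 ≤ 3 b`: the product of the three signs is `1`; edges moved to the cone by RED. -/
def SpecTRI : Prop := ∀ (F : Fm) (μ : Au F), Idf F → Amb F →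
  (∃ c : ℝ, 0 < c ∧ ∀ᶠ N : ℕ in atTop,
    c * N ≤ (((G1 μ N).filter (fun x => 2 * F.q x.1 ≤ 3 * F.b x.1 x.2)).card : ℝ)) →
  ∃ (T : ℕ) (c : ℝ), 0 < T ∧ 0 < c ∧ ∀ᶠ N : ℕ in atTop, ∃ N' : ℕ, N ≤ T * N' ∧ N' ≤ N ∧
    c * N' ≤ (((G1 μ N').filter (fun x => lam (F.b x.1 x.2 ^ 2 + F.a) = 1)).card : ℝ)

/-- LOW. Lower bound for the number of critical pairs with `2 q ≤ 3 b` (port of `SG/LOW.lean`). -/
def SpecLOW : Prop := ∀ (F : Fm) (μ : Au F), Idf F → ∃ c : ℝ, 0 < c ∧ ∀ᶠ N : ℕ in atTop,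
  c * N ≤ (((G1 μ N).filter (fun x => 2 * F.q x.1 ≤ 3 * F.b x.1 x.2)).card : ℝ)

/-- The seeds, every sign taken by `x² + a y² > 0`: from DYA, MIN, TRI, LOW. -/
def SpecSEED : Prop := ∀ (F : Fm) (μ : Au F), Idf F → Amb F → PRIN μ →
  ∀ s : ℤ, (∃ x y : ℤ, 0 < x ^ 2 + F.a * y ^ 2 ∧ lam (x ^ 2 + F.a * y ^ 2) = s) →
  ∃ (T : ℕ) (c : ℝ), 0 < T ∧ 0 < c ∧ ∀ᶠ N : ℕ in atTop, ∃ N' : ℕ, N ≤ T * N' ∧ N' ≤ N ∧
    c * N' ≤ (((G1 μ N').filter (fun x => lam (F.b x.1 x.2 ^ 2 + F.a) = s)).card : ℝ)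

end

/-- NEG (Liouville; corollary of `ParityEveryScale`, no `Sg`). There is `n` with `n² + a > 0` and
`λ(n² + a) = -1`. -/
def SpecNEG : Prop := ∀ a : ℤ, a < 0 → ¬ IsSquare (-a) → ∃ n : ℤ, 0 < n ^ 2 + a ∧
  (-1 : ℤ) ^ ArithmeticFunction.cardFactors (n ^ 2 + a).natAbs = -1

end Pool.Agent.Lib.MP391708.SR
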